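import Mathlib

/-!
# FORMS, module M4: dimension and finite type of a simple monic extension

For an injective integral extension `A → B` the Krull dimensions agree, hence for a field `k`, a
monic polynomial `F` over `A = k[X_1, .., X_n]` the ring `A[y]/(F)` has Krull dimension `n`; it is
a finite `A`-module and a `k`-algebra of finite type.
-/

namespace Pool.Agent.Lib.FR.Dim26

open Polynomial

section General

variable {A B : Type*} [CommRing A] [CommRing B] [Algebra A B]

/-- Dimension does not increase along an integral homomorphism. -/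
theorem ringKrullDim_le_of_isIntegral [Algebra.IsIntegral A B] :
    ringKrullDim B ≤ ringKrullDim A := by
  refine Order.krullDim_le_of_strictMono (PrimeSpectrum.comap (algebraMap A B)) ?_
  intro P Q hPQ
  have hlt : P.asIdeal < Q.asIdeal := hPQ
  have := P.isPrime
  exact (Ideal.IsIntegral.comap_lt_comap hlt :
    P.asIdeal.comap (algebraMap A B) < Q.asIdeal.comap (algebraMap A B))

/-- Dimension does not decrease along an injective integral homomorphism. -/
theorem ringKrullDim_ge_of_isIntegral [Algebra.IsIntegral A B]
    (hinj : Function.Injective (algebraMap A B)) :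
    ringKrullDim A ≤ ringKrullDim B := by
  refine iSup_le fun l ↦ ?_
  have hker : RingHom.ker (algebraMap A B) ≤ (RelSeries.head l).asIdeal := by
    rw [(RingHom.injective_iff_ker_eq_bot _).mp hinj]
    exact bot_le
  have hpr := (RelSeries.head l).isPrime
  obtain ⟨Q, -, hQ, hQc⟩ := Ideal.exists_ideal_over_prime_of_isIntegral
    (RelSeries.head l).asIdeal (⊥ : Ideal B) (by
      rw [← RingHom.ker_eq_comap_bot]
      exact hker)
  have : Q.LiesOver (RelSeries.head l).asIdeal := ⟨hQc.symm⟩
  obtain ⟨L, hL, -, -⟩ := Ideal.exists_ltSeries_of_hasGoingUp l Q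
  have h := Order.LTSeries.length_le_krullDim L
  rw [hL] at h
  exact h

/-- Krull dimension is invariant under injective integral extensions. -/
theorem ringKrullDim_eq_of_isIntegral [Algebra.IsIntegral A B]
    (hinj : Function.Injective (algebraMap A B)) :
    ringKrullDim B = ringKrullDim A :=
  le_antisymm ringKrullDim_le_of_isIntegral (ringKrullDim_ge_of_isIntegral hinj)

end General

section Monic

variable {A : Type*} [CommRing A]

theorem isIntegral_adjoinRoot {F : A[X]} (hF : F.Monic) :
    Algebra.IsIntegral A (AdjoinRoot F) := by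
  have := hF.finite_adjoinRoot
  infer_instance

theorem algebraMap_adjoinRoot_injective [IsDomain A] {F : A[X]} (hd : F.natDegree ≠ 0) :
    Function.Injective (algebraMap A (AdjoinRoot F)) := by
  rw [AdjoinRoot.algebraMap_eq]
  refine AdjoinRoot.of.injective_of_degree_ne_zero ?_
  intro h
  exact hd (natDegree_eq_of_degree_eq_some h)

theorem ringKrullDim_adjoinRoot [IsDomain A] {F : A[X]} (hF : F.Monic)
    (hd : F.natDegree ≠ 0) :
    ringKrullDim (AdjoinRoot F) = ringKrullDim A := by
  have := isIntegral_adjoinRoot hF
  exact ringKrullDim_eq_of_isIntegral (algebraMap_adjoinRoot_injective hd)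

theorem finiteType_adjoinRoot {k : Type*} [CommRing k] [Algebra k A] [Algebra.FiniteType k A]
    (F : A[X]) : Algebra.FiniteType k (AdjoinRoot F) := inferInstance

end Monic

section Poly

variable (k : Type*) [Field k] (n : ℕ)

theorem ringKrullDim_mvPolynomial_fin : ringKrullDim (MvPolynomial (Fin n) k) = n := by
  rw [MvPolynomial.ringKrullDim_of_isNoetherianRing, ringKrullDim_eq_zero_of_field]
  simp

variable {k n}

theorem ringKrullDim_adjoinRoot_mvPolynomial {F : (MvPolynomial (Fin n) k)[X]} (hF : F.Monic)
    (hd : F.natDegree ≠ 0) : ringKrullDim (AdjoinRoot F) = n := by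
  rw [ringKrullDim_adjoinRoot hF hd, ringKrullDim_mvPolynomial_fin]

/-- The case `F = X ^ p - C f`. -/
theorem ringKrullDim_adjoinRoot_pow_sub {p : ℕ} (hp : p ≠ 0) (f : MvPolynomial (Fin n) k) :
    ringKrullDim (AdjoinRoot (X ^ p - C f : (MvPolynomial (Fin n) k)[X])) = n := by
  refine ringKrullDim_adjoinRoot_mvPolynomial (monic_X_pow_sub_C f hp) ?_
  rw [natDegree_X_pow_sub_C]
  exact hp

theorem finiteType_adjoinRoot_mvPolynomial (F : (MvPolynomial (Fin n) k)[X]) :
    Algebra.FiniteType k (AdjoinRoot F) := finiteType_adjoinRoot F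

/-- Noetherian, free of finite rank over `A`. -/
theorem isNoetherianRing_adjoinRoot_mvPolynomial (F : (MvPolynomial (Fin n) k)[X]) :
    IsNoetherianRing (AdjoinRoot F) :=
  inferInstanceAs (IsNoetherianRing (_ ⧸ (_ : Ideal (MvPolynomial (Fin n) k)[X])))

end Poly

end Pool.Agent.Lib.FR.Dim26
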