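import Mathlib

/-!
Strong F-regularity of polynomial rings over perfect fields and of their direct summands,
in terms of `p^{-e}`-linear maps.
-/

set_option autoImplicit false

namespace Pool.Agent.Lib.FR.FReg39

open MvPolynomial

/-- `φ` is `q^{-1}`-linear: `φ (r ^ q * s) = r * φ s`. -/
def IsRootLinear {R : Type*} [CommRing R] (q : ℕ) (φ : R →+ R) : Prop :=
  ∀ r s, φ (r ^ q * s) = r * φ s

/-- strong F-regularity of a ring of characteristic `p`: for every nonzero `c` there is `e > 0`
such that `R → F^e_* R`, `1 ↦ F^e_* c` splits -/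
def StronglyFRegular (p : ℕ) (R : Type*) [CommRing R] : Prop :=
  ∀ c : R, c ≠ 0 → ∃ e : ℕ, 0 < e ∧ ∃ φ : R →+ R, IsRootLinear (p ^ e) φ ∧ φ c = 1

section Poly

variable {σ k : Type*} [Field k]

theorem inj_aff {q : ℕ} (hq : q ≠ 0) (a : σ →₀ ℕ) :
    Function.Injective (fun m : σ →₀ ℕ => q • m + a) := by
  intro m n hmn
  have h1 : q • m = q • n := add_right_cancel hmn
  ext i
  have := DFunLike.congr_fun h1 i
  simpa [hq] using this

/-- the underlying function of `root` -/
noncomputable def rootFun (q : ℕ) (hq : q ≠ 0) (ρ : k →+ k) (a : σ →₀ ℕ)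
    (h : MvPolynomial σ k) : MvPolynomial σ k :=
  ∑ m ∈ h.support.preimage (fun m : σ →₀ ℕ => q • m + a) (inj_aff hq a).injOn,
    monomial m (ρ (coeff (q • m + a) h))

theorem coeff_rootFun (q : ℕ) (hq : q ≠ 0) (ρ : k →+ k) (a : σ →₀ ℕ)
    (h : MvPolynomial σ k) (n : σ →₀ ℕ) :
    coeff n (rootFun q hq ρ a h) = ρ (coeff (q • n + a) h) := by
  classical
  unfold rootFun
  rw [coeff_sum]
  simp only [coeff_monomial]
  rw [Finset.sum_ite_eq']
  split_ifs with hn
  · rfl
  · have : coeff (q • n + a) h = 0 := by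
      by_contra h0
      exact hn (by simpa [Finset.mem_preimage, mem_support_iff] using h0)
    rw [this, map_zero]

/-- the map `c X^(q m + a) ↦ ρ(c) X^m` -/
noncomputable def root (q : ℕ) (hq : q ≠ 0) (ρ : k →+ k) (a : σ →₀ ℕ) :
    MvPolynomial σ k →+ MvPolynomial σ k where
  toFun := rootFun q hq ρ a
  map_zero' := by
    ext m; rw [coeff_rootFun]; simp
  map_add' h h' := by
    ext m; simp only [coeff_rootFun, coeff_add, map_add]

theorem coeff_root (q : ℕ) (hq : q ≠ 0) (ρ : k →+ k) (a : σ →₀ ℕ)
    (h : MvPolynomial σ k) (n : σ →₀ ℕ) :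
    coeff n (root q hq ρ a h) = ρ (coeff (q • n + a) h) :=
  coeff_rootFun q hq ρ a h n

/-- `root` is `q^{-1}`-linear when `q` is a power of the characteristic, `ρ` is the inverse of the
`q`-Frobenius and all exponents of `a` are less than `q` -/
theorem root_isRootLinear (p : ℕ) [Fact p.Prime] [CharP k p] (e : ℕ) (ρ : k →+ k)
    (hρ : ∀ x y, ρ (x ^ (p ^ e) * y) = x * ρ y) (a : σ →₀ ℕ) (ha : ∀ i, a i < p ^ e) :
    IsRootLinear (p ^ e)
      (root (p ^ e) (pow_ne_zero _ (Fact.out : p.Prime).ne_zero) ρ a) := by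
  classical
  have hq : p ^ e ≠ 0 := pow_ne_zero _ (Fact.out : p.Prime).ne_zero
  haveI : ExpChar k p := ExpChar.prime Fact.out
  haveI : ExpChar (MvPolynomial σ k) p := by
    haveI : CharP (MvPolynomial σ k) p := inferInstance
    exact ExpChar.prime Fact.out
  intro r s
  induction r using MvPolynomial.induction_on' with
  | monomial u c =>
    ext n
    rw [coeff_root, monomial_pow, coeff_monomial_mul', coeff_monomial_mul', coeff_root]
    have key : (p ^ e • u ≤ p ^ e • n + a) ↔ u ≤ n := by
      constructor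
      · intro h i
        have h1 := h i
        simp only [Finsupp.coe_smul, Pi.smul_apply, smul_eq_mul, Finsupp.coe_add,
          Pi.add_apply] at h1
        by_contra h2
        push_neg at h2
        have h3 : p ^ e * (n i + 1) ≤ p ^ e * u i := Nat.mul_le_mul_left _ h2
        have h4 := ha i
        have h5 : p ^ e * (n i + 1) = p ^ e * n i + p ^ e := by ring
        omega
      · intro h i
        have h1 := h i
        simp only [Finsupp.coe_smul, Pi.smul_apply, smul_eq_mul, Finsupp.coe_add,
          Pi.add_apply]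
        have : p ^ e * u i ≤ p ^ e * n i := Nat.mul_le_mul_left _ h1
        omega
    by_cases hun : u ≤ n
    · rw [if_pos (key.2 hun), if_pos hun, hρ]
      congr 3
      ext i
      have h1 := hun i
      simp only [Finsupp.coe_tsub, Finsupp.coe_smul, Finsupp.coe_add, Pi.sub_apply,
        Pi.add_apply, Pi.smul_apply, smul_eq_mul]
      have : p ^ e * u i ≤ p ^ e * n i := Nat.mul_le_mul_left _ h1
      rw [Nat.mul_sub]
      omega
    · rw [if_neg (fun h => hun (key.1 h)), if_neg hun, map_zero]
  | add f g hf hg =>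
    rw [add_pow_expChar_pow, add_mul, map_add, hf, hg, add_mul]

end Poly

/-- polynomial rings over perfect fields are strongly F-regular -/
theorem stronglyFRegular_mvPolynomial (p : ℕ) [Fact p.Prime] {σ k : Type*} [Field k]
    [CharP k p] [PerfectRing k p] :
    StronglyFRegular p (MvPolynomial σ k) := by
  classical
  intro c hc
  haveI : ExpChar k p := ExpChar.prime Fact.out
  obtain ⟨a, ha⟩ := MvPolynomial.ne_zero_iff.1 hc
  -- bound for the exponents of `c`
  obtain ⟨N, hN⟩ : ∃ N : ℕ, ∀ m ∈ c.support, ∀ i, m i < N := by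
    refine ⟨(c.support.sup fun m => m.support.sup fun i => m i) + 1, fun m hm i => ?_⟩
    by_cases hi : i ∈ m.support
    · exact Nat.lt_succ_of_le (le_trans (Finset.le_sup (f := fun i => m i) hi)
        (Finset.le_sup (f := fun m : σ →₀ ℕ => m.support.sup fun i => m i) hm))
    · rw [Finsupp.notMem_support_iff.1 hi]; omega
  have hp1 : 1 < p := (Fact.out : p.Prime).one_lt
  obtain ⟨e, he⟩ : ∃ e : ℕ, N < p ^ e := ⟨N, Nat.lt_pow_self hp1⟩
  have he' : N < p ^ (e + 1) := lt_of_lt_of_le he (Nat.pow_le_pow_right hp1.le (by omega))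
  set E := e + 1 with hE
  have hq : p ^ E ≠ 0 := pow_ne_zero _ (Fact.out : p.Prime).ne_zero
  let fe := (iterateFrobeniusEquiv k p E).symm
  let c0 : k := fe (coeff a c)
  have hc0 : c0 ≠ 0 := by
    intro h
    exact ha ((map_eq_zero_iff fe fe.injective).1 h)
  let ρ : k →+ k := (AddMonoidHom.mulLeft c0⁻¹).comp (fe : k →+* k).toAddMonoidHom
  have hρ : ∀ x y, ρ (x ^ (p ^ E) * y) = x * ρ y := by
    intro x y
    have h1 : fe (x ^ (p ^ E)) = x := by
      have : x ^ p ^ E = iterateFrobeniusEquiv k p E x := by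
        simp [iterateFrobeniusEquiv_apply, iterateFrobenius_def]
      rw [this]
      exact (iterateFrobeniusEquiv k p E).symm_apply_apply x
    change c0⁻¹ * fe (x ^ (p ^ E) * y) = x * (c0⁻¹ * fe y)
    rw [map_mul, h1]; ring
  have haE : ∀ i, a i < p ^ E := fun i =>
    lt_trans (hN a (mem_support_iff.2 ha) i) he'
  refine ⟨E, by omega, root (p ^ E) hq ρ a, root_isRootLinear p E ρ hρ a haE, ?_⟩
  ext n
  rw [coeff_root, coeff_one]
  split_ifs with hn
  · subst hn
    change c0⁻¹ * fe (coeff (p ^ E • 0 + a) c) = 1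
    rw [smul_zero, zero_add]
    exact inv_mul_cancel₀ hc0
  · have : coeff (p ^ E • n + a) c = 0 := by
      by_contra h0
      obtain ⟨i, hi⟩ : ∃ i, n i ≠ 0 := by
        by_contra hcon
        push_neg at hcon
        exact hn (by ext i; simp [hcon i])
      have h1 := hN _ (mem_support_iff.2 h0) i
      simp only [Finsupp.coe_smul, Pi.smul_apply, smul_eq_mul, Finsupp.coe_add,
        Pi.add_apply] at h1
      have : p ^ E * 1 ≤ p ^ E * n i := Nat.mul_le_mul_left _ (Nat.one_le_iff_ne_zero.2 hi)
      omega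
    rw [this, map_zero]

/-- direct summands of strongly F-regular rings are strongly F-regular -/
theorem StronglyFRegular.of_summand {p : ℕ} {R B : Type*} [CommRing R] [CommRing B]
    (hB : StronglyFRegular p B) (i : R →+* B) (hi : Function.Injective i) (ψ : B →+ R)
    (hψ : ∀ r b, ψ (i r * b) = r * ψ b) (h1 : ψ 1 = 1) : StronglyFRegular p R := by
  intro c hc
  obtain ⟨e, he, φ, hφ, hφc⟩ := hB (i c) (fun h => hc (hi (by rw [h, map_zero])))
  refine ⟨e, he, ψ.comp (φ.comp i.toAddMonoidHom), ?_, ?_⟩
  · intro r s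
    change ψ (φ (i (r ^ p ^ e * s))) = r * ψ (φ (i s))
    rw [map_mul, map_pow, hφ, hψ]
  · change ψ (φ (i c)) = 1
    rw [hφc, h1]

/-- direct summands of integrally closed domains are integrally closed -/
theorem isIntegrallyClosed_of_summand {R B : Type*} [CommRing R] [CommRing B] [IsDomain R]
    [IsDomain B] [IsIntegrallyClosed B] (i : R →+* B) (hi : Function.Injective i) (ψ : B →+ R)
    (hψ : ∀ r b, ψ (i r * b) = r * ψ b) (h1 : ψ 1 = 1) : IsIntegrallyClosed R := by
  rw [isIntegrallyClosed_iff (FractionRing R)]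
  intro x hx
  obtain ⟨a, b, hb, rfl⟩ := IsFractionRing.div_surjective (A := R) x
  have hb0 : b ≠ 0 := nonZeroDivisors.ne_zero hb
  have hib0 : i b ≠ 0 := fun h => hb0 (hi (by rw [h, map_zero]))
  -- the image of `x` in the fraction field of `B`
  let j : FractionRing R →+* FractionRing B :=
    IsFractionRing.map (A := R) (B := B) (K := FractionRing R) (L := FractionRing B) hi
  have hj : ∀ r, j (algebraMap R (FractionRing R) r) = algebraMap B (FractionRing B) (i r) := by
    intro r
    simp [j, IsFractionRing.map]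
  obtain ⟨P, hPm, hP⟩ := hx
  have hint : IsIntegral B (j (algebraMap R _ a / algebraMap R _ b)) := by
    refine ⟨P.map i, hPm.map i, ?_⟩
    rw [Polynomial.eval₂_map]
    have hc : (algebraMap B (FractionRing B)).comp i = j.comp (algebraMap R (FractionRing R)) := by
      ext r; simp [hj]
    rw [hc, ← Polynomial.hom_eval₂, hP, map_zero]
  obtain ⟨y, hy⟩ := (isIntegrallyClosed_iff (FractionRing B)).1 inferInstance hint
  have hy2 : i b * y = i a := by
    apply IsFractionRing.injective B (FractionRing B)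
    rw [map_mul, hy, map_div₀, hj, hj]
    have : algebraMap B (FractionRing B) (i b) ≠ 0 := by
      intro h
      exact hib0 (IsFractionRing.injective B (FractionRing B) (by rw [h, map_zero]))
    field_simp
  have hψa : ψ (i a) = a := by
    have := hψ a 1
    rwa [mul_one, h1, mul_one] at this
  have h3 : b * ψ y = a := by
    rw [← hψ, hy2, hψa]
  refine ⟨ψ y, ?_⟩
  have hbK : algebraMap R (FractionRing R) b ≠ 0 := by
    intro h
    exact hb0 (IsFractionRing.injective R (FractionRing R) (by rw [h, map_zero]))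
  rw [eq_div_iff hbK, ← map_mul, mul_comm, h3]

end Pool.Agent.Lib.FR.FReg39
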