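import Pool.Agent.Lib.FR.Defs
import Pool.Agent.Lib.FR.FReg39

set_option autoImplicit false

/-!
Module M3 of the room FORMS (MP_0afa72_ag): polynomial rings over perfect fields are strongly
F-regular, and a direct summand of a strongly F-regular ring is strongly F-regular
(in the form of `Defs.lean`; the proofs are in `FReg39.lean`).
-/

namespace Pool.Agent.Lib.FR

universe u v w

theorem stronglyFRegular_iff39 (p : ℕ) (R : Type u) [CommRing R] :
    StronglyFRegular p R ↔ FReg39.StronglyFRegular p R := Iff.rfl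

theorem M3a' (p : ℕ) [Fact p.Prime] (k : Type u) [Field k] [CharP k p] (σ : Type v)
    [PerfectField k] : StronglyFRegular p (MvPolynomial σ k) :=
  FReg39.stronglyFRegular_mvPolynomial p

theorem M3a (p : ℕ) [Fact p.Prime] (k : Type u) [Field k] [CharP k p] (n : ℕ) [PerfectField k] :
    StronglyFRegular p (MvPolynomial (Fin n) k) :=
  FReg39.stronglyFRegular_mvPolynomial p

theorem M3b' (p : ℕ) {R : Type u} {B : Type v} [CommRing R] [CommRing B] (ι : R →+* B)
    (hι : Function.Injective ι) (ψ : B →+ R) (hψ : ∀ r b, ψ (ι r * b) = r * ψ b) (h1 : ψ 1 = 1)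
    (hB : StronglyFRegular p B) : StronglyFRegular p R :=
  FReg39.StronglyFRegular.of_summand hB ι hι ψ hψ h1

theorem M3b (p : ℕ) {R B : Type u} [CommRing R] [CommRing B] (ι : R →+* B)
    (hι : Function.Injective ι) (ψ : B →+ R) (hψ : ∀ r b, ψ (ι r * b) = r * ψ b) (h1 : ψ 1 = 1)
    (hB : StronglyFRegular p B) : StronglyFRegular p R :=
  M3b' p ι hι ψ hψ h1 hB

end Pool.Agent.Lib.FR
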