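import Pool.Agent.Lib.FR.Cone20
import Pool.Agent.Lib.FR.M3
import Pool.Agent.Lib.FR.Dim26

set_option autoImplicit false

/-!
Room FORMS (MP_0afa72_ag), module M11: the base ring `A = G k p m 0` of the cone
`k[s_0, s_1]^(p) [z_1, ..., z_m]`: it is a direct summand of the polynomial ring
`k[s_0, s_1, z_1, ..., z_m]` (via `v ↦ 1`).
-/

namespace FRCone

open AddMonoidAlgebra

universe u

variable (k : Type u) [Field k] (p m : ℕ)

/-- The base ring: the degree zero part of `S`. -/
abbrev A0 : Type u := ↥(G k p m 0)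

/-- exponent of the image in `k[s_0, s_1, z_1, ..., z_m]` under `v ↦ 1` -/
noncomputable def ey : M p m →+ (Fin (m + 2) →₀ ℕ) where
  toFun x := Finsupp.cons (x.1.1 0) (Finsupp.cons (x.1.1 1) (Finsupp.tail x.1.2))
  map_zero' := by
    ext i
    refine Fin.cases ?_ (fun j => ?_) i
    · rw [Finsupp.cons_zero]; rfl
    · rw [Finsupp.cons_succ]
      refine Fin.cases ?_ (fun l => ?_) j
      · rw [Finsupp.cons_zero]; rfl
      · rw [Finsupp.cons_succ, Finsupp.tail_apply]; rfl
  map_add' x y := by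
    ext i
    rw [Finsupp.add_apply]
    refine Fin.cases ?_ (fun j => ?_) i
    · rw [Finsupp.cons_zero, Finsupp.cons_zero, Finsupp.cons_zero]; rfl
    · rw [Finsupp.cons_succ, Finsupp.cons_succ, Finsupp.cons_succ]
      refine Fin.cases ?_ (fun l => ?_) j
      · rw [Finsupp.cons_zero, Finsupp.cons_zero, Finsupp.cons_zero]; rfl
      · rw [Finsupp.cons_succ, Finsupp.cons_succ, Finsupp.cons_succ, Finsupp.tail_apply,
          Finsupp.tail_apply, Finsupp.tail_apply]; rfl

theorem ey_apply {p m : ℕ} (x : M p m) :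
    ey p m x = Finsupp.cons (x.1.1 0) (Finsupp.cons (x.1.1 1) (Finsupp.tail x.1.2)) := rfl

theorem ey_zero {p m : ℕ} (x : M p m) : ey p m x 0 = x.1.1 0 := by
  rw [ey_apply, Finsupp.cons_zero]

theorem ey_one {p m : ℕ} (x : M p m) : ey p m x 1 = x.1.1 1 := by
  have h : ey p m x (Fin.succ 0) = x.1.1 1 := by
    rw [ey_apply, Finsupp.cons_succ, Finsupp.cons_zero]
  exact h

theorem ey_succ_succ {p m : ℕ} (x : M p m) (j : Fin m) :
    ey p m x j.succ.succ = x.1.2 j.succ := by
  rw [ey_apply, Finsupp.cons_succ, Finsupp.cons_succ, Finsupp.tail_apply]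

/-- The map `v ↦ 1`. -/
noncomputable def vone : S k p m →ₐ[k] MvPolynomial (Fin (m + 2)) k :=
  AddMonoidAlgebra.mapDomainAlgHom k k (ey p m)

theorem vone_single (x : M p m) (r : k) :
    vone k p m (single x r) = MvPolynomial.monomial (ey p m x) r := by
  rw [vone, AddMonoidAlgebra.mapDomainAlgHom_apply, mapDomain_single]
  rfl

/-- The exponents of degree `0` are determined by their image. -/
theorem ey_inj {p m : ℕ} (hp : 0 < p) {x y : M p m} (h : ey p m x = ey p m y)
    (hx : dg p m x = 0) (hy : dg p m y = 0) : x = y := by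
  have h0 : x.1.1 0 = y.1.1 0 := by rw [← ey_zero, ← ey_zero, h]
  have h1 : x.1.1 1 = y.1.1 1 := by rw [← ey_one, ← ey_one, h]
  have hx' := dg_spec x
  have hy' := dg_spec y
  have h2 : x.1.2 0 = y.1.2 0 := by
    rw [hx, zero_add] at hx'
    rw [hy, zero_add] at hy'
    have : p * x.1.2 0 = p * y.1.2 0 := by rw [hx', hy', h0, h1]
    exact Nat.eq_of_mul_eq_mul_left hp this
  apply Subtype.ext
  apply Prod.ext
  · funext i
    fin_cases i
    · exact h0
    · exact h1
  · ext i
    refine Fin.cases h2 (fun j => ?_) i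
    rw [← ey_succ_succ, ← ey_succ_succ, h]

/-- Induction on elements of the base ring. -/
theorem A0_induction {P : A0 k p m → Prop} (h0 : P 0) (hadd : ∀ a b, P a → P b → P (a + b))
    (h1 : ∀ (x : M p m) (r : k) (hx : single x r ∈ G k p m 0), dg p m x = 0 →
      P ⟨single x r, hx⟩) (a : A0 k p m) : P a := by
  classical
  obtain ⟨f, hf⟩ := a
  have key : ∀ (s : Finset (M p m)) (hs : ∀ x ∈ s, dg p m x = 0),
      ∃ h : ∑ x ∈ s, single x (f.coeff x) ∈ G k p m 0, P ⟨∑ x ∈ s, single x (f.coeff x), h⟩ := by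
    intro s
    induction s using Finset.induction_on with
    | empty =>
      intro _
      refine ⟨by simp, ?_⟩
      have : (⟨∑ x ∈ (∅ : Finset (M p m)), single x (f.coeff x), by simp⟩ : A0 k p m) = 0 := by
        apply Subtype.ext
        simp
      rw [this]
      exact h0
    | insert x s hx ih =>
      intro hs
      obtain ⟨h, hP⟩ := ih (fun y hy => hs y (Finset.mem_insert_of_mem hy))
      have hxd : dg p m x = 0 := hs x (Finset.mem_insert_self _ _)
      have hmem : single x (f.coeff x) ∈ G k p m 0 := by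
        have := single_mem_gradeBy (R := k) (dg p m) x (f.coeff x)
        rwa [hxd] at this
      have hsum : ∑ y ∈ insert x s, single y (f.coeff y) =
          single x (f.coeff x) + ∑ y ∈ s, single y (f.coeff y) := Finset.sum_insert hx
      refine ⟨by rw [hsum]; exact add_mem hmem h, ?_⟩
      have : (⟨∑ y ∈ insert x s, single y (f.coeff y), by rw [hsum]; exact add_mem hmem h⟩ :
          A0 k p m) = ⟨single x (f.coeff x), hmem⟩ + ⟨∑ y ∈ s, single y (f.coeff y), h⟩ := by
        apply Subtype.ext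
        exact hsum
      rw [this]
      exact hadd _ _ (h1 x _ hmem hxd) hP
  obtain ⟨h, hP⟩ := key f.coeff.support (fun x hx => hf x hx)
  have hsum : ∑ x ∈ f.coeff.support, single x (f.coeff x) = f := sum_coeff_single f
  have : (⟨∑ x ∈ f.coeff.support, single x (f.coeff x), h⟩ : A0 k p m) = ⟨f, hf⟩ :=
    Subtype.ext hsum
  rwa [this] at hP

/-- The embedding of the base ring in the polynomial ring (`v ↦ 1`). -/
noncomputable def iotaA : A0 k p m →+* MvPolynomial (Fin (m + 2)) k :=
  (vone k p m).toRingHom.comp (algebraMap (A0 k p m) (S k p m))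

theorem iotaA_apply (a : A0 k p m) : iotaA k p m a = vone k p m a.1 := rfl

theorem iotaA_injective {p : ℕ} (hp : 0 < p) : Function.Injective (iotaA k p m) := by
  rw [injective_iff_map_eq_zero]
  rintro ⟨f, hf⟩ h
  rw [iotaA_apply] at h
  change vone k p m f = 0 at h
  rw [vone, AddMonoidAlgebra.mapDomainAlgHom_apply] at h
  have h2 : Finsupp.mapDomain (ey p m) f.coeff = Finsupp.mapDomain (ey p m) 0 := by
    rw [Finsupp.mapDomain_zero]
    exact congrArg AddMonoidAlgebra.coeff h
  have h3 := Finsupp.mapDomain_injOn {x : M p m | dg p m x = 0}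
    (fun x hx y hy hxy => ey_inj hp hxy hx hy) (fun x hx => hf x hx)
    (by simp) h2
  exact Subtype.ext (AddMonoidAlgebra.coeff_injective h3)

/-- exponent in `M p m` over an exponent in `k[s_0, s_1, z]` -/
noncomputable def bk (e : Fin (m + 2) →₀ ℕ) : M p m :=
  ⟨(![e 0, e 1], Finsupp.cons ((e 0 + e 1) / p) (Finsupp.tail (Finsupp.tail e))), by
    rw [mem_M]
    show p * (Finsupp.cons ((e 0 + e 1) / p) (Finsupp.tail (Finsupp.tail e))) 0 ≤ e 0 + e 1
    rw [Finsupp.cons_zero]
    exact Nat.mul_div_le _ _⟩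

theorem dg_bk {p m : ℕ} {e : Fin (m + 2) →₀ ℕ} (h : p ∣ e 0 + e 1) : dg p m (bk p m e) = 0 := by
  have h1 : p * (bk p m e).1.2 0 = e 0 + e 1 := by
    show p * (Finsupp.cons ((e 0 + e 1) / p) (Finsupp.tail (Finsupp.tail e))) 0 = e 0 + e 1
    rw [Finsupp.cons_zero]
    exact Nat.mul_div_cancel' h
  have h2 : (bk p m e).1.1 0 + (bk p m e).1.1 1 = e 0 + e 1 := rfl
  have h3 := dg_spec (bk p m e)
  rw [h1, h2] at h3
  omega

theorem ey_bk {p m : ℕ} (e : Fin (m + 2) →₀ ℕ) : ey p m (bk p m e) = e := by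
  ext i
  refine Fin.cases ?_ (fun j => ?_) i
  · rw [ey_zero]; rfl
  · refine Fin.cases ?_ (fun l => ?_) j
    · exact ey_one _
    · rw [ey_succ_succ]
      show (Finsupp.cons ((e 0 + e 1) / p) (Finsupp.tail (Finsupp.tail e))) l.succ = _
      rw [Finsupp.cons_succ, Finsupp.tail_apply, Finsupp.tail_apply]

/-- the retraction on monomials -/
noncomputable def rhoMon (e : Fin (m + 2) →₀ ℕ) : A0 k p m :=
  open Classical in
  if h : p ∣ e 0 + e 1 then
    ⟨single (bk p m e) 1, by
      have := single_mem_gradeBy (R := k) (dg p m) (bk p m e) 1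
      rwa [dg_bk h] at this⟩
  else 0

/-- the retraction `k[s_0, s_1, z] → A0` -/
noncomputable def rhoA : MvPolynomial (Fin (m + 2)) k →ₗ[k] A0 k p m :=
  (MvPolynomial.basisMonomials (Fin (m + 2)) k).constr k (rhoMon k p m)

theorem rhoA_monomial_one (e : Fin (m + 2) →₀ ℕ) :
    rhoA k p m (MvPolynomial.monomial e 1) = rhoMon k p m e := by
  have := (MvPolynomial.basisMonomials (Fin (m + 2)) k).constr_basis k (rhoMon k p m) e
  rwa [MvPolynomial.coe_basisMonomials] at this

theorem rhoA_monomial (e : Fin (m + 2) →₀ ℕ) (r : k) :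
    rhoA k p m (MvPolynomial.monomial e r) = r • rhoMon k p m e := by
  rw [← rhoA_monomial_one, ← map_smul, MvPolynomial.smul_monomial, smul_eq_mul, mul_one]

theorem ey_sum {p m : ℕ} (x : M p m) (hx : dg p m x = 0) :
    ey p m x 0 + ey p m x 1 = p * x.1.2 0 := by
  rw [ey_zero, ey_one]
  have := dg_spec x
  omega

theorem rhoMon_add (x : M p m) (hx : dg p m x = 0) (hp : 0 < p) (r : k)
    (hx' : single x r ∈ G k p m 0) (e : Fin (m + 2) →₀ ℕ) :
    r • rhoMon k p m (ey p m x + e) = (⟨single x r, hx'⟩ : A0 k p m) * rhoMon k p m e := by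
  classical
  have h1 := ey_sum x hx
  by_cases h : p ∣ e 0 + e 1
  · have h2 : p ∣ (ey p m x + e) 0 + (ey p m x + e) 1 := by
      rw [Finsupp.add_apply, Finsupp.add_apply]
      have : ey p m x 0 + e 0 + (ey p m x 1 + e 1) = p * x.1.2 0 + (e 0 + e 1) := by omega
      rw [this]
      exact dvd_add (dvd_mul_right _ _) h
    have h3 : bk p m (ey p m x + e) = x + bk p m e := by
      apply ey_inj hp
      · rw [ey_bk, map_add, ey_bk]
      · exact dg_bk h2
      · rw [map_add, hx, dg_bk h]
    rw [rhoMon, rhoMon, dif_pos h2, dif_pos h]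
    apply Subtype.ext
    show r • single (bk p m (ey p m x + e)) (1 : k) = single x r * single (bk p m e) 1
    rw [single_mul_single, h3, smul_single, smul_eq_mul]
  · have h2 : ¬ p ∣ (ey p m x + e) 0 + (ey p m x + e) 1 := by
      rw [Finsupp.add_apply, Finsupp.add_apply]
      have : ey p m x 0 + e 0 + (ey p m x 1 + e 1) = p * x.1.2 0 + (e 0 + e 1) := by omega
      rw [this]
      intro h3
      exact h ((Nat.dvd_add_right (dvd_mul_right p _)).1 h3)
    rw [rhoMon, rhoMon, dif_neg h2, dif_neg h, smul_zero, mul_zero]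

/-- `rhoA` is linear over the base ring. -/
theorem rhoA_mul {p : ℕ} (hp : 0 < p) (a : A0 k p m) (b : MvPolynomial (Fin (m + 2)) k) :
    rhoA k p m (iotaA k p m a * b) = a * rhoA k p m b := by
  induction a using A0_induction with
  | h0 => rw [map_zero, zero_mul, zero_mul, map_zero]
  | hadd a a' ha ha' => rw [map_add, add_mul, map_add, ha, ha', add_mul]
  | h1 x r hx hx0 =>
    induction b using MvPolynomial.induction_on' with
    | monomial e s =>
      rw [iotaA_apply, vone_single, MvPolynomial.monomial_mul, rhoA_monomial, rhoA_monomial,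
        mul_comm r s, mul_smul, rhoMon_add k p m x hx0 hp r hx]
      apply Subtype.ext
      exact (mul_smul_comm s (single x r : S k p m) (rhoMon k p m e).1).symm
    | add b b' hb hb' => rw [mul_add, map_add, hb, hb', map_add, mul_add]

theorem rhoA_one {p : ℕ} (hp : 0 < p) : rhoA k p m 1 = 1 := by
  have h : (1 : MvPolynomial (Fin (m + 2)) k) = MvPolynomial.monomial 0 1 := rfl
  rw [h, rhoA_monomial_one, rhoMon, dif_pos (by simp)]
  apply Subtype.ext
  show single (bk p m 0) (1 : k) = 1
  rw [one_def]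
  congr 1
  apply ey_inj hp
  · rw [ey_bk, map_zero]
  · exact dg_bk (by simp)
  · exact map_zero _

theorem isDomain_A0 {p : ℕ} (hp : 0 < p) : IsDomain (A0 k p m) :=
  (iotaA_injective k m hp).isDomain (iotaA k p m)

theorem isIntegrallyClosed_A0 {p : ℕ} (hp : 0 < p) : IsIntegrallyClosed (A0 k p m) := by
  have := isDomain_A0 k m hp
  exact Pool.Agent.Lib.FR.FReg39.isIntegrallyClosed_of_summand (iotaA k p m)
    (iotaA_injective k m hp) (rhoA k p m).toAddMonoidHom (fun a b => rhoA_mul k m hp a b)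
    (rhoA_one k m hp)

theorem stronglyFRegular_A0 (p : ℕ) [Fact p.Prime] [CharP k p] [PerfectField k] :
    Pool.Agent.Lib.FR.StronglyFRegular p (A0 k p m) :=
  Pool.Agent.Lib.FR.M3b p (iotaA k p m) (iotaA_injective k m (Fact.out : p.Prime).pos)
    (rhoA k p m).toAddMonoidHom (fun a b => rhoA_mul k m (Fact.out : p.Prime).pos a b)
    (rhoA_one k m (Fact.out : p.Prime).pos) (Pool.Agent.Lib.FR.M3a p k (m + 2))

end FRCone
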