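import Pool.Agent.Lib.FR.Base99

set_option autoImplicit false

/-!
Room FORMS (MP_0afa72_ag), module M11: the base ring `A0 k p m` of the cone: finite type and
dimension `m + 2`; its generators.
-/

namespace FRCone

open AddMonoidAlgebra

universe u

variable (k : Type u) [Field k] (p m : ℕ)

/-- monomials of degree zero as elements of the base ring -/
noncomputable def mon (x : M p m) (hx : dg p m x = 0) : A0 k p m :=
  ⟨single x 1, by
    have := single_mem_gradeBy (R := k) (dg p m) x 1
    rwa [hx] at this⟩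

theorem iotaA_mon (x : M p m) (hx : dg p m x = 0) :
    iotaA k p m (mon k p m x hx) = MvPolynomial.monomial (ey p m x) 1 := by
  rw [iotaA_apply, mon, vone_single]

/-- the exponent of `s_0 ^ i s_1 ^ j v`, `i + j = p` -/
noncomputable def we {p : ℕ} (m : ℕ) (i j : ℕ) (h : i + j = p) : M p m :=
  ⟨(![i, j], Finsupp.single 0 1), by
    rw [mem_M]
    show p * (Finsupp.single (0 : Fin (m + 1)) 1) 0 ≤ i + j
    rw [Finsupp.single_eq_same, mul_one, h]⟩

theorem dg_we {p : ℕ} (m : ℕ) (i j : ℕ) (h : i + j = p) : dg p m (we m i j h) = 0 := by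
  have h3 := dg_spec (we m i j h)
  have h1 : (we m i j h).1.2 0 = 1 := by
    show (Finsupp.single (0 : Fin (m + 1)) 1) 0 = 1
    rw [Finsupp.single_eq_same]
  have h2 : (we m i j h).1.1 0 + (we m i j h).1.1 1 = i + j := rfl
  rw [h1, h2] at h3
  omega

/-- the exponent of `z_j` -/
noncomputable def ze (p : ℕ) {m : ℕ} (j : Fin m) : M p m :=
  ⟨(0, Finsupp.single j.succ 1), by
    rw [mem_M]
    show p * (Finsupp.single (j.succ : Fin (m + 1)) 1) 0 ≤ 0 + 0
    rw [Finsupp.single_eq_of_ne (Fin.succ_ne_zero j).symm, mul_zero]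
    exact Nat.zero_le _⟩

theorem dg_ze (p : ℕ) {m : ℕ} (j : Fin m) : dg p m (ze p j) = 0 := by
  have h3 := dg_spec (ze p j)
  have h2 : (ze p j).1.1 0 + (ze p j).1.1 1 = 0 := rfl
  rw [h2] at h3
  omega

/-- the element `s_0 ^ i s_1 ^ j v` of the base ring -/
noncomputable def wmon {p : ℕ} (i j : ℕ) (h : i + j = p) : A0 k p m :=
  mon k p m (we m i j h) (dg_we m i j h)

/-- the element `z_j` of the base ring -/
noncomputable def zmon (j : Fin m) : A0 k p m := mon k p m (ze p j) (dg_ze p j)

theorem ey_we {p : ℕ} (m : ℕ) (i j : ℕ) (h : i + j = p) :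
    ey p m (we m i j h) = Finsupp.single 0 i + Finsupp.single 1 j := by
  ext l
  rw [Finsupp.add_apply]
  refine Fin.cases ?_ (fun l => ?_) l
  · rw [ey_zero, Finsupp.single_eq_same, Finsupp.single_eq_of_ne (by simp), add_zero]
    rfl
  · refine Fin.cases ?_ (fun l => ?_) l
    · have : (Fin.succ 0 : Fin (m + 2)) = 1 := rfl
      rw [this, ey_one, Finsupp.single_eq_same, Finsupp.single_eq_of_ne (by simp), zero_add]
      rfl
    · rw [ey_succ_succ, Finsupp.single_eq_of_ne (by simp),
        Finsupp.single_eq_of_ne (by rw [Ne, Fin.ext_iff]; simp)]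
      show (Finsupp.single (0 : Fin (m + 1)) 1) l.succ = 0
      rw [Finsupp.single_eq_of_ne (by simp)]

theorem ey_ze (p : ℕ) {m : ℕ} (j : Fin m) :
    ey p m (ze p j) = Finsupp.single j.succ.succ 1 := by
  ext l
  refine Fin.cases ?_ (fun l => ?_) l
  · rw [ey_zero, Finsupp.single_eq_of_ne (Fin.succ_ne_zero _).symm]
    rfl
  · refine Fin.cases ?_ (fun l => ?_) l
    · have : (Fin.succ 0 : Fin (m + 2)) = 1 := rfl
      rw [this, ey_one, Finsupp.single_eq_of_ne (by rw [Ne, Fin.ext_iff]; simp)]
      rfl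
    · rw [ey_succ_succ]
      show (Finsupp.single (j.succ : Fin (m + 1)) 1) l.succ = _
      rw [Finsupp.single_apply, Finsupp.single_apply]
      simp only [Fin.succ_inj]

theorem iotaA_wmon {p : ℕ} (i j : ℕ) (h : i + j = p) :
    iotaA k p m (wmon k m i j h) = MvPolynomial.X 0 ^ i * MvPolynomial.X 1 ^ j := by
  rw [wmon, iotaA_mon, MvPolynomial.X_pow_eq_monomial, MvPolynomial.X_pow_eq_monomial,
    MvPolynomial.monomial_mul, mul_one, ey_we]

theorem iotaA_zmon (j : Fin m) : iotaA k p m (zmon k p m j) = MvPolynomial.X j.succ.succ := by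
  rw [zmon, iotaA_mon, ey_ze]
  rfl

theorem iotaA_algebraMap (r : k) :
    iotaA k p m (algebraMap k (A0 k p m) r) = MvPolynomial.C r := by
  rw [iotaA_apply]
  show vone k p m (algebraMap k (S k p m) r) = _
  rw [AlgHom.commutes]
  rfl

section integral

variable {p}

theorem isIntegralElem_of_pow' {R S : Type*} [CommRing R] [CommRing S] (f : R →+* S) {x : S}
    {n : ℕ} (hn : 0 < n) (h : f.IsIntegralElem (x ^ n)) : f.IsIntegralElem x := by
  let _ := f.toAlgebra
  exact IsIntegral.of_pow hn h

/-- every element of `k[s_0, s_1, z]` is integral over the base ring -/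
theorem iotaA_isIntegral (hp : 0 < p) : (iotaA k p m).IsIntegral := by
  intro b
  induction b using MvPolynomial.induction_on with
  | C r =>
    rw [← iotaA_algebraMap k p m r]
    exact (iotaA k p m).isIntegralElem_map
  | add b b' hb hb' => exact hb.add (iotaA k p m) hb'
  | mul_X b i hb =>
    refine hb.mul (iotaA k p m) ?_
    refine Fin.cases ?_ (fun i => ?_) i
    · refine isIntegralElem_of_pow' (iotaA k p m) (n := p) hp ?_
      have h := iotaA_wmon k m p 0 (add_zero p)
      rw [pow_zero, mul_one] at h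
      rw [← h]
      exact (iotaA k p m).isIntegralElem_map
    · refine Fin.cases ?_ (fun i => ?_) i
      · refine isIntegralElem_of_pow' (iotaA k p m) (n := p) hp ?_
        have h := iotaA_wmon k m 0 p (zero_add p)
        rw [pow_zero, one_mul] at h
        have h2 : (Fin.succ 0 : Fin (m + 2)) = 1 := rfl
        rw [h2, ← h]
        exact (iotaA k p m).isIntegralElem_map
      · rw [← iotaA_zmon]
        exact (iotaA k p m).isIntegralElem_map

theorem ringKrullDim_A0 (hp : 0 < p) : ringKrullDim (A0 k p m) = (m + 2 : ℕ) := by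
  let _ := (iotaA k p m).toAlgebra
  have _ : Algebra.IsIntegral (A0 k p m) (MvPolynomial (Fin (m + 2)) k) :=
    ⟨iotaA_isIntegral k m hp⟩
  have h := Pool.Agent.Lib.FR.Dim26.ringKrullDim_eq_of_isIntegral (A := A0 k p m)
    (B := MvPolynomial (Fin (m + 2)) k) (iotaA_injective k m hp)
  rw [← h, MvPolynomial.ringKrullDim_of_isNoetherianRing, ringKrullDim_eq_zero_of_field, zero_add,
    Nat.card_fin]

theorem finiteType_A0 (hp : 0 < p) : Algebra.FiniteType k (A0 k p m) := by
  let _ := (iotaA k p m).toAlgebra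
  have _ : Algebra.IsIntegral (A0 k p m) (MvPolynomial (Fin (m + 2)) k) :=
    ⟨iotaA_isIntegral k m hp⟩
  have _ : IsScalarTower k (A0 k p m) (MvPolynomial (Fin (m + 2)) k) :=
    IsScalarTower.of_algebraMap_eq fun r => (iotaA_algebraMap k p m r).symm
  have _ : Algebra.FiniteType (A0 k p m) (MvPolynomial (Fin (m + 2)) k) :=
    Algebra.FiniteType.of_restrictScalars_finiteType k _ _
  have _ : Module.Finite (A0 k p m) (MvPolynomial (Fin (m + 2)) k) :=
    Algebra.IsIntegral.finite
  exact ⟨fg_of_fg_of_fg k (A0 k p m) (MvPolynomial (Fin (m + 2)) k)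
    (Algebra.FiniteType.out) Module.Finite.fg_top (iotaA_injective k m hp)⟩

end integral

end FRCone
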