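import Pool.Agent.Lib.FR.Snc20

set_option autoImplicit false

namespace FRCone

open AddMonoidAlgebra HomogeneousLocalization AlgebraicGeometry CategoryTheory
open Pool.Agent.Lib.FR

universe u

section general

variable {A C : Type u} [CommRing A] [CommRing C] {Y : Scheme.{u}}

/-- The ring map `A → O_(Y,y)`. -/
noncomputable def germAt (π : Y ⟶ Spec (CommRingCat.of A)) (y : Y) : A →+* Y.presheaf.stalk y :=
  ((Scheme.ΓSpecIso (CommRingCat.of A)).inv ≫ π.appTop ≫ Y.presheaf.germ ⊤ y trivial).hom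

theorem germ_top_Spec (x : Spec (CommRingCat.of C)) :
    (Scheme.ΓSpecIso (CommRingCat.of C)).inv ≫
      (Spec (CommRingCat.of C)).presheaf.germ ⊤ x trivial = toSt C x := by
  rfl

theorem germ_theta (j : Spec (CommRingCat.of C) ⟶ Y) [IsOpenImmersion j]
    (π : Y ⟶ Spec (CommRingCat.of A)) (ρ : A →+* C)
    (hρ : j ≫ π = Spec.map (CommRingCat.ofHom ρ)) (x : Spec (CommRingCat.of C)) :
    (Scheme.ΓSpecIso (CommRingCat.of A)).inv ≫ π.appTop ≫
      Y.presheaf.germ ⊤ (j x) trivial = CommRingCat.ofHom ρ ≫ theta j x := by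
  have h3 : Y.presheaf.germ ⊤ (j x) trivial ≫ j.stalkMap x =
      j.app ⊤ ≫ (Spec (CommRingCat.of C)).presheaf.germ (j ⁻¹ᵁ ⊤) x trivial :=
    Scheme.Hom.germ_stalkMap j ⊤ x trivial
  rw [← cancel_mono (j.stalkMap x), Category.assoc, Category.assoc, Category.assoc,
    theta_stalkMap, h3]
  have h1 : (j ≫ π).appTop = π.appTop ≫ j.appTop := Scheme.Hom.comp_appTop _ _
  have h2 : π.appTop ≫ j.app ⊤ ≫ (Spec (CommRingCat.of C)).presheaf.germ (j ⁻¹ᵁ ⊤) x trivial =
      (j ≫ π).appTop ≫ (Spec (CommRingCat.of C)).presheaf.germ ⊤ x trivial := by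
    rw [h1]; rfl
  rw [h2, hρ, ← Category.assoc, ← Scheme.ΓSpecIso_inv_naturality, Category.assoc, germ_top_Spec]

theorem exists_theta (j : Spec (CommRingCat.of C) ⟶ Y) [IsOpenImmersion j]
    (π : Y ⟶ Spec (CommRingCat.of A)) (ρ : A →+* C)
    (hρ : j ≫ π = Spec.map (CommRingCat.ofHom ρ)) (x : PrimeSpectrum C) (y : Y) (h : j x = y) :
    ∃ θ : C →+* Y.presheaf.stalk y,
      @IsLocalization.AtPrime C _ (Y.presheaf.stalk y) _ θ.toAlgebra x.asIdeal _ ∧
      germAt π y = θ.comp ρ := by
  subst h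
  exact ⟨(theta j x).hom, theta_loc j x,
    congrArg CommRingCat.Hom.hom (germ_theta j π ρ hρ x)⟩

theorem birational_of_chart [IsDomain C] [IsDomain A] [IsIntegral Y]
    (j : Spec (CommRingCat.of C) ⟶ Y) [IsOpenImmersion j]
    (π : Y ⟶ Spec (CommRingCat.of A)) (ρ : A →+* C)
    (hρ : j ≫ π = Spec.map (CommRingCat.ofHom ρ)) (hinj : Function.Injective ρ)
    (hfrac : ∀ c : C, ∃ a b : A, ρ b ≠ 0 ∧ c * ρ b = ρ a) :
    ∃ e : FractionRing A ≃+* Y.functionField,
      ∀ r : A, e (algebraMap A (FractionRing A) r) = toFunctionField π r := by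
  obtain ⟨x, hx, hx0⟩ : ∃ x : PrimeSpectrum C, j x = genericPoint Y ∧ x.asIdeal = ⊥ := by
    refine ⟨⊥, ?_, rfl⟩
    have h := genericPoint_eq_of_isOpenImmersion j
    rw [← h]
    congr 1
    exact (genericPoint_eq_bot_of_affine (CommRingCat.of C)).symm
  obtain ⟨θ, hθ, hg⟩ := exists_theta j π ρ hρ x _ hx
  have hg' : toFunctionField π = θ.comp ρ := hg
  let i0 : Algebra C Y.functionField := θ.toAlgebra
  have hθ' : IsLocalization.AtPrime Y.functionField x.asIdeal := hθ
  have hprime : x.asIdeal.primeCompl ≤ nonZeroDivisors C := by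
    intro c hc
    rw [mem_nonZeroDivisors_iff_ne_zero]
    rintro rfl
    exact hc (Ideal.zero_mem _)
  have hθinj : Function.Injective θ :=
    IsLocalization.injective (M := x.asIdeal.primeCompl) Y.functionField hprime
  let i1 : Algebra A Y.functionField := (toFunctionField π).toAlgebra
  have hi1 : ∀ a, algebraMap A Y.functionField a = θ (ρ a) := fun a => by
    change toFunctionField π a = _
    rw [hg']; rfl
  have hfr : IsFractionRing A Y.functionField := by
    have : FaithfulSMul A Y.functionField := by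
      rw [faithfulSMul_iff_algebraMap_injective]
      intro a b hab
      rw [hi1, hi1] at hab
      exact hinj (hθinj hab)
    apply IsFractionRing.of_field
    intro z
    obtain ⟨⟨c, s⟩, hz⟩ := IsLocalization.surj x.asIdeal.primeCompl z
    have hz' : z * θ s.1 = θ c := hz
    have hs : s.1 ≠ 0 := nonZeroDivisors.ne_zero (hprime s.2)
    obtain ⟨a1, b1, hb1, h1⟩ := hfrac c
    obtain ⟨a2, b2, hb2, h2⟩ := hfrac s.1
    have n1 : θ (ρ b1) ≠ 0 := fun h => hb1 (hθinj (by rw [h, map_zero]))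
    have n2 : θ (ρ b2) ≠ 0 := fun h => hb2 (hθinj (by rw [h, map_zero]))
    have n3 : θ s.1 ≠ 0 := fun h => hs (hθinj (by rw [h, map_zero]))
    refine ⟨a1 * b2, a2 * b1, ?_⟩
    rw [hi1, hi1, map_mul, map_mul, map_mul, map_mul, ← h1, ← h2, map_mul, map_mul, eq_div_iff
      (mul_ne_zero (mul_ne_zero n3 n2) n1), ← hz']
    ring
  exact ⟨(FractionRing.algEquiv A Y.functionField).toRingEquiv,
    fun r => (FractionRing.algEquiv A Y.functionField).commutes r⟩

end general

section cone

variable (k : Type u) [Field k] (p m : ℕ)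

theorem rho_injective (c : Fin 2) : Function.Injective (rho k p m c) := by
  rw [injective_iff_map_eq_zero]
  intro a ha
  rw [rho_apply] at ha
  exact Subtype.ext (chi_injOn k p m a.2 ha)

theorem birational_piY [IsDomain (G k p m 0)] (hp : 0 < p) :
    ∃ e : FractionRing (G k p m 0) ≃+* (Y k p m).functionField,
      ∀ r, e (algebraMap (G k p m 0) (FractionRing (G k p m 0)) r) =
        toFunctionField (piY k p m) r := by
  refine birational_of_chart (jj k p m 0) (piY k p m) (rho k p m 0) (jj_piY k p m 0)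
    (rho_injective k p m 0) (fun c => ?_)
  obtain ⟨n, a, ha⟩ := exists_chi k p m hp 0 c
  refine ⟨a, wv k p m 0 ^ n, ?_, ?_⟩
  · rw [map_pow, rho_wv]
    exact pow_ne_zero _ (MvPolynomial.X_ne_zero _)
  · rw [map_pow, rho_wv, rho_apply, ha]

end cone

end FRCone
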