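import Mathlib

set_option autoImplicit false

/-!
Definitions used in the statement of the hand-ins on MP_0afa72_ag (all short).
-/

namespace Pool.Agent.Lib.FR.St

open AlgebraicGeometry CategoryTheory

universe u v w

/-! ### Frobenius splittings -/

/-- `θ : I → R` is `p ^ e`-inverse linear: additive with `θ (r ^ (p ^ e) • x) = r * θ x`, that is,
an `R`-linear map `F^e_* I → R`. -/
def IsInvFrobLinear (q : ℕ) {R I : Type u} [CommRing R] [AddCommGroup I] [Module R I]
    (θ : I →+ R) : Prop :=
  ∀ (r : R) (x : I), θ (r ^ q • x) = r * θ x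

/-- `R` is strongly F-regular (for a domain `R` of characteristic `p`): for every `c ≠ 0` there are
`e > 0` and an `R`-linear map `F^e_* R → R` which sends `c` to `1`. -/
def StronglyFRegular (p : ℕ) (R : Type u) [CommRing R] : Prop :=
  ∀ c : R, c ≠ 0 → ∃ e : ℕ, 0 < e ∧ ∃ φ : R →+ R, IsInvFrobLinear (p ^ e) φ ∧ φ c = 1

/-- For `x : I` the map `R → F^e_* I`, `1 ↦ x`, splits for some `e > 0`. -/
def FrobeniusSplitsAt (p : ℕ) {R I : Type u} [CommRing R] [AddCommGroup I] [Module R I]
    (x : I) : Prop :=
  ∃ e : ℕ, 0 < e ∧ ∃ θ : I →+ R, IsInvFrobLinear (p ^ e) θ ∧ θ x = 1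

/-- `X = Spec R` (`R` a normal domain of characteristic `p`) is globally F-regular (boundary `0`):
for every effective Weil divisor `D` there is `e > 0` such that `O_X → F^e_* O_X(D)` splits. The
module `I` plays the role of `H^0(X, O_X(D))`, a finitely generated `R`-submodule of the function
field `K` which contains `1`. -/
def GloballyFRegular (p : ℕ) (R K : Type u) [CommRing R] [CommRing K] [Algebra R K] : Prop :=
  ∀ (I : Submodule R K) (h1 : (1 : K) ∈ I), I.FG → FrobeniusSplitsAt (R := R) (I := I) p ⟨1, h1⟩

/-! ### Differential forms -/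

section ext

variable (K : Type v) (M : Type u) [CommRing K] [AddCommGroup M] [Module K M] (m : ℕ)

/-- The exterior power `Λ^m M`. -/
def ExtPow : Type (max v u) := ⋀[K]^m M

noncomputable instance : AddCommGroup (ExtPow K M m) := Submodule.addCommGroup (⋀[K]^m M)

noncomputable instance : Module K (ExtPow K M m) := Submodule.module (⋀[K]^m M)

/-- The canonical alternating map `(x_1, ..., x_m) ↦ x_1 ∧ ... ∧ x_m`. -/
noncomputable def wedge : M [⋀^Fin m]→ₗ[K] ExtPow K M m := exteriorPower.ιMulti K m

end ext

/-- `φ a • (δ s_1 ∧ ... ∧ δ s_m)`. -/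
noncomputable def wedgeTerm {K : Type v} [CommRing K] {M : Type u} [AddCommGroup M] [Module K M]
    {m : ℕ} (a : K) (s : Fin m → M) : ExtPow K M m :=
  a • wedge K M m s

/-- `σ ∈ Λ^m M` is a sum of elements `φ a • (δ s_1 ∧ ... ∧ δ s_m)`, `a, s_1, ..., s_m ∈ A`. -/
def SumOfForms {K : Type v} [CommRing K] {M : Type u} [AddCommGroup M] [Module K M] {A : Type w}
    (φ : A → K) (δ : A → M) {m : ℕ} (σ : ExtPow K M m) : Prop :=
  σ ∈ AddSubgroup.closure {ω | ∃ (a : A) (s : Fin m → A), ω = wedgeTerm (φ a) fun i => δ (s i)}

/-- The `K`-module of differential `m`-forms of `K` over `k`. -/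
abbrev Forms (k : Type u) (K : Type v) [CommRing k] [CommRing K] [Algebra k K] (m : ℕ) :
    Type v := ExtPow K Ω[K⁄k] m

/-- The rational differential `m`-form `σ` of the field `K` over `k` is regular over the ring `A`
(with structure map `φ : A → K`): it is a sum of forms `a ds_1 ∧ ... ∧ ds_m` with `a, s_i` in the
image of `A`, that is, it lies in the image of `Λ^m Ω_{A/k} → Λ^m Ω_{K/k}`. -/
def RegularOver {k : Type u} {K : Type v} {A : Type w} [CommRing k] [CommRing K] [Algebra k K]
    [CommRing A] {m : ℕ} (φ : A →+* K) (σ : Forms k K m) : Prop :=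
  SumOfForms (fun a => φ a) (fun s => KaehlerDifferential.D k K (φ s)) σ

/-- `σ` is regular at all points of the smooth locus of `Spec R` (`K` the fraction field). -/
def RegularOnSmoothLocus (k : Type u) (R : Type u) [Field k] [CommRing R] [IsDomain R]
    [Algebra k R] {m : ℕ} (σ : Forms k (FractionRing R) m) : Prop :=
  ∀ P ∈ Algebra.smoothLocus k R,
    RegularOver (algebraMap (Localization.AtPrime P.asIdeal) (FractionRing R)) σ

/-! ### Modifications -/

section schemes

variable {R F : Type u} [CommRing R] [Field F] {Y : Scheme.{u}} [IsIntegral Y]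

/-- The ring map `Γ(Y, O_Y) → K(Y)`, `Y` integral. -/
noncomputable def globalToFunctionField (Y : Scheme.{u}) [IsIntegral Y] :
    Γ(Y, ⊤) ⟶ Y.functionField :=
  Y.presheaf.germ ⊤ (genericPoint Y) trivial

/-- The ring map `R → Γ(Y, O_Y)` given by a morphism `π : Y → Spec R`. -/
noncomputable def toGlobal (π : Y ⟶ Spec (CommRingCat.of R)) : CommRingCat.of R ⟶ Γ(Y, ⊤) :=
  (Scheme.ΓSpecIso (CommRingCat.of R)).inv ≫ π.appTop

/-- The ring map `R → K(Y)` given by a morphism `π : Y → Spec R`, `Y` integral. -/
noncomputable def toFunctionField (π : Y ⟶ Spec (CommRingCat.of R)) : R →+* Y.functionField :=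
  (toGlobal π ≫ globalToFunctionField Y).hom

/-- The map from the stalk `O_(Y, y)` to the field `F`, for an identification `e` of `F` with the
function field of `Y`. -/
noncomputable def stalkMap (e : F ≃+* Y.functionField) (y : Y) : Y.presheaf.stalk y →+* F :=
  e.symm.toRingHom.comp (algebraMap (Y.presheaf.stalk y) Y.functionField)

/-- `e` identifies the `R`-algebra `F` with the function field of `Y` over `R`, the `R`-algebra
structure of the latter given by `π : Y → Spec R`. For `F` the fraction field of `R`: `π` is
birational (`Y → Spec R` is dominant and induces an isomorphism of function fields). -/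
def IsCompatible [Algebra R F] (π : Y ⟶ Spec (CommRingCat.of R)) (e : F ≃+* Y.functionField) :
    Prop :=
  ∀ r : R, e (algebraMap R F r) = toFunctionField π r

/-- The form `σ` on `F ≃ K(Y)` is regular at every point of `Y`. -/
def RegularOnScheme {k : Type u} [Field k] [Algebra k F] (e : F ≃+* Y.functionField) {m : ℕ}
    (σ : Forms k F m) : Prop :=
  ∀ y : Y, RegularOver (stalkMap e y) σ

end schemes

/-- `σ` lifts to no proper birational `Y → X = Spec R`, `Y` integral: for every such `Y` (the
pullback of) `σ` is not regular on `Y`. -/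
def LiftsToNoModification (k : Type u) (R : Type u) [Field k] [CommRing R] [IsDomain R]
    [Algebra k R] {m : ℕ} (σ : Forms k (FractionRing R) m) : Prop :=
  ∀ (Y : Scheme.{u}) [IsIntegral Y] (π : Y ⟶ Spec (CommRingCat.of R)) [IsProper π]
    (e : FractionRing R ≃+* Y.functionField), IsCompatible π e → ¬ RegularOnScheme e σ

/-! ### Geometric properties and the ring -/

/-- `Spec R` (`R` a domain) is a normal variety over `k` of dimension `n`. -/
def IsNormalVariety (k : Type u) (R : Type u) [CommRing k] [CommRing R] [Algebra k R]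
    (n : ℕ) : Prop :=
  IsIntegrallyClosed R ∧ Algebra.FiniteType k R ∧ ringKrullDim R = n

/-- The complement of the smooth locus of `Spec R` consists of finitely many closed points. -/
def IsolatedSingularities (k : Type u) (R : Type u) [CommRing k] [CommRing R] [Algebra k R] :
    Prop :=
  (Algebra.smoothLocus k R)ᶜ.Finite ∧
    ∀ P : PrimeSpectrum R, P ∉ Algebra.smoothLocus k R → P.asIdeal.IsMaximal

/-- `X = Spec R` is globally F-regular, and there is an `m`-form on its function field which is
regular on the smooth locus of `X` and lifts to no proper birational `Y → X`, `Y` integral. -/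
def IsCounterexample (p : ℕ) (k : Type u) (R : Type u) [Field k] [CommRing R] [IsDomain R]
    [Algebra k R] (m : ℕ) : Prop :=
  StronglyFRegular p R ∧ GloballyFRegular p R (FractionRing R) ∧
    ∃ σ : Forms k (FractionRing R) m, RegularOnSmoothLocus k R σ ∧ LiftsToNoModification k R σ

/-- The polynomial `f = X_0 ... X_m + X_0 ^ a + ... + X_m ^ a`, `a = p (m + 1) + 1`. -/
noncomputable def fpol (p m : ℕ) (k : Type u) [CommRing k] : MvPolynomial (Fin (m + 1)) k :=
  ∏ i, MvPolynomial.X i + ∑ i, MvPolynomial.X i ^ (p * (m + 1) + 1)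

/-- The polynomial `y ^ p - g` over `A`. -/
noncomputable def rootPol (p : ℕ) {A : Type u} [CommRing A] (g : A) : Polynomial A :=
  Polynomial.X ^ p - Polynomial.C g

/-- The coordinate ring `R = k[X_0, ..., X_m, y] / (y ^ p - f)`. -/
abbrev HS (p m : ℕ) (k : Type u) [CommRing k] : Type u := AdjoinRoot (rootPol p (fpol p m k))

end Pool.Agent.Lib.FR.St
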