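import Pool.Agent.Lib.FR.Main
import Pool.Agent.Lib.FR.Statement

set_option autoImplicit false

namespace Pool.Agent.Lib.FR

universe u

theorem st_main (p m : ℕ) [Fact p.Prime] (hm : 1 ≤ m) (k : Type u) [Field k] [IsAlgClosed k]
    [CharP k p] :
    ∃ _ : IsDomain (St.HS p m k),
      St.IsNormalVariety k (St.HS p m k) (m + 1) ∧
      St.IsolatedSingularities k (St.HS p m k) ∧
      St.IsCounterexample p k (St.HS p m k) m := by
  obtain ⟨hd, h1, h2, h3, h4, h5, h6, σ, h7, h8⟩ := main p m k hm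
  refine ⟨hd, ⟨h1, h2, h3⟩, h6, ?_, ?_, σ, ?_, ?_⟩
  · exact h4
  · exact h5
  · exact h7
  · intro Y hY π hπ e he hreg
    obtain ⟨y, hy⟩ := @h8 Y hY π hπ e he
    exact hy (hreg y)

end Pool.Agent.Lib.FR
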