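import Pool.Agent.Lib.FR.Defs

set_option autoImplicit false

/-!
The chart ring `C = k[T, U_1, ..., U_m][V] / (V ^ p - G)` (room FORMS, MP_0afa72_ag):
`T = X 0`, `U_(j+1) = X j.succ` for `j : Fin m`.
-/

namespace Pool.Agent.Lib.FR

universe u

/-- the exponent `a = p (m + 1) + 1`. -/
def aa (p m : ℕ) : ℕ := p * (m + 1) + 1

/-- the weight `w = (p - 1) (m + 1) + 1` of the last variable. -/
def ww (p m : ℕ) : ℕ := (p - 1) * (m + 1) + 1

/-- the exponent `e = w a - p (m + 1)`. -/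
def ee (p m : ℕ) : ℕ := ww p m * aa p m - p * (m + 1)

/-- `G = U_1 ... U_m + T (1 + ∑_(j < m) U_j ^ a) + T ^ e U_m ^ a`. -/
noncomputable def GG (p m : ℕ) (k : Type u) [CommRing k] : MvPolynomial (Fin (m + 1)) k :=
  ∏ j : Fin m, MvPolynomial.X j.succ +
    MvPolynomial.X 0 *
      (1 + ∑ j ∈ Finset.univ.filter (fun j : Fin m => j.succ ≠ Fin.last m),
        MvPolynomial.X j.succ ^ aa p m) +
    MvPolynomial.X 0 ^ ee p m * MvPolynomial.X (Fin.last m) ^ aa p m

/-- the chart ring. -/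
abbrev CC (p m : ℕ) (k : Type u) [CommRing k] : Type u :=
  AdjoinRoot (Polynomial.X ^ p - Polynomial.C (GG p m k))

/-- the class of `T` (`i = 0`) and of `U_i` (`i ≥ 1`). -/
noncomputable def cc (p m : ℕ) (k : Type u) [CommRing k] (i : Fin (m + 1)) : CC p m k :=
  AdjoinRoot.of (Polynomial.X ^ p - Polynomial.C (GG p m k)) (MvPolynomial.X i)

/-- the class of `∂G/∂X_i`. -/
noncomputable def gg (p m : ℕ) (k : Type u) [CommRing k] (i : Fin (m + 1)) : CC p m k :=
  AdjoinRoot.of (Polynomial.X ^ p - Polynomial.C (GG p m k))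
    (MvPolynomial.pderiv i (GG p m k))

theorem ww_pos (p m : ℕ) : 1 ≤ ww p m := Nat.le_add_left 1 _

theorem le_ww_mul_aa (p m : ℕ) : p * (m + 1) + 1 ≤ ww p m * aa p m := by
  have h := Nat.mul_le_mul_right (aa p m) (ww_pos p m)
  simpa [aa] using h

theorem ee_add (p m : ℕ) : ee p m + p * (m + 1) = ww p m * aa p m :=
  Nat.sub_add_cancel ((Nat.le_succ _).trans (le_ww_mul_aa p m))

theorem two_le_ee {p m : ℕ} (hp : 2 ≤ p) (hm : 1 ≤ m) : 2 ≤ ee p m := by
  have h1 := ee_add p m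
  have h2 : 2 ≤ ww p m := by
    have : 1 * 2 ≤ (p - 1) * (m + 1) := Nat.mul_le_mul (by omega) (by omega)
    unfold ww
    omega
  have h3 : 2 * aa p m ≤ ww p m * aa p m := Nat.mul_le_mul_right _ h2
  have h4 : 2 * 1 ≤ p * (m + 1) := Nat.mul_le_mul hp (by omega)
  unfold aa at h3 h1
  omega

end Pool.Agent.Lib.FR
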