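import Pool.Agent.Lib.FR.Chart

set_option autoImplicit false

/-!
Module M8.2 of the room FORMS (MP_0afa72_ag): the chart `χ : R → C`, `X_0 -> T`, `X_j -> T U_j`
(`0 < j < m`), `X_m -> T ^ w U_m`, `y -> T ^ (m + 1) V`, `m = n + 1`; it is injective and
`χ (∂f/∂X_m) = T ^ m ∂G/∂U_m`.
-/

namespace Pool.Agent.Lib.FR

open MvPolynomial

universe u

/-- the monomial substitution `X_0 -> X_0`, `X_j -> X_0 ^ (w_j) X_j`. -/
noncomputable def theta (m : ℕ) (k : Type u) [Field k] (wt : Fin (m + 1) → ℕ) :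
    MvPolynomial (Fin (m + 1)) k →ₐ[k] MvPolynomial (Fin (m + 1)) k :=
  MvPolynomial.aeval (fun j => if j = 0 then X 0 else X 0 ^ wt j * X j)

theorem theta_X_zero (m : ℕ) (k : Type u) [Field k] (wt : Fin (m + 1) → ℕ) :
    theta m k wt (X 0) = X 0 := by
  simp [theta]

theorem theta_X (m : ℕ) (k : Type u) [Field k] (wt : Fin (m + 1) → ℕ) (j : Fin (m + 1))
    (hj : j ≠ 0) : theta m k wt (X j) = X 0 ^ wt j * X j := by
  simp [theta, hj]

theorem theta_injective (m : ℕ) (k : Type u) [Field k] (wt : Fin (m + 1) → ℕ) :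
    Function.Injective (theta m k wt) := by
  have h0 : algebraMap (MvPolynomial (Fin (m + 1)) k)
      (FractionRing (MvPolynomial (Fin (m + 1)) k)) (X 0) ≠ 0 := by
    intro h
    have := (FaithfulSMul.algebraMap_injective (MvPolynomial (Fin (m + 1)) k)
      (FractionRing (MvPolynomial (Fin (m + 1)) k))) (h.trans (map_zero _).symm)
    exact MvPolynomial.X_ne_zero (R := k) (0 : Fin (m + 1)) this
  obtain ⟨ρ, hρ0, hρ⟩ : ∃ ρ : MvPolynomial (Fin (m + 1)) k →ₐ[k]
      FractionRing (MvPolynomial (Fin (m + 1)) k),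
      ρ (X 0) = algebraMap _ _ (X 0 : MvPolynomial (Fin (m + 1)) k) ∧
      ∀ j, j ≠ 0 → ρ (X j) = algebraMap _ _ (X j : MvPolynomial (Fin (m + 1)) k) /
        algebraMap _ _ (X 0 : MvPolynomial (Fin (m + 1)) k) ^ wt j := by
    refine ⟨MvPolynomial.aeval (fun j => if j = 0 then
      algebraMap _ _ (X 0 : MvPolynomial (Fin (m + 1)) k)
      else algebraMap _ _ (X j : MvPolynomial (Fin (m + 1)) k) /
        algebraMap _ _ (X 0 : MvPolynomial (Fin (m + 1)) k) ^ wt j), ?_, ?_⟩
    · simp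
    · intro j hj
      simp [hj]
  have hcomp : ρ.comp (theta m k wt) = IsScalarTower.toAlgHom k (MvPolynomial (Fin (m + 1)) k)
      (FractionRing (MvPolynomial (Fin (m + 1)) k)) := by
    apply MvPolynomial.algHom_ext
    intro j
    rw [AlgHom.comp_apply]
    by_cases hj : j = 0
    · subst hj
      rw [theta_X_zero, hρ0]
      rfl
    · rw [theta_X m k wt j hj, map_mul, map_pow, hρ0, hρ j hj, mul_div_cancel₀]
      · rfl
      · exact pow_ne_zero _ h0
  have hinj : Function.Injective (ρ.comp (theta m k wt)) := by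
    rw [hcomp]
    exact FaithfulSMul.algebraMap_injective (MvPolynomial (Fin (m + 1)) k)
      (FractionRing (MvPolynomial (Fin (m + 1)) k))
  intro x y hxy
  apply hinj
  simp [hxy]

/-- a homomorphism from a domain `A[y]/(h)`, `h` monic, is injective as soon as it is on `A`. -/
theorem injective_of_adjoinRoot {A : Type u} [CommRing A] [IsDomain A] {h : Polynomial A}
    (hm : h.Monic) [IsDomain (AdjoinRoot h)] {C : Type u} [CommRing C] (χ : AdjoinRoot h →+* C)
    (hχ : Function.Injective (χ.comp (AdjoinRoot.of h))) : Function.Injective χ := by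
  rw [RingHom.injective_iff_ker_eq_bot]
  by_contra hne
  obtain ⟨x, hx, hx0⟩ := Submodule.exists_mem_ne_zero_of_ne_bot hne
  have hint : IsIntegral A x := by
    have := hm.finite_adjoinRoot
    exact Algebra.IsIntegral.isIntegral x
  have := Ideal.comap_ne_bot_of_integral_mem (R := A) hx0 hx hint
  apply this
  rw [eq_bot_iff]
  intro a ha
  rw [Ideal.mem_comap, RingHom.mem_ker] at ha
  rw [Ideal.mem_bot]
  apply hχ
  simpa using ha

/-- weights of the chart: `w_m = ww`, all other weights are `1`. -/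
def wts (p m : ℕ) (j : Fin (m + 1)) : ℕ := if j = Fin.last m then ww p m else 1

theorem wts_last (p m : ℕ) : wts p m (Fin.last m) = ww p m := if_pos rfl

theorem wts_of_ne (p m : ℕ) {j : Fin (m + 1)} (hj : j ≠ Fin.last m) : wts p m j = 1 := if_neg hj

theorem succ_castSucc_ne_last (n : ℕ) (j : Fin n) : (Fin.castSucc j).succ ≠ Fin.last (n + 1) := by
  rw [← Fin.castSucc_succ]
  exact Fin.castSucc_lt_last _ |>.ne

theorem ww_mul_aa (p m : ℕ) : ww p m * aa p m = p * (m + 1) + ee p m := by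
  unfold ee
  have : p * (m + 1) ≤ ww p m * aa p m := by
    unfold ww aa
    nlinarith [Nat.zero_le ((p - 1) * (m + 1)), Nat.zero_le ((p - 1) * (m + 1) * (p * (m + 1)))]
  omega

theorem add_ww {p : ℕ} (hp : 1 ≤ p) (n : ℕ) : 1 + (n + ww p (n + 1)) = p * (n + 1 + 1) := by
  unfold ww
  obtain ⟨q, rfl⟩ : ∃ q, p = q + 1 := ⟨p - 1, by omega⟩
  simp only [Nat.add_sub_cancel]
  ring

theorem theta_fpol {p : ℕ} (hp : 1 ≤ p) (n : ℕ) (k : Type u) [Field k] :
    theta (n + 1) k (wts p (n + 1)) (fpol p (n + 1) k) =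
      X 0 ^ (p * (n + 1 + 1)) * GG p (n + 1) k := by
  have h1 : theta (n + 1) k (wts p (n + 1)) (∏ i, X i) =
      X 0 ^ (p * (n + 1 + 1)) * ∏ j : Fin (n + 1), X j.succ := by
    rw [map_prod, Fin.prod_univ_succ, theta_X_zero]
    have : ∀ j : Fin (n + 1), theta (n + 1) k (wts p (n + 1)) (X j.succ) =
        X 0 ^ wts p (n + 1) j.succ * X j.succ := fun j => theta_X _ _ _ _ (Fin.succ_ne_zero j)
    rw [Finset.prod_congr rfl (fun j _ => this j), Finset.prod_mul_distrib,
      Finset.prod_pow_eq_pow_sum]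
    have h2 : ∑ j : Fin (n + 1), wts p (n + 1) j.succ = n + ww p (n + 1) := by
      rw [Fin.sum_univ_castSucc]
      congr 1
      · rw [Finset.sum_congr rfl (fun j _ => wts_of_ne p (n + 1) (succ_castSucc_ne_last n j))]
        simp
      · exact wts_last p (n + 1)
    rw [h2, ← mul_assoc, ← pow_succ', ← add_ww hp n, add_comm 1 (n + ww p (n + 1))]
  have h3 : theta (n + 1) k (wts p (n + 1)) (∑ i, X i ^ (p * (n + 1 + 1) + 1)) =
      X 0 ^ (p * (n + 1 + 1)) * (X 0 * (1 + ∑ j ∈ Finset.univ.filter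
        (fun j : Fin (n + 1) => j.succ ≠ Fin.last (n + 1)), X j.succ ^ aa p (n + 1)) +
        X 0 ^ ee p (n + 1) * X (Fin.last (n + 1)) ^ aa p (n + 1)) := by
    rw [map_sum, Fin.sum_univ_succ, map_pow, theta_X_zero]
    have : ∀ j : Fin (n + 1), theta (n + 1) k (wts p (n + 1)) (X j.succ ^ (p * (n + 1 + 1) + 1)) =
        X 0 ^ (wts p (n + 1) j.succ * aa p (n + 1)) * X j.succ ^ aa p (n + 1) := by
      intro j
      rw [map_pow, theta_X _ _ _ _ (Fin.succ_ne_zero j), mul_pow, ← pow_mul]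
      rfl
    rw [Finset.sum_congr rfl (fun j _ => this j), Finset.sum_filter, Fin.sum_univ_castSucc,
      Fin.sum_univ_castSucc]
    have hl : (Fin.last n).succ = Fin.last (n + 1) := rfl
    rw [hl, wts_last, ww_mul_aa]
    have : ∀ j : Fin n, (X 0 : MvPolynomial (Fin (n + 1 + 1)) k) ^
        (wts p (n + 1) (Fin.castSucc j).succ * aa p (n + 1)) *
        X (Fin.castSucc j).succ ^ aa p (n + 1) = X 0 ^ (p * (n + 1 + 1)) *
        (X 0 * (if (Fin.castSucc j).succ ≠ Fin.last (n + 1) then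
          X (Fin.castSucc j).succ ^ aa p (n + 1) else 0)) := by
      intro j
      rw [wts_of_ne p (n + 1) (succ_castSucc_ne_last n j), if_pos (succ_castSucc_ne_last n j),
        one_mul]
      unfold aa
      ring
    rw [Finset.sum_congr rfl (fun j _ => this j), ← Finset.mul_sum, ← Finset.mul_sum,
      if_neg (by simp)]
    ring
  rw [fpol, map_add, h1, h3, GG]
  ring

section chi

variable (p n : ℕ) (k : Type u) [Field k]

/-- the polynomial `V ^ p - G` of the chart. -/
noncomputable abbrev cpol (p m : ℕ) (k : Type u) [CommRing k] :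
    Polynomial (MvPolynomial (Fin (m + 1)) k) :=
  Polynomial.X ^ p - Polynomial.C (GG p m k)

theorem chi_aux (hp : 1 ≤ p) : (hpol p (n + 1) k).eval₂
    ((AdjoinRoot.ofAlgHom k (cpol p (n + 1) k)).comp
      (theta (n + 1) k (wts p (n + 1)))).toRingHom
    (cc p (n + 1) k 0 ^ (n + 1 + 1) *
      AdjoinRoot.root (cpol p (n + 1) k)) = 0 := by
  have hroot : AdjoinRoot.root (cpol p (n + 1) k) ^ p =
      AdjoinRoot.of (cpol p (n + 1) k) (GG p (n + 1) k) := by
    have := AdjoinRoot.eval₂_root (cpol p (n + 1) k)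
    rw [Polynomial.eval₂_sub, Polynomial.eval₂_pow, Polynomial.eval₂_X, Polynomial.eval₂_C,
      sub_eq_zero] at this
    exact this
  have h1 : ((AdjoinRoot.ofAlgHom k (cpol p (n + 1) k)).comp
      (theta (n + 1) k (wts p (n + 1)))).toRingHom (fpol p (n + 1) k) =
      AdjoinRoot.of (cpol p (n + 1) k) (theta (n + 1) k (wts p (n + 1)) (fpol p (n + 1) k)) := rfl
  rw [hpol, Polynomial.eval₂_sub, Polynomial.eval₂_pow, Polynomial.eval₂_X, Polynomial.eval₂_C,
    h1, theta_fpol hp, mul_pow, hroot, map_mul, map_pow, ← pow_mul, mul_comm (n + 1 + 1) p]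
  exact sub_self _

/-- the chart `χ : R → C`, `X_0 -> T`, `X_j -> T U_j`, `X_m -> T ^ w U_m`, `y -> T ^ (m + 1) V`. -/
noncomputable def chi (hp : 1 ≤ p) : HS p (n + 1) k →ₐ[k] CC p (n + 1) k :=
  AdjoinRoot.liftAlgHom (hpol p (n + 1) k)
    ((AdjoinRoot.ofAlgHom k (cpol p (n + 1) k)).comp (theta (n + 1) k (wts p (n + 1))))
    (cc p (n + 1) k 0 ^ (n + 1 + 1) * AdjoinRoot.root (cpol p (n + 1) k))
    (chi_aux p n k hp)

theorem chi_of (hp : 1 ≤ p) (g : MvPolynomial (Fin (n + 1 + 1)) k) :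
    chi p n k hp (AdjoinRoot.of (hpol p (n + 1) k) g) =
      AdjoinRoot.of (cpol p (n + 1) k) (theta (n + 1) k (wts p (n + 1)) g) :=
  AdjoinRoot.liftAlgHom_of _ _ _ _ _

theorem chi_yy (hp : 1 ≤ p) : chi p n k hp (yy p (n + 1) k) =
    cc p (n + 1) k 0 ^ (n + 1 + 1) * AdjoinRoot.root (cpol p (n + 1) k) :=
  AdjoinRoot.liftAlgHom_root _ _ _ _

theorem chi_xx_zero (hp : 1 ≤ p) : chi p n k hp (xx p (n + 1) k 0) = cc p (n + 1) k 0 := by
  rw [xx, chi_of, theta_X_zero]
  rfl

theorem chi_xx_mid (hp : 1 ≤ p) (j : Fin n) : chi p n k hp (xx p (n + 1) k j.succ.castSucc) =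
    cc p (n + 1) k 0 * cc p (n + 1) k j.castSucc.succ := by
  have h : (j.succ.castSucc : Fin (n + 1 + 1)) = j.castSucc.succ := rfl
  rw [xx, chi_of, h, theta_X _ _ _ _ (Fin.succ_ne_zero _),
    wts_of_ne p (n + 1) (succ_castSucc_ne_last n j), pow_one, map_mul]
  rfl

theorem chi_xx_last (hp : 1 ≤ p) : chi p n k hp (xx p (n + 1) k (Fin.last (n + 1))) =
    cc p (n + 1) k 0 ^ ww p (n + 1) * cc p (n + 1) k (Fin.last (n + 1)) := by
  rw [xx, chi_of, theta_X _ _ _ _ (Fin.last_pos.ne'), wts_last, map_mul, map_pow]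
  rfl

theorem chi_injective [Fact p.Prime] [IsDomain (HS p (n + 1) k)] (hp : 1 ≤ p) :
    Function.Injective (chi p n k hp) := by
  have hp0 : p ≠ 0 := by omega
  have hmon : (hpol p (n + 1) k).Monic := Polynomial.monic_X_pow_sub_C _ hp0
  refine injective_of_adjoinRoot hmon (chi p n k hp).toRingHom ?_
  intro a b hab
  have hab' : chi p n k hp (AdjoinRoot.of (hpol p (n + 1) k) a) =
      chi p n k hp (AdjoinRoot.of (hpol p (n + 1) k) b) := hab
  rw [chi_of, chi_of] at hab'
  have hdeg : (cpol p (n + 1) k).degree ≠ 0 := by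
    rw [Polynomial.degree_X_pow_sub_C (by omega)]
    exact_mod_cast hp0
  exact theta_injective _ _ _ (AdjoinRoot.of.injective_of_degree_ne_zero hdeg hab')

end chi

section ffm

variable (p n : ℕ) (k : Type u) [Field k]

/-- `w N = m + e`, `N = p (m + 1)`. -/
theorem ww_mul {p : ℕ} (hp : 1 ≤ p) (n : ℕ) :
    ww p (n + 1) * (p * (n + 1 + 1)) = (n + 1) + ee p (n + 1) := by
  have h1 := ww_mul_aa p (n + 1)
  have h2 := add_ww hp n
  unfold aa at h1
  rw [mul_add, mul_one] at h1
  omega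

/-- `∂G/∂U_m`. -/
theorem pderiv_GG [CharP k p] : pderiv (Fin.last (n + 1)) (GG p (n + 1) k) =
    ∏ j : Fin n, X (Fin.castSucc j).succ +
      X 0 ^ ee p (n + 1) * X (Fin.last (n + 1)) ^ (p * (n + 1 + 1)) := by
  have h0 : ∀ i : Fin (n + 1 + 1), i ≠ Fin.last (n + 1) →
      pderiv (Fin.last (n + 1)) (X i : MvPolynomial (Fin (n + 1 + 1)) k) = 0 := fun i hi =>
    pderiv_X_of_ne hi
  have hl : (Fin.last n).succ = Fin.last (n + 1) := rfl
  have hprod : pderiv (Fin.last (n + 1))
      (∏ j : Fin n, X (Fin.castSucc j).succ : MvPolynomial (Fin (n + 1 + 1)) k) = 0 := by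
    refine Finset.prod_induction _ (fun g => pderiv (Fin.last (n + 1)) g = 0) ?_ ?_ ?_
    · intro a b ha hb
      rw [Derivation.leibniz, ha, hb, smul_zero, smul_zero, add_zero]
    · exact Derivation.map_one_eq_zero _
    · exact fun j _ => h0 _ (succ_castSucc_ne_last n j)
  have hsum : pderiv (Fin.last (n + 1)) (∑ j ∈ Finset.univ.filter
      (fun j : Fin (n + 1) => j.succ ≠ Fin.last (n + 1)), X j.succ ^ aa p (n + 1) :
      MvPolynomial (Fin (n + 1 + 1)) k) = 0 := by
    rw [map_sum]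
    refine Finset.sum_eq_zero fun j hj => ?_
    rw [Derivation.leibniz_pow, h0 _ (Finset.mem_filter.mp hj).2]
    simp
  have h00 : pderiv (Fin.last (n + 1)) (X 0 : MvPolynomial (Fin (n + 1 + 1)) k) = 0 :=
    h0 0 (Fin.last_pos.ne)
  have haa : ((aa p (n + 1) : ℕ) : MvPolynomial (Fin (n + 1 + 1)) k) = 1 := by
    unfold aa
    push_cast
    rw [CharP.cast_eq_zero]
    ring
  rw [GG, Fin.prod_univ_castSucc, hl, map_add, map_add, Derivation.leibniz, hprod, pderiv_X_self,
    Derivation.leibniz, h00, map_add, hsum, Derivation.leibniz, Derivation.leibniz_pow,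
    Derivation.leibniz_pow, h00, pderiv_X_self]
  simp only [smul_eq_mul, mul_one, mul_zero, add_zero, nsmul_eq_mul, haa, one_mul,
    Derivation.map_one_eq_zero, smul_zero]
  rfl

theorem chi_ff [CharP k p] (hp : 1 ≤ p) : chi p n k hp (ff p (n + 1) k (Fin.last (n + 1))) =
    cc p (n + 1) k 0 ^ (n + 1) * gg p (n + 1) k (Fin.last (n + 1)) := by
  have hprod : ∏ j ∈ Finset.univ.erase (Fin.last (n + 1)), xx p (n + 1) k j =
      xx p (n + 1) k 0 * ∏ j : Fin n, xx p (n + 1) k j.succ.castSucc := by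
    have h1 : (Finset.univ.erase (Fin.last (n + 1)) : Finset (Fin (n + 1 + 1))) =
        Finset.univ.map Fin.castSuccEmb := by
      ext i
      simp only [Finset.mem_erase, Finset.mem_univ, and_true, Finset.mem_map, true_and]
      constructor
      · intro hi
        exact ⟨i.castPred hi, Fin.castSucc_castPred i hi⟩
      · rintro ⟨j, rfl⟩
        exact (Fin.castSucc_lt_last j).ne
    rw [h1, Finset.prod_map, Fin.prod_univ_succ]
    rfl
  rw [ff, hprod, map_add, map_mul, map_pow, map_prod, chi_xx_zero, chi_xx_last,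
    Finset.prod_congr rfl (fun j _ => chi_xx_mid p n k hp j), Finset.prod_mul_distrib,
    Finset.prod_const, Finset.card_univ, Fintype.card_fin, gg, pderiv_GG, map_add, map_mul,
    map_pow, map_pow, map_prod, mul_pow, ← pow_mul, ww_mul hp]
  simp only [cc]
  ring

end ffm

end Pool.Agent.Lib.FR
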