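import Mathlib

set_option autoImplicit false

namespace FRCone

open AddMonoidAlgebra

/-- Exponents `(x, y)` of the monomial `s_0^(x 0) s_1^(x 1) v^(y 0) z^(tail y)`. -/
abbrev Ex (m : ℕ) : Type := (Fin 2 → ℕ) × (Fin (m + 1) →₀ ℕ)

/-- Exponents of nonnegative degree `x 0 + x 1 - p * y 0`. -/
def M (p m : ℕ) : AddSubmonoid (Ex m) where
  carrier := {x | p * x.2 0 ≤ x.1 0 + x.1 1}
  zero_mem' := by simp
  add_mem' := by
    rintro ⟨x, y⟩ ⟨x', y'⟩ h h'
    simp only [Set.mem_ofPred_eq, Prod.mk_add_mk, Pi.add_apply, Finsupp.add_apply] at h h' ⊢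
    nlinarith

theorem mem_M {p m : ℕ} (x : Ex m) : x ∈ M p m ↔ p * x.2 0 ≤ x.1 0 + x.1 1 := Iff.rfl

/-- The degree. -/
def dg (p m : ℕ) : M p m →+ ℕ where
  toFun x := x.1.1 0 + x.1.1 1 - p * x.1.2 0
  map_zero' := by simp
  map_add' := by
    rintro ⟨⟨x, y⟩, h⟩ ⟨⟨x', y'⟩, h'⟩
    rw [mem_M] at h h'
    simp only [AddMemClass.mk_add_mk, Prod.mk_add_mk, Pi.add_apply, Finsupp.add_apply, mul_add] at *
    omega

theorem dg_apply {p m : ℕ} (x : M p m) : dg p m x = x.1.1 0 + x.1.1 1 - p * x.1.2 0 := rfl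

theorem dg_spec {p m : ℕ} (x : M p m) : dg p m x + p * x.1.2 0 = x.1.1 0 + x.1.1 1 := by
  have := (mem_M x.1).1 x.2
  rw [dg_apply]; omega

theorem sum_c (x : Fin 2 → ℕ) (c : Fin 2) : x 0 + x 1 = x c + x (c + 1) := by
  fin_cases c
  · simp
  · simp [add_comm]

variable (k : Type*) [Field k] (p m : ℕ)

/-- The ring. -/
abbrev S : Type _ := AddMonoidAlgebra k (M p m)

/-- The grading. -/
noncomputable abbrev G : ℕ → Submodule k (S k p m) := gradeBy k (dg p m)

/-- exponent of `s_c` -/
noncomputable def es (c : Fin 2) : M p m := ⟨(Pi.single c 1, 0), by rw [mem_M]; simp⟩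

/-- The variable `s_c`. -/
noncomputable def sv (c : Fin 2) : S k p m := single (es p m c) 1

theorem dg_es (c : Fin 2) : dg p m (es p m c) = 1 := by
  rw [dg_apply, es]
  fin_cases c <;> simp

theorem sv_mem (c : Fin 2) : sv k p m c ∈ G k p m 1 := by
  have h := single_mem_gradeBy (R := k) (dg p m) (es p m c) 1
  rwa [dg_es p m c] at h

/-- exponent in the chart `c` -/
noncomputable def ex (c : Fin 2) : M p m →+ (Fin (m + 2) →₀ ℕ) where
  toFun x := Finsupp.cons (x.1.1 (c + 1)) x.1.2
  map_zero' := by simp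
  map_add' x y := by
    ext i
    refine Fin.cases ?_ (fun j => ?_) i <;> simp [Finsupp.cons_zero, Finsupp.cons_succ]

theorem ex_apply {p m : ℕ} (c : Fin 2) (x : M p m) :
    ex p m c x = Finsupp.cons (x.1.1 (c + 1)) x.1.2 := rfl

/-- The chart map `s_c ↦ 1`. -/
noncomputable def chi (c : Fin 2) : S k p m →ₐ[k] MvPolynomial (Fin (m + 2)) k :=
  AddMonoidAlgebra.mapDomainAlgHom k k (ex p m c)

theorem chi_single (c : Fin 2) (x : M p m) (r : k) :
    chi k p m c (single x r) = MvPolynomial.monomial (ex p m c x) r := by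
  rw [chi, AddMonoidAlgebra.mapDomainAlgHom_apply, mapDomain_single]
  rfl

theorem chi_sv (c : Fin 2) : chi k p m c (sv k p m c) = 1 := by
  rw [sv, chi_single, ex_apply, es]
  have : (Pi.single c 1 : Fin 2 → ℕ) (c + 1) = 0 := by
    fin_cases c <;> simp
  simp [this]

/-- in a fixed degree the exponent in the chart determines the monomial -/
theorem ex_inj {c : Fin 2} {x y : M p m} (h : ex p m c x = ex p m c y)
    (hd : dg p m x = dg p m y) : x = y := by
  have h1 := Finsupp.cons_injective2 h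
  have hx := dg_spec x
  have hy := dg_spec y
  rw [sum_c _ c] at hx hy
  apply Subtype.ext
  apply Prod.ext
  · funext i
    have hi : i = c ∨ i = c + 1 := by
      fin_cases c <;> fin_cases i <;> simp
    rcases hi with rfl | rfl
    · have := h1.1
      rw [h1.2] at hx
      omega
    · exact h1.1
  · exact h1.2

theorem chi_injOn {c : Fin 2} {n : ℕ} {f : S k p m} (hf : f ∈ G k p m n)
    (h : chi k p m c f = 0) : f = 0 := by
  rw [chi, AddMonoidAlgebra.mapDomainAlgHom_apply] at h
  have h2 : Finsupp.mapDomain (ex p m c) f.coeff = Finsupp.mapDomain (ex p m c) 0 := by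
    rw [Finsupp.mapDomain_zero]
    exact congrArg AddMonoidAlgebra.coeff h
  have h3 := Finsupp.mapDomain_injOn {x : M p m | dg p m x = n}
    (fun x hx y hy hxy => ex_inj p m hxy (hx.trans hy.symm)) (fun x hx => hf x hx)
    (by simp) h2
  exact AddMonoidAlgebra.coeff_injective h3

/-- exponents of a lift to degree `l` of a chart monomial `a^l b^e z^d` -/
noncomputable def lft (c : Fin 2) (y : Fin (m + 2) →₀ ℕ) : M p m :=
  ⟨(Function.update (fun _ => y 0) c (p * y 1), Finsupp.tail y), by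
    rw [mem_M]
    simp only [Finsupp.tail_apply]
    rw [sum_c _ c]
    have : c + 1 ≠ c := by fin_cases c <;> simp
    simp⟩

theorem ex_lft (c : Fin 2) (y : Fin (m + 2) →₀ ℕ) : ex p m c (lft p m c y) = y := by
  rw [ex_apply, lft]
  have : c + 1 ≠ c := by fin_cases c <;> simp
  simp [this]

theorem dg_lft (c : Fin 2) (y : Fin (m + 2) →₀ ℕ) : dg p m (lft p m c y) = y 0 := by
  have := dg_spec (lft p m c y)
  rw [sum_c _ c] at this
  have h : c + 1 ≠ c := by fin_cases c <;> simp
  have h1 : (lft p m c y).1.1 c = p * y 1 := by simp [lft]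
  have h2 : (lft p m c y).1.1 (c + 1) = y 0 := by simp [lft, h]
  have h3 : (lft p m c y).1.2 0 = y 1 := by simp [lft, Finsupp.tail_apply]
  rw [h1, h2, h3] at this
  omega

end FRCone
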