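import Pool.Agent.Lib.FR.Cone20

set_option autoImplicit false

namespace FRCone

open AddMonoidAlgebra HomogeneousLocalization

variable (k : Type*) [Field k] (p m : ℕ)

/-- The lift of the chart map to the localization. -/
noncomputable def Lc (c : Fin 2) :
    Localization.Away (sv k p m c) →+* MvPolynomial (Fin (m + 2)) k :=
  IsLocalization.Away.lift (sv k p m c) (g := (chi k p m c).toRingHom)
    (by simp [chi_sv])

theorem Lc_algebraMap (c : Fin 2) (f : S k p m) :
    Lc k p m c (algebraMap _ _ f) = chi k p m c f := by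
  rw [Lc, IsLocalization.Away.lift_eq]
  rfl

theorem Lc_mk (c : Fin 2) (f : S k p m) (n : ℕ) :
    Lc k p m c (Localization.mk f (⟨sv k p m c ^ n, n, rfl⟩ : Submonoid.powers (sv k p m c))) = chi k p m c f := by
  have h : Localization.mk f (⟨sv k p m c ^ n, n, rfl⟩ : Submonoid.powers (sv k p m c)) * algebraMap _ _ (sv k p m c ^ n) =
      algebraMap (S k p m) (Localization.Away (sv k p m c)) f := by
    rw [Localization.mk_eq_mk']
    exact IsLocalization.mk'_spec _ _ _
  have h2 := congrArg (Lc k p m c) h
  rw [map_mul, Lc_algebraMap, Lc_algebraMap, map_pow, chi_sv, one_pow, mul_one] at h2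
  exact h2

/-- The chart ring maps to the polynomial ring. -/
noncomputable def Phi (c : Fin 2) :
    Away (G k p m) (sv k p m c) →+* MvPolynomial (Fin (m + 2)) k :=
  (Lc k p m c).comp (algebraMap (Away (G k p m) (sv k p m c)) (Localization.Away (sv k p m c)))

theorem Phi_mk (c : Fin 2) (n : ℕ) (f : S k p m) (hf : f ∈ G k p m (n • 1)) :
    Phi k p m c (Away.mk (G k p m) (sv_mem k p m c) n f hf) = chi k p m c f := by
  rw [Phi, RingHom.comp_apply, HomogeneousLocalization.algebraMap_apply, Away.val_mk, Lc_mk]

theorem Phi_zero (c : Fin 2) (f : G k p m 0) :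
    Phi k p m c (fromZeroRingHom (G k p m) _ f) = chi k p m c f.1 := by
  have : (fromZeroRingHom (G k p m) (Submonoid.powers (sv k p m c)) f).val =
      algebraMap _ _ f.1 := rfl
  rw [Phi, RingHom.comp_apply, HomogeneousLocalization.algebraMap_apply, this, Lc_algebraMap]

theorem Phi_injective (c : Fin 2) : Function.Injective (Phi k p m c) := by
  rw [injective_iff_map_eq_zero]
  intro x hx
  obtain ⟨n, f, hf, rfl⟩ := Away.mk_surjective (G k p m) (sv_mem k p m c) x
  rw [Phi_mk] at hx
  have h0 := chi_injOn k p m hf hx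
  subst h0
  apply HomogeneousLocalization.val_injective
  rw [Away.val_mk, Localization.mk_zero, val_zero]

theorem Phi_surjective (c : Fin 2) : Function.Surjective (Phi k p m c) := by
  intro q
  induction q using MvPolynomial.induction_on' with
  | monomial y r =>
    have hm : (single (lft p m c y) r : S k p m) ∈ G k p m (y 0 • 1) := by
      have h := single_mem_gradeBy (R := k) (dg p m) (lft p m c y) r
      rw [dg_lft] at h
      rwa [smul_eq_mul, mul_one]
    refine ⟨Away.mk (G k p m) (sv_mem k p m c) (y 0) _ hm, ?_⟩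
    rw [Phi_mk, chi_single, ex_lft]
  | add q r hq hr =>
    obtain ⟨x, hx⟩ := hq
    obtain ⟨y, hy⟩ := hr
    exact ⟨x + y, by rw [map_add, hx, hy]⟩

/-- The chart isomorphism. -/
noncomputable def PhiE (c : Fin 2) :
    Away (G k p m) (sv k p m c) ≃+* MvPolynomial (Fin (m + 2)) k :=
  RingEquiv.ofBijective (Phi k p m c) ⟨Phi_injective k p m c, Phi_surjective k p m c⟩

end FRCone
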