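import Pool.Agent.Lib.FR.Defs

set_option autoImplicit false

/-!
Room FORMS (MP_0afa72_ag), module M11: what a log resolution of `(Spec R, 0)` is, and the
statement about the cone with an explicit log resolution.
-/

namespace Pool.Agent.Lib.FR

open AlgebraicGeometry CategoryTheory

universe u

/-- The exceptional locus of a morphism: the points at which it is not a local isomorphism. -/
def excLocus {Y X : Scheme.{u}} (π : Y ⟶ X) : Set Y :=
  {y | ¬ ∃ U : Y.Opens, y ∈ U ∧ IsOpenImmersion (U.ι ≫ π)}

/-- The prime ideal of the local ring `O_(Y,y)` which defines the closure of the point `η`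
(`y` is a specialisation of `η`). -/
noncomputable def primeAt {Y : Scheme.{u}} {η y : Y} (h : η ⤳ y) : Ideal (Y.presheaf.stalk y) :=
  Ideal.comap (Y.presheaf.stalkSpecializes h).hom
    (IsLocalRing.maximalIdeal (Y.presheaf.stalk η))

/-- The ideals `I i` of the local ring `A` are generated by single elements `t i`, which are part of
a regular system of parameters: their classes in `𝔪 / 𝔪 ^ 2` are linearly independent. -/
def NormalCrossing (A : Type u) [CommRing A] [IsLocalRing A] {ι : Type} (I : ι → Ideal A) : Prop :=
  ∃ t : ι → IsLocalRing.maximalIdeal A,
    (∀ i, Ideal.span {(t i : A)} = I i) ∧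
    LinearIndependent (IsLocalRing.ResidueField A)
      (fun i => ((IsLocalRing.maximalIdeal A).toCotangent (t i) : IsLocalRing.CotangentSpace A))

/-- `Z` is (the support of) a simple normal crossing divisor of the regular scheme `Y`: it is a
finite union of irreducible closed subsets `closure {η i}`, and at every point `y` of `Y` those
which pass through `y` are defined by single elements `t i` of the local ring, which are part of a
regular system of parameters (their classes in `𝔪_y / 𝔪_y ^ 2` are linearly independent). -/
def IsSNC {Y : Scheme.{u}} (Z : Set Y) : Prop :=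
  ∃ (r : ℕ) (η : Fin r → Y), Z = ⋃ i, closure {η i} ∧
    ∀ y : Y, NormalCrossing (Y.presheaf.stalk y) (fun i : {i : Fin r // η i ⤳ y} => primeAt i.2)

/-- `π : Y → Spec R` is a log resolution of `(Spec R, 0)` over `k`: it is proper, birational, `Y`
is smooth over `k`, and the exceptional locus is a simple normal crossing divisor. -/
structure IsLogResolution (k : Type u) [Field k] (R : Type u) [CommRing R] [IsDomain R]
    [Algebra k R] (Y : Scheme.{u}) [IsIntegral Y] (π : Y ⟶ Spec (CommRingCat.of R)) : Prop where
  proper : IsProper π
  smooth : Smooth (π ≫ Spec.map (CommRingCat.ofHom (algebraMap k R)))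
  birational : ∃ e : FractionRing R ≃+* Y.functionField,
    ∀ r : R, e (algebraMap R (FractionRing R) r) = toFunctionField π r
  snc : IsSNC (excLocus π)

/-- `(Spec R, 0)` has a log resolution over `k`. -/
def HasLogResolution (k : Type u) [Field k] (R : Type u) [CommRing R] [IsDomain R]
    [Algebra k R] : Prop :=
  ∃ (Y : Scheme.{u}) (_ : IsIntegral Y) (π : Y ⟶ Spec (CommRingCat.of R)),
    IsLogResolution k R Y π

/-- There is an `m`-form `σ` on the smooth locus of `X = Spec R` whose pullback is regular on no
proper birational `Y → X`. -/
def HasNonLiftingForm (k : Type u) [Field k] (R : Type u) [CommRing R] [IsDomain R]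
    [Algebra k R] (m : ℕ) : Prop :=
  ∃ σ : Forms k (FractionRing R) m,
    RegularOnSmoothLocus k R m σ ∧ LiftsToNoModification k R m σ

/-- `R` is a normal domain of finite type over `k`, of dimension `m + 1`, strongly and globally
F-regular, `Spec R` has a log resolution, and there is an `m`-form on its smooth locus whose
pullback is regular on no proper birational `Y → Spec R`. -/
def IsConeExample (p m : ℕ) (k : Type u) [Field k] (R : Type u) [CommRing R] [IsDomain R]
    [Algebra k R] : Prop :=
  IsIntegrallyClosed R ∧
    Algebra.FiniteType k R ∧
    ringKrullDim R = (m + 1 : ℕ) ∧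
    StronglyFRegular p R ∧
    GloballyFRegular p R ∧
    HasLogResolution k R ∧
    HasNonLiftingForm k R m

/-- STATEMENT ABOUT CONES: in every dimension `m + 1 ≥ 2` there are a strongly F-regular normal
affine variety `X = Spec R` which has a log resolution, and an `m`-form `σ` on the smooth locus of
`X` whose pullback is regular on no proper birational `Y → X`, in particular on no log
resolution. -/
def ConeStatement (p m : ℕ) (k : Type u) [Field k] : Prop :=
  ∃ (R : Type u) (_ : CommRing R) (_ : IsDomain R) (_ : Algebra k R), IsConeExample p m k R

end Pool.Agent.Lib.FR
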