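import Pool.Agent.Lib.FR.Cone20b
import Pool.Agent.Lib.FR.ResDefs

set_option autoImplicit false

namespace FRCone

open AddMonoidAlgebra HomogeneousLocalization AlgebraicGeometry CategoryTheory

section

variable (k : Type*) [Field k] (p m : ℕ)

instance : IsDomain (S k p m) := by
  have h0 : IsDomain (AddMonoidAlgebra k (Ex m)) := inferInstance
  exact Function.Injective.isDomain (AddMonoidAlgebra.mapDomainRingHom k (M p m).subtype)
    (AddMonoidAlgebra.mapDomain_injective Subtype.val_injective)

theorem mem_span_sv {i : ℕ} (hi : 0 < i) {g : S k p m} (hg : g ∈ G k p m i) :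
    g ∈ Ideal.span (Set.range (sv k p m)) := by
  classical
  rw [← AddMonoidAlgebra.sum_coeff_single g]
  refine Ideal.sum_mem _ fun x hx => ?_
  have hd : dg p m x = i := hg x hx
  have hs := dg_spec x
  obtain ⟨c, hc⟩ : ∃ c : Fin 2, 0 < x.1.1 c := by
    by_contra hcon
    push Not at hcon
    have h0 := hcon 0
    have h1 := hcon 1
    omega
  have hle : x.1.1 0 + x.1.1 1 = x.1.1 c + x.1.1 (c + 1) := sum_c _ c
  have hc1 : c + 1 ≠ c := by fin_cases c <;> simp
  have hmem : (Function.update x.1.1 c (x.1.1 c - 1), x.1.2) ∈ M p m := by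
    rw [mem_M, sum_c _ c]
    simp only [Function.update_self, Function.update_of_ne hc1]
    omega
  have hx2 : x = es p m c + ⟨_, hmem⟩ := by
    apply Subtype.ext
    apply Prod.ext
    · funext j
      by_cases hj : j = c
      · subst hj
        simp [es]
        omega
      · simp [es, hj]
    · simp [es]
  have h3 : (single x (g.coeff x) : S k p m) = sv k p m c * single ⟨_, hmem⟩ (g.coeff x) := by
    rw [sv, single_mul_single, one_mul, ← hx2]
  rw [h3]
  exact Ideal.mul_mem_right _ _ (Ideal.subset_span ⟨c, rfl⟩)

theorem irr_le : (HomogeneousIdeal.irrelevant (G k p m)).toIdeal ≤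
    Ideal.span (Set.range (sv k p m)) := by
  classical
  intro z hz
  rw [← DirectSum.sum_support_decompose (G k p m) z]
  refine Ideal.sum_mem _ fun c hc => ?_
  by_cases hc0 : c = 0
  · subst hc0
    have : (DirectSum.decompose (G k p m) z 0 : S k p m) = 0 := hz
    rw [this]
    exact Ideal.zero_mem _
  · exact mem_span_sv k p m (Nat.pos_of_ne_zero hc0) (SetLike.coe_mem _)

end

section

universe u

variable (k : Type u) [Field k] (p m : ℕ)

/-- The scheme `Y`. -/
noncomputable abbrev Y : Scheme.{u} := Proj (G k p m)

/-- The coordinate ring of a chart. -/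
abbrev C (k : Type u) [Field k] (m : ℕ) : Type u := MvPolynomial (Fin (m + 2)) k

/-- The chart `c`. -/
noncomputable def jj (c : Fin 2) : Spec (CommRingCat.of (C k m)) ⟶ Y k p m :=
  Spec.map (CommRingCat.ofHom (Phi k p m c)) ≫
    Proj.awayι (G k p m) (sv k p m c) (sv_mem k p m c) Nat.zero_lt_one

instance (c : Fin 2) : IsIso (CommRingCat.ofHom (Phi k p m c)) := by
  have : CommRingCat.ofHom (Phi k p m c) = (PhiE k p m c).toCommRingCatIso.hom := rfl
  rw [this]
  infer_instance

instance (c : Fin 2) : IsOpenImmersion (jj k p m c) := by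
  unfold jj
  infer_instance

theorem opensRange_jj (c : Fin 2) :
    (jj k p m c).opensRange = Proj.basicOpen (G k p m) (sv k p m c) := by
  unfold jj
  exact (Scheme.Hom.opensRange_comp_of_isIso _ _).trans
    (Proj.opensRange_awayι (G k p m) (sv k p m c) (sv_mem k p m c) Nat.zero_lt_one)

theorem jj_cover (y : Y k p m) : ∃ c, y ∈ (jj k p m c).opensRange := by
  have h := Proj.iSup_basicOpen_eq_top (G k p m) (sv k p m) (irr_le k p m)
  have hy : y ∈ ⨆ i, Proj.basicOpen (G k p m) (sv k p m i) := by rw [h]; trivial
  obtain ⟨c, hc⟩ := TopologicalSpace.Opens.mem_iSup.1 hy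
  exact ⟨c, by rw [opensRange_jj]; exact hc⟩

/-- The ring map `G 0 → C` of the chart `c`. -/
noncomputable def rho (c : Fin 2) : (G k p m 0) →+* C k m :=
  (Phi k p m c).comp (fromZeroRingHom (G k p m) _)

theorem rho_apply (c : Fin 2) (f : G k p m 0) : rho k p m c f = chi k p m c f.1 :=
  Phi_zero k p m c f

theorem jj_toSpecZero (c : Fin 2) :
    jj k p m c ≫ Proj.toSpecZero (G k p m) = Spec.map (CommRingCat.ofHom (rho k p m c)) := by
  unfold jj
  rw [Category.assoc, Proj.awayι_toSpecZero, ← Spec.map_comp]
  rfl

end

section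

universe u

variable (k : Type u) [Field k] (p m : ℕ)

/-- The cover of `Y` by the two charts. -/
noncomputable def cov : (Y k p m).AffineOpenCover where
  I₀ := Fin 2
  X _ := CommRingCat.of (C k m)
  f c := jj k p m c
  idx y := (jj_cover k p m y).choose
  covers y := (jj_cover k p m y).choose_spec

instance : IsReduced (Y k p m) := by
  have : ∀ i, IsReduced ((cov k p m).openCover.X i) := fun i => by
    change IsReduced (Spec (CommRingCat.of (C k m)))
    infer_instance
  exact IsReduced.of_openCover _ (cov k p m).openCover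

/-- The generic point. -/
noncomputable def xi : ProjectiveSpectrum (G k p m) where
  asHomogeneousIdeal := ⊥
  isPrime := by
    change (⊥ : Ideal (S k p m)).IsPrime
    exact Ideal.isPrime_bot
  not_irrelevant_le h := by
    have h1 : sv k p m 0 ∈ (HomogeneousIdeal.irrelevant (G k p m)) := by
      rw [HomogeneousIdeal.mem_irrelevant_iff]
      exact DirectSum.decompose_of_mem_ne (G k p m) (sv_mem k p m 0) (by simp)
    have h2 := h h1
    have h3 : sv k p m 0 = 0 := h2
    have h4 := chi_sv k p m 0
    rw [h3, map_zero] at h4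
    exact zero_ne_one h4

instance : IrreducibleSpace (Y k p m) := by
  have h : IrreducibleSpace (ProjectiveSpectrum (G k p m)) := by
    rw [irreducibleSpace_def]
    have : (Set.univ : Set (ProjectiveSpectrum (G k p m))) = closure {xi k p m} := by
      symm
      rw [Set.eq_univ_iff_forall]
      intro x
      rw [← ProjectiveSpectrum.le_iff_mem_closure]
      change (⊥ : HomogeneousIdeal (G k p m)) ≤ x.asHomogeneousIdeal
      exact bot_le
    change IsIrreducible Set.univ
    rw [this]
    exact isIrreducible_singleton.closure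
  exact h

instance : IsIntegral (Y k p m) :=
  isIntegral_of_irreducibleSpace_of_isReduced _

end

end FRCone
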