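import Pool.Agent.Lib.FR.Cone20c

set_option autoImplicit false

namespace FRCone

open AddMonoidAlgebra HomogeneousLocalization AlgebraicGeometry CategoryTheory

universe u

variable (k : Type u) [Field k] (p m : ℕ)

/-- The structure morphism. -/
noncomputable def piY : Y k p m ⟶ Spec (CommRingCat.of (G k p m 0)) := Proj.toSpecZero (G k p m)

theorem jj_piY (c : Fin 2) :
    jj k p m c ≫ piY k p m = Spec.map (CommRingCat.ofHom (rho k p m c)) :=
  jj_toSpecZero k p m c

theorem rho_algebraMap (c : Fin 2) (r : k) :
    rho k p m c (algebraMap k (G k p m 0) r) = MvPolynomial.C r := by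
  rw [rho_apply]
  exact (chi k p m c).commutes r

theorem jj_smooth (c : Fin 2) : Smooth (jj k p m c ≫ piY k p m ≫
    Spec.map (CommRingCat.ofHom (algebraMap k (G k p m 0)))) := by
  rw [← Category.assoc, jj_piY, ← Spec.map_comp, HasRingHomProperty.Spec_iff (P := @Smooth)]
  have h : (CommRingCat.ofHom (algebraMap k (G k p m 0)) ≫ CommRingCat.ofHom (rho k p m c)).hom =
      algebraMap k (C k m) := by
    ext r
    exact congrArg _ (rho_algebraMap k p m c r)
  rw [h, RingHom.smooth_algebraMap]
  change Algebra.Smooth k (MvPolynomial (Fin (m + 2)) k)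
  exact ⟨inferInstance, inferInstance⟩

set_option backward.isDefEq.respectTransparency false in
theorem smooth_Y : Smooth (piY k p m ≫ Spec.map (CommRingCat.ofHom (algebraMap k (G k p m 0)))) := by
  exact IsZariskiLocalAtSource.of_openCover (P := @Smooth) (cov k p m).openCover
    (fun c => jj_smooth k p m c)

end FRCone
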