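import Pool.Agent.Lib.FR.Statement

set_option autoImplicit false

/-!
Definitions used in the statement of the hand-in on log resolutions (MP_0afa72_ag), all short.
-/

namespace Pool.Agent.Lib.FR.St

open AlgebraicGeometry CategoryTheory

universe u

/-- The exceptional locus of a morphism: the points at which it is not a local isomorphism. -/
def excLocus {Y X : Scheme.{u}} (π : Y ⟶ X) : Set Y :=
  {y | ¬ ∃ U : Y.Opens, y ∈ U ∧ IsOpenImmersion (U.ι ≫ π)}

/-- The prime ideal of the local ring `O_(Y,y)` which defines the closure of the point `η`
(`y` is a specialisation of `η`). -/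
noncomputable def primeAt {Y : Scheme.{u}} {η y : Y} (h : η ⤳ y) : Ideal (Y.presheaf.stalk y) :=
  Ideal.comap (Y.presheaf.stalkSpecializes h).hom
    (IsLocalRing.maximalIdeal (Y.presheaf.stalk η))

/-- The elements `t i` of the maximal ideal `𝔪` of the local ring `A` are linearly independent
modulo `𝔪 ^ 2` (for `A` regular: they are part of a regular system of parameters). -/
def IndependentModSq (A : Type u) [CommRing A] [IsLocalRing A] {ι : Type}
    (t : ι → IsLocalRing.maximalIdeal A) : Prop :=
  LinearIndependent (IsLocalRing.ResidueField A)
    (fun i => ((IsLocalRing.maximalIdeal A).toCotangent (t i) : IsLocalRing.CotangentSpace A))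

/-- The ideals `I i` of the local ring `A` are generated by single elements `t i` of the maximal
ideal `𝔪`, which are linearly independent modulo `𝔪 ^ 2`. -/
def NormalCrossing (A : Type u) [CommRing A] [IsLocalRing A] {ι : Type} (I : ι → Ideal A) : Prop :=
  ∃ t : ι → IsLocalRing.maximalIdeal A,
    (∀ i, Ideal.span {(t i : A)} = I i) ∧ IndependentModSq A t

/-- `Z` is (the support of) a simple normal crossing divisor of the regular scheme `Y`: it is a
finite union of irreducible closed subsets `closure {η i}`, and at every point `y` of `Y` those
which pass through `y` are defined by single elements `t i` of the local ring, which are part of a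
regular system of parameters. -/
def IsSNC {Y : Scheme.{u}} (Z : Set Y) : Prop :=
  ∃ (r : ℕ) (η : Fin r → Y), Z = ⋃ i, closure {η i} ∧
    ∀ y : Y, NormalCrossing (Y.presheaf.stalk y) (fun i : {i : Fin r // η i ⤳ y} => primeAt i.2)

/-- The structure morphism `Spec R → Spec k` of a `k`-algebra `R`. -/
noncomputable def structureMap (k R : Type u) [CommRing k] [CommRing R] [Algebra k R] :
    Spec (CommRingCat.of R) ⟶ Spec (CommRingCat.of k) :=
  Spec.map (CommRingCat.ofHom (algebraMap k R))

/-- `π : Y → Spec R` is a log resolution of `(Spec R, 0)` over `k`: it is proper, birational, `Y`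
is smooth over `k`, and the exceptional locus is a simple normal crossing divisor. -/
structure IsLogResolution (k : Type u) (R : Type u) [CommRing k] [CommRing R] [IsDomain R]
    [Algebra k R] {Y : Scheme.{u}} [IsIntegral Y] (π : Y ⟶ Spec (CommRingCat.of R)) : Prop where
  proper : IsProper π
  smooth : Smooth (π ≫ structureMap k R)
  birational : ∃ e : FractionRing R ≃+* Y.functionField, IsCompatible π e
  snc : IsSNC (excLocus π)

/-- `(Spec R, 0)` has a log resolution over `k`. -/
def HasLogResolution (k : Type u) (R : Type u) [CommRing k] [CommRing R] [IsDomain R]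
    [Algebra k R] : Prop :=
  ∃ (Y : Scheme.{u}) (_ : IsIntegral Y) (π : Y ⟶ Spec (CommRingCat.of R)),
    IsLogResolution k R π

end Pool.Agent.Lib.FR.St
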