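import Pool.Agent.Lib.FR.ConeFinal47
import Pool.Agent.Lib.FR.StatementLR

set_option autoImplicit false

namespace Pool.Agent.Lib.FR

open AlgebraicGeometry CategoryTheory

universe u

theorem st_cone (p m : ℕ) [Fact p.Prime] (hm : 1 ≤ m) (k : Type u) [Field k] [IsAlgClosed k]
    [CharP k p] :
    ∃ (R : Type u) (_ : CommRing R) (_ : IsDomain R) (_ : Algebra k R),
      St.IsNormalVariety k R (m + 1) ∧
      St.HasLogResolution k R ∧
      St.IsCounterexample p k R m := by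
  obtain ⟨m, rfl⟩ : ∃ m', m = m' + 1 := ⟨m - 1, by omega⟩
  obtain ⟨R, i1, i2, i3, h1, h2, h3, h4, h5, ⟨Y, hY, π, hπ⟩, σ, h6, h7⟩ :=
    FRCone.coneStatement p m k
  refine ⟨R, i1, i2, i3, ⟨h1, h2, h3⟩, ⟨Y, hY, π, ?_⟩, h4, h5, σ, h6, ?_⟩
  · exact ⟨hπ.proper, hπ.smooth, hπ.birational, hπ.snc⟩
  · intro Y hY π hπ e he hreg
    obtain ⟨y, hy⟩ := @h7 Y hY π hπ e he
    exact hy (hreg y)

end Pool.Agent.Lib.FR
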