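import Mathlib

set_option autoImplicit false

/-!
Room FORMS (MP_0afa72_ag): definitions.

`R = k[X_0, ..., X_m, y] / (y ^ p - f)`, `f = X_0 ... X_m + X_0 ^ a + ... + X_m ^ a`,
`a = p (m + 1) + 1`; the dimension is `n = m + 1`, the forms are `m`-forms.
-/

namespace Pool.Agent.Lib.FR

open AlgebraicGeometry CategoryTheory

universe u v w

/-- `R` is strongly F-regular (for a domain `R` of characteristic `p`): for every `c ≠ 0` there are
`e > 0` and an `R`-linear map `F^e_* R → R` (an additive `φ : R → R` with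
`φ (a ^ (p ^ e) * b) = a * φ b`) which sends `c` to `1`. -/
def StronglyFRegular (p : ℕ) (R : Type u) [CommRing R] : Prop :=
  ∀ c : R, c ≠ 0 → ∃ e : ℕ, 0 < e ∧ ∃ φ : R →+ R,
    (∀ a b : R, φ (a ^ p ^ e * b) = a * φ b) ∧ φ c = 1

/-- For an `R`-submodule `I` of `M` and `x ∈ I` the map `R → F^e_* I`, `r ↦ r ^ (p ^ e) • x`, splits
for some `e > 0`: there is an additive `θ : I → R` with `θ (r ^ (p ^ e) • z) = r * θ z`, `θ x = 1`. -/
def FrobeniusSplitsAt (p : ℕ) {R : Type u} [CommRing R] {M : Type u} [AddCommGroup M] [Module R M]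
    (I : Submodule R M) (x : I) : Prop :=
  ∃ e : ℕ, 0 < e ∧ ∃ θ : I →+ R, (∀ (r : R) (z : I), θ (r ^ p ^ e • z) = r * θ z) ∧ θ x = 1

/-- Every finitely generated `R`-submodule of `K` which contains `1` splits at `1`. -/
def AllFrobeniusSplit (p : ℕ) (R : Type u) (K : Type u) [CommRing R] [Field K] [Algebra R K] :
    Prop :=
  ∀ (I : Submodule R K) (h1 : (1 : K) ∈ I), I.FG → FrobeniusSplitsAt p I ⟨1, h1⟩

/-- `X = Spec R` (`R` a normal domain of characteristic `p`) is globally F-regular (boundary `0`):
for every effective Weil divisor `D` there is `e > 0` such that `O_X → F^e_* O_X(D)` splits. The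
module `I` plays the role of `H^0(X, O_X(D))`, a finitely generated `R`-submodule of the function
field which contains `1`; a splitting is an additive `θ : I → R` with
`θ (r ^ (p ^ e) • x) = r * θ x` and `θ 1 = 1`. -/
def GloballyFRegular (p : ℕ) (R : Type u) [CommRing R] [IsDomain R] : Prop :=
  AllFrobeniusSplit p R (FractionRing R)

/-- The exterior power `Λ^m M`. -/
abbrev ExtPow (K : Type v) [Field K] (M : Type u) [AddCommGroup M] [Module K M] (m : ℕ) :
    Type (max v u) := ⋀[K]^m M

/-- `σ ∈ Λ^m M` is a sum of elements `φ a • (δ s_1 ∧ ... ∧ δ s_m)`, `a, s_1, ..., s_m ∈ A`. -/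
def SumOfForms {K : Type v} [Field K] {M : Type u} [AddCommGroup M] [Module K M] {A : Type w}
    (φ : A → K) (δ : A → M) (m : ℕ) (σ : ExtPow K M m) : Prop :=
  σ ∈ AddSubgroup.closure
    {ω : ExtPow K M m | ∃ (a : A) (s : Fin m → A),
      ω = φ a • exteriorPower.ιMulti K m (fun i => δ (s i))}

/-- The `K`-vector space of rational differential `m`-forms of the field `K` over `k`. -/
abbrev Forms (k : Type u) (K : Type v) [Field k] [Field K] [Algebra k K] (m : ℕ) :
    Type v := ExtPow K Ω[K⁄k] m

/-- The rational differential `m`-form `σ` of the field `K` over `k` is regular over the ring `A`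
(with structure map `φ : A → K`): it is a sum of forms `a ds_1 ∧ ... ∧ ds_m` with `a, s_i` in the
image of `A`, that is, it lies in the image of `Λ^m Ω_{A/k} → Λ^m Ω_{K/k}`. -/
def RegularOver {k : Type u} {K : Type v} {A : Type w} [Field k] [Field K] [Algebra k K]
    [CommRing A] {m : ℕ} (φ : A →+* K) (σ : Forms k K m) : Prop :=
  SumOfForms (fun a => φ a) (fun s => KaehlerDifferential.D k K (φ s)) m σ

/-- The ring map `R → K(Y)` given by a morphism `π : Y → Spec R`, `Y` integral. -/
noncomputable def toFunctionField {R : Type u} [CommRing R] {Y : Scheme.{u}} [IsIntegral Y]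
    (π : Y ⟶ Spec (CommRingCat.of R)) : R →+* Y.functionField :=
  ((Scheme.ΓSpecIso (CommRingCat.of R)).inv ≫ π.appTop ≫
    Y.presheaf.germ ⊤ (genericPoint Y) trivial).hom

/-- The polynomial `f = X_0 ... X_m + X_0 ^ a + ... + X_m ^ a`, `a = p (m + 1) + 1`. -/
noncomputable def fpol (p m : ℕ) (k : Type u) [CommRing k] : MvPolynomial (Fin (m + 1)) k :=
  ∏ i, MvPolynomial.X i + ∑ i, MvPolynomial.X i ^ (p * (m + 1) + 1)

/-- The polynomial `y ^ p - f` over `k[X_0, ..., X_m]`. -/
noncomputable def hpol (p m : ℕ) (k : Type u) [CommRing k] :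
    Polynomial (MvPolynomial (Fin (m + 1)) k) :=
  Polynomial.X ^ p - Polynomial.C (fpol p m k)

/-- The coordinate ring `R = k[X_0, ..., X_m, y] / (y ^ p - f)`. -/
abbrev HS (p m : ℕ) (k : Type u) [CommRing k] : Type u := AdjoinRoot (hpol p m k)

/-- the class of `X_i` in `R`. -/
noncomputable def xx (p m : ℕ) (k : Type u) [CommRing k] (i : Fin (m + 1)) : HS p m k :=
  AdjoinRoot.of (hpol p m k) (MvPolynomial.X i)

/-- the class of `y` in `R`. -/
noncomputable def yy (p m : ℕ) (k : Type u) [CommRing k] : HS p m k :=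
  AdjoinRoot.root (hpol p m k)

/-- the class of `∂f/∂X_i = ∏_(j ≠ i) X_j + X_i ^ (p (m + 1))` in `R` (in characteristic `p`). -/
noncomputable def ff (p m : ℕ) (k : Type u) [CommRing k] (i : Fin (m + 1)) : HS p m k :=
  ∏ j ∈ Finset.univ.erase i, xx p m k j + xx p m k i ^ (p * (m + 1))

/-- the form `σ = dX_0 ∧ ... ∧ dX_(m-1) / (∂f/∂X_m)` on the fraction field of `R`. -/
noncomputable def sigma (p m : ℕ) (k : Type u) [Field k] [IsDomain (HS p m k)] :
    ⋀[FractionRing (HS p m k)]^m Ω[FractionRing (HS p m k)⁄k] :=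
  (algebraMap (HS p m k) (FractionRing (HS p m k)) (ff p m k (Fin.last m)))⁻¹ •
    exteriorPower.ιMulti (FractionRing (HS p m k)) m
      (fun i : Fin m => KaehlerDifferential.D k (FractionRing (HS p m k))
        (algebraMap (HS p m k) (FractionRing (HS p m k)) (xx p m k i.castSucc)))

/-- The map from the stalk `O_(Y, y)` to the field `F`, for an identification `e` of `F` with the
function field of `Y`. -/
noncomputable def stalkMap {F : Type u} [Field F] {Y : Scheme.{u}} [IsIntegral Y]
    (e : F ≃+* Y.functionField) (y : Y) : Y.presheaf.stalk y →+* F :=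
  e.symm.toRingHom.comp (algebraMap (Y.presheaf.stalk y) Y.functionField)

/-- `σ` lifts to no proper birational `Y → X = Spec R`, `Y` integral: for every such `Y` there is
a point of `Y` at which (the pullback of) `σ` is not regular. -/
def LiftsToNoModification (k : Type u) [Field k] (R : Type u) [CommRing R] [IsDomain R]
    [Algebra k R] (m : ℕ) (σ : Forms k (FractionRing R) m) : Prop :=
  ∀ (Y : Scheme.{u}) [IsIntegral Y] (π : Y ⟶ Spec (CommRingCat.of R)) [IsProper π]
    (e : FractionRing R ≃+* Y.functionField),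
    (∀ r : R, e (algebraMap R (FractionRing R) r) = toFunctionField π r) →
    ∃ y : Y, ¬ RegularOver (stalkMap e y) σ

/-- `σ` is regular at all points of the smooth locus of `Spec R`. -/
def RegularOnSmoothLocus (k : Type u) [Field k] (R : Type u) [CommRing R] [IsDomain R]
    [Algebra k R] (m : ℕ) (σ : Forms k (FractionRing R) m) : Prop :=
  ∀ P ∈ Algebra.smoothLocus k R,
    RegularOver (algebraMap (Localization.AtPrime P.asIdeal) (FractionRing R)) σ

/-- The complement of the smooth locus of `Spec R` consists of finitely many closed points. -/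
def IsolatedSingularities (k : Type u) [Field k] (R : Type u) [CommRing R] [Algebra k R] : Prop :=
  (Algebra.smoothLocus k R)ᶜ.Finite ∧
    ∀ P : PrimeSpectrum R, P ∉ Algebra.smoothLocus k R → P.asIdeal.IsMaximal

/-- MAIN STATEMENT (isolated hypersurface singularities, dimension `m + 1`, `m`-forms). -/
def MainStatement (p m : ℕ) (k : Type u) [Field k] : Prop :=
  ∃ _ : IsDomain (HS p m k),
    IsIntegrallyClosed (HS p m k) ∧
    Algebra.FiniteType k (HS p m k) ∧
    ringKrullDim (HS p m k) = (m + 1 : ℕ) ∧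
    StronglyFRegular p (HS p m k) ∧
    GloballyFRegular p (HS p m k) ∧
    IsolatedSingularities k (HS p m k) ∧
    ∃ σ : Forms k (FractionRing (HS p m k)) m,
      RegularOnSmoothLocus k (HS p m k) m σ ∧
      LiftsToNoModification k (HS p m k) m σ

end Pool.Agent.Lib.FR
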