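import Pool.Agent.Lib.FR.Smooth99
import Pool.Agent.Lib.FR.Defs

set_option autoImplicit false

/-!
Room FORMS (MP_0afa72_ag), module M11: the form `σ = dlog (v s_0^p) ∧ dz_1 ∧ ... ∧ dz_m`.
-/

namespace FRCone

open AddMonoidAlgebra

universe u

variable (k : Type u) [Field k] (p m : ℕ)

/-- the elements `v s_0^p, z_1, ..., z_m` of the base ring -/
noncomputable def gen (i : Fin (m + 1)) : A0 k p m :=
  Fin.cases (wv k p m 0) (fun j => zmon k p m j) i

theorem gen_zero : gen k p m 0 = wv k p m 0 := rfl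

theorem gen_succ (j : Fin m) : gen k p m j.succ = zmon k p m j := rfl

theorem chiA_gen (i : Fin (m + 1)) : chiA k p m 0 (gen k p m i) = MvPolynomial.X i.succ := by
  refine Fin.cases ?_ (fun j => ?_) i
  · exact chiA_wv k p m 0
  · exact chiA_zmon k p m 0 j

/-- the form `σ = dlog (v s_0^p) ∧ dz_1 ∧ ... ∧ dz_m` -/
noncomputable def sigmaA [IsDomain (A0 k p m)] :
    ⋀[FractionRing (A0 k p m)]^(m + 1) Ω[FractionRing (A0 k p m)⁄k] :=
  (algebraMap (A0 k p m) (FractionRing (A0 k p m)) (wv k p m 0))⁻¹ •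
    exteriorPower.ιMulti (FractionRing (A0 k p m)) (m + 1)
      (fun i : Fin (m + 1) => KaehlerDifferential.D k (FractionRing (A0 k p m))
        (algebraMap (A0 k p m) (FractionRing (A0 k p m)) (gen k p m i)))

end FRCone
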