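import Mathlib

/-!
# Derivations of the fraction field of `C = k[X_1, …, X_N][y] / (y ^ p - f)`, characteristic `p`

Module M8.4 of room FORMS.  For `a_j, b ∈ K` with `∑ (∂f/∂X_j) a_j = 0` there is a `k`-derivation
`D` of `K = Frac C` with `D X_j = a_j`, `D y = b` (`exists_derivation`); if `a_j, b ∈ C` then `D`
maps `C` to `C` and every localisation `S⁻¹ C` to itself (`exists_derivation_range`).  In
particular the Hamiltonian derivations `f_0 ∂_i - f_i ∂_0`, `y ↦ 0` (`exists_hamiltonian`).
-/

set_option autoImplicit false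

namespace FR

open MvPolynomial

section Ext

variable {k R K : Type*} [CommRing k] [CommRing R] [Field K] [Algebra k R] [Algebra k K]
  [Algebra R K] [IsScalarTower k R K] [IsFractionRing R K]

theorem exists_derivation_of_dual (Φ : R →ₐ[k] TrivSqZeroExt K K)
    (hΦ : ∀ r, (Φ r).fst = algebraMap R K r) :
    ∃ D : Derivation k K K, ∀ r, D (algebraMap R K r) = (Φ r).snd := by
  have hu : ∀ s : nonZeroDivisors R, IsUnit (Φ.toRingHom s) := by
    intro s
    change IsUnit (Φ (s : R))
    rw [TrivSqZeroExt.isUnit_iff_isUnit_fst, hΦ]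
    exact IsLocalization.map_units K s
  let L : K →+* TrivSqZeroExt K K := IsLocalization.lift (M := nonZeroDivisors R) hu
  have hL : ∀ r, L (algebraMap R K r) = Φ r := fun r => IsLocalization.lift_eq hu r
  have hfst : ∀ z, (L z).fst = z := by
    have h1 : ((TrivSqZeroExt.fstHom ℤ K K).toRingHom.comp L) = RingHom.id K := by
      apply IsLocalization.ringHom_ext (nonZeroDivisors R)
      ext r
      simp [hL, hΦ]
    intro z
    exact RingHom.congr_fun h1 z
  refine ⟨Derivation.mk' (R := k)
    { toFun := fun z => (L z).snd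
      map_add' := fun x y => by rw [map_add, TrivSqZeroExt.snd_add]
      map_smul' := fun c z => ?_ } ?_, ?_⟩
  · rw [Algebra.smul_def, map_mul, IsScalarTower.algebraMap_apply k R K, hL, AlgHom.commutes,
      TrivSqZeroExt.snd_mul, RingHom.id_apply, hfst]
    simp [TrivSqZeroExt.algebraMap_eq_inl', Algebra.smul_def]
  · intro a b
    change (L (a * b)).snd = a • (L b).snd + b • (L a).snd
    rw [map_mul, TrivSqZeroExt.snd_mul, hfst, hfst]
    simp [mul_comm]
  · intro r
    change (L (algebraMap R K r)).snd = _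
    rw [hL]

omit [Algebra k R] [IsScalarTower k R K] [IsFractionRing R K] in
/-- A derivation which maps `R` to `R` maps every localisation of `R` to itself. -/
theorem derivation_div (D : Derivation k K K)
    (hD : ∀ r : R, ∃ s : R, D (algebraMap R K r) = algebraMap R K s) (S : Submonoid R) (z : K)
    (hz : ∃ a b : R, b ∈ S ∧ z = algebraMap R K a / algebraMap R K b) :
    ∃ a b : R, b ∈ S ∧ D z = algebraMap R K a / algebraMap R K b := by
  obtain ⟨a, b, hb, rfl⟩ := hz
  obtain ⟨a', ha'⟩ := hD a
  obtain ⟨b', hb'⟩ := hD b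
  by_cases h0 : algebraMap R K b = 0
  · exact ⟨0, 1, S.one_mem, by simp [h0]⟩
  · refine ⟨b * a' - a * b', b * b, S.mul_mem hb hb, ?_⟩
    have h1 : D (algebraMap R K a) = D (algebraMap R K a / algebraMap R K b * algebraMap R K b) := by
      rw [div_mul_cancel₀ _ h0]
    rw [Derivation.leibniz, ha', hb', smul_eq_mul, smul_eq_mul] at h1
    rw [map_sub, map_mul, map_mul, map_mul, eq_div_iff (mul_ne_zero h0 h0), h1]
    field_simp
    ring

end Ext

section Poly

variable {k K : Type*} [CommRing k] [Field K] [Algebra k K] {N : ℕ}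

theorem aeval_dual_fst (x a : Fin N → K) (f : MvPolynomial (Fin N) k) :
    (aeval (fun j => (TrivSqZeroExt.inl (x j) + TrivSqZeroExt.inr (a j) : TrivSqZeroExt K K))
      f).fst = aeval x f := by
  have h : ((TrivSqZeroExt.fstHom k K K).comp
      (aeval (fun j => (TrivSqZeroExt.inl (x j) + TrivSqZeroExt.inr (a j) :
        TrivSqZeroExt K K)))) = aeval x := by
    apply MvPolynomial.algHom_ext
    intro j
    simp
  exact DFunLike.congr_fun h f

theorem aeval_dual_snd (x a : Fin N → K) (f : MvPolynomial (Fin N) k) :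
    (aeval (fun j => (TrivSqZeroExt.inl (x j) + TrivSqZeroExt.inr (a j) : TrivSqZeroExt K K))
      f).snd = ∑ j, aeval x (pderiv j f) * a j := by
  classical
  induction f using MvPolynomial.induction_on with
  | C c =>
    simp [TrivSqZeroExt.algebraMap_eq_inl']
  | add f g hf hg =>
    rw [map_add, TrivSqZeroExt.snd_add, hf, hg, ← Finset.sum_add_distrib]
    refine Finset.sum_congr rfl fun j _ => ?_
    rw [map_add, map_add, add_mul]
  | mul_X f i hf =>
    rw [map_mul, TrivSqZeroExt.snd_mul, hf, aeval_dual_fst, aeval_X]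
    simp only [TrivSqZeroExt.snd_add, TrivSqZeroExt.snd_inl, TrivSqZeroExt.snd_inr, zero_add,
      TrivSqZeroExt.fst_add, TrivSqZeroExt.fst_inl, TrivSqZeroExt.fst_inr, add_zero,
      op_smul_eq_smul, smul_eq_mul]
    have h1 : ∀ j, aeval x (pderiv j (f * X i)) * a j =
        (if j = i then aeval x f * a i else 0) + x i * (aeval x (pderiv j f) * a j) := by
      intro j
      rw [Derivation.leibniz, smul_eq_mul, smul_eq_mul, map_add, map_mul, map_mul, pderiv_X]
      by_cases hji : j = i
      · subst hji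
        simp
        ring
      · rw [Pi.single_eq_of_ne (by exact fun h => hji h.symm)]
        simp [hji]
        ring
    rw [Finset.sum_congr rfl fun j _ => h1 j, Finset.sum_add_distrib, ← Finset.mul_sum]
    simp

variable (p : ℕ) (f : MvPolynomial (Fin N) k) (h : Polynomial (MvPolynomial (Fin N) k))
  (hh : h = Polynomial.X ^ p - Polynomial.C f)
  [Algebra (AdjoinRoot h) K] [IsScalarTower k (AdjoinRoot h) K] [IsFractionRing (AdjoinRoot h) K]

include hh in
theorem exists_derivation_aux (hp : (p : K) = 0) (x : Fin N → K)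
    (hx : ∀ j, x j = algebraMap (AdjoinRoot h) K (AdjoinRoot.of h (X j)))
    (a : Fin N → K) (b : K) (hab : ∑ j, aeval x (pderiv j f) * a j = 0) :
    ∃ D : Derivation k K K, (∀ j, D (x j) = a j) ∧
      D (algebraMap (AdjoinRoot h) K (AdjoinRoot.root h)) = b := by
  set yK : K := algebraMap (AdjoinRoot h) K (AdjoinRoot.root h) with hyK
  have hof : ∀ g : MvPolynomial (Fin N) k,
      algebraMap (AdjoinRoot h) K (AdjoinRoot.of _ g) = aeval x g := by
    intro g
    have h1 : ((IsScalarTower.toAlgHom k (AdjoinRoot h) K).comp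
        (AdjoinRoot.ofAlgHom k h)) = aeval x := by
      apply MvPolynomial.algHom_ext
      intro j
      rw [aeval_X, hx]
      rfl
    exact DFunLike.congr_fun h1 g
  have hyp : yK ^ p = aeval x f := by
    have h2 : AdjoinRoot.mk h h = 0 := AdjoinRoot.mk_self
    have h3 : (AdjoinRoot.root h) ^ p = AdjoinRoot.of h f := by
      have h4 : AdjoinRoot.mk h (Polynomial.X ^ p - Polynomial.C f) = 0 := by rw [← hh]; exact h2
      rw [map_sub, map_pow, AdjoinRoot.mk_X, AdjoinRoot.mk_C, sub_eq_zero] at h4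
      exact h4
    rw [hyK, ← map_pow, h3, hof]
  let i : MvPolynomial (Fin N) k →ₐ[k] TrivSqZeroExt K K :=
    aeval (fun j => (TrivSqZeroExt.inl (x j) + TrivSqZeroExt.inr (a j) : TrivSqZeroExt K K))
  let Y : TrivSqZeroExt K K := TrivSqZeroExt.inl yK + TrivSqZeroExt.inr b
  have hY : Polynomial.eval₂ (i : MvPolynomial (Fin N) k →+* TrivSqZeroExt K K) Y h = 0 := by
    rw [hh, Polynomial.eval₂_sub, Polynomial.eval₂_pow, Polynomial.eval₂_X, Polynomial.eval₂_C,
      sub_eq_zero]
    apply TrivSqZeroExt.ext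
    · rw [TrivSqZeroExt.fst_pow]
      change (TrivSqZeroExt.inl yK + TrivSqZeroExt.inr b : TrivSqZeroExt K K).fst ^ p =
        TrivSqZeroExt.fst (i f)
      rw [show TrivSqZeroExt.fst (i f) = aeval x f from aeval_dual_fst x a f]
      simpa using hyp
    · rw [TrivSqZeroExt.snd_pow]
      change p • Y.fst ^ p.pred • Y.snd = TrivSqZeroExt.snd (i f)
      rw [show TrivSqZeroExt.snd (i f) = _ from aeval_dual_snd x a f, hab,
        ← Nat.cast_smul_eq_nsmul K, hp, zero_smul]
  let Φ : AdjoinRoot h →ₐ[k] TrivSqZeroExt K K :=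
    AdjoinRoot.liftAlgHom _ i Y hY
  have hΦ : ∀ r, (Φ r).fst = algebraMap (AdjoinRoot h) K r := by
    intro r
    obtain ⟨g, rfl⟩ := AdjoinRoot.mk_surjective r
    induction g using Polynomial.induction_on' with
    | add g1 g2 h1 h2 => rw [map_add, map_add, TrivSqZeroExt.fst_add, h1, h2, map_add]
    | monomial m c =>
      rw [← Polynomial.C_mul_X_pow_eq_monomial, map_mul, map_pow, AdjoinRoot.mk_C,
        AdjoinRoot.mk_X, map_mul, map_pow, map_mul, map_pow, TrivSqZeroExt.fst_mul,
        TrivSqZeroExt.fst_pow, hof]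
      congr 1
      · change (AdjoinRoot.liftAlgHom _ i Y hY (AdjoinRoot.of _ c)).fst = _
        rw [AdjoinRoot.liftAlgHom_of]
        exact aeval_dual_fst x a c
      · change (AdjoinRoot.liftAlgHom _ i Y hY (AdjoinRoot.root _)).fst ^ m = _
        rw [AdjoinRoot.liftAlgHom_root]
        simp [Y, hyK]
  obtain ⟨D, hD⟩ := exists_derivation_of_dual Φ hΦ
  refine ⟨D, fun j => ?_, ?_⟩
  · rw [hx, hD]
    change (AdjoinRoot.liftAlgHom _ i Y hY (AdjoinRoot.of _ (X j))).snd = _
    rw [AdjoinRoot.liftAlgHom_of]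
    rw [show i (X j) = _ from aeval_X _ _]
    simp
  · rw [hyK, hD]
    change (AdjoinRoot.liftAlgHom _ i Y hY (AdjoinRoot.root _)).snd = _
    rw [AdjoinRoot.liftAlgHom_root]
    simp [Y]

include hh in
/-- Derivations of the field `k(X, y)`, `y ^ p = f (X)` in characteristic `p`. -/
theorem exists_derivation (hp : (p : K) = 0) (a : Fin N → K) (b : K)
    (hab : ∑ j, algebraMap (AdjoinRoot h) K (AdjoinRoot.of h (pderiv j f)) * a j = 0) :
    ∃ D : Derivation k K K,
      (∀ j, D (algebraMap (AdjoinRoot h) K (AdjoinRoot.of h (X j))) = a j) ∧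
      D (algebraMap (AdjoinRoot h) K (AdjoinRoot.root h)) = b := by
  have hof : ∀ g : MvPolynomial (Fin N) k,
      algebraMap (AdjoinRoot h) K (AdjoinRoot.of _ g) =
        aeval (fun j => algebraMap (AdjoinRoot h) K (AdjoinRoot.of h (X j))) g := by
    intro g
    have h1 : ((IsScalarTower.toAlgHom k (AdjoinRoot h) K).comp
        (AdjoinRoot.ofAlgHom k h)) =
          aeval (fun j => algebraMap (AdjoinRoot h) K (AdjoinRoot.of h (X j))) := by
      apply MvPolynomial.algHom_ext
      intro j
      rw [aeval_X]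
      rfl
    exact DFunLike.congr_fun h1 g
  refine exists_derivation_aux p f h hh hp
    (fun j => algebraMap (AdjoinRoot h) K (AdjoinRoot.of h (X j))) (fun j => rfl) a b ?_
  rw [← hab]
  refine Finset.sum_congr rfl fun j _ => ?_
  rw [hof]

omit [IsFractionRing (AdjoinRoot h) K] in
/-- A derivation of `K` with values in `C` on the generators maps `C` to `C`. -/
theorem derivation_range (D : Derivation k K K)
    (hX : ∀ j, ∃ s, D (algebraMap (AdjoinRoot h) K (AdjoinRoot.of h (X j))) =
      algebraMap (AdjoinRoot h) K s)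
    (hy : ∃ s, D (algebraMap (AdjoinRoot h) K (AdjoinRoot.root h)) =
      algebraMap (AdjoinRoot h) K s) (r : AdjoinRoot h) :
    ∃ s, D (algebraMap (AdjoinRoot h) K r) = algebraMap (AdjoinRoot h) K s := by
  let P : AdjoinRoot h → Prop := fun r =>
    ∃ s, D (algebraMap (AdjoinRoot h) K r) = algebraMap (AdjoinRoot h) K s
  have hadd : ∀ r r', P r → P r' → P (r + r') := by
    rintro r r' ⟨s, hs⟩ ⟨s', hs'⟩
    exact ⟨s + s', by rw [map_add, map_add, hs, hs', map_add]⟩
  have hmul : ∀ r r', P r → P r' → P (r * r') := by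
    rintro r r' ⟨s, hs⟩ ⟨s', hs'⟩
    exact ⟨r * s' + r' * s, by
      rw [map_mul, Derivation.leibniz, hs, hs', smul_eq_mul, smul_eq_mul, map_add, map_mul,
        map_mul]⟩
  have hC : ∀ c : k, P (AdjoinRoot.of h (C c)) := by
    intro c
    refine ⟨0, ?_⟩
    have h1 : algebraMap (AdjoinRoot h) K (AdjoinRoot.of h (C c)) = algebraMap k K c := by
      rw [IsScalarTower.algebraMap_apply k (AdjoinRoot h) K]
      rfl
    rw [h1, Derivation.map_algebraMap, map_zero]
  have hof : ∀ g : MvPolynomial (Fin N) k, P (AdjoinRoot.of h g) := by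
    intro g
    induction g using MvPolynomial.induction_on with
    | C c => exact hC c
    | add g g' hg hg' => rw [map_add]; exact hadd _ _ hg hg'
    | mul_X g j hg => rw [map_mul]; exact hmul _ _ hg (hX j)
  have hpow : ∀ n : ℕ, P (AdjoinRoot.root h ^ n) := by
    intro n
    induction n with
    | zero =>
      rw [pow_zero, ← map_one (AdjoinRoot.of h)]
      exact hof 1
    | succ n ih => rw [pow_succ]; exact hmul _ _ ih hy
  change P r
  obtain ⟨g, rfl⟩ := AdjoinRoot.mk_surjective r
  induction g using Polynomial.induction_on' with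
  | add g1 g2 h1 h2 => rw [map_add]; exact hadd _ _ h1 h2
  | monomial m c =>
    rw [← Polynomial.C_mul_X_pow_eq_monomial, map_mul, map_pow, AdjoinRoot.mk_C, AdjoinRoot.mk_X]
    exact hmul _ _ (hof c) (hpow m)

include hh in
/-- Derivations of `K = Frac C` which map `C` and all its localisations to themselves. -/
theorem exists_derivation_range (hp : (p : K) = 0) (a : Fin N → AdjoinRoot h) (b : AdjoinRoot h)
    (hab : ∑ j, AdjoinRoot.of h (pderiv j f) * a j = 0) :
    ∃ D : Derivation k K K,
      (∀ j, D (algebraMap (AdjoinRoot h) K (AdjoinRoot.of h (X j))) =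
        algebraMap (AdjoinRoot h) K (a j)) ∧
      D (algebraMap (AdjoinRoot h) K (AdjoinRoot.root h)) = algebraMap (AdjoinRoot h) K b ∧
      (∀ (S : Submonoid (AdjoinRoot h)) (z : K),
        (∃ r s, s ∈ S ∧ z = algebraMap (AdjoinRoot h) K r / algebraMap (AdjoinRoot h) K s) →
        ∃ r s, s ∈ S ∧ D z = algebraMap (AdjoinRoot h) K r / algebraMap (AdjoinRoot h) K s) := by
  obtain ⟨D, h1, h2⟩ := exists_derivation (K := K) p f h hh hp
    (fun j => algebraMap (AdjoinRoot h) K (a j)) (algebraMap (AdjoinRoot h) K b) (by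
      have h0 := congrArg (algebraMap (AdjoinRoot h) K) hab
      rw [map_sum, map_zero] at h0
      rw [← h0]
      exact Finset.sum_congr rfl fun j _ => by rw [map_mul])
  refine ⟨D, h1, h2, fun S z hz => ?_⟩
  exact derivation_div D (derivation_range h D (fun j => ⟨_, h1 j⟩) ⟨_, h2⟩) S z hz

end Poly

section Hamiltonian

variable {k K : Type*} [CommRing k] [Field K] [Algebra k K] {m : ℕ} (p : ℕ)
  (f : MvPolynomial (Fin (m + 1)) k) (h : Polynomial (MvPolynomial (Fin (m + 1)) k))
  (hh : h = Polynomial.X ^ p - Polynomial.C f)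
  [Algebra (AdjoinRoot h) K] [IsScalarTower k (AdjoinRoot h) K] [IsFractionRing (AdjoinRoot h) K]

include hh in
/-- The Hamiltonian derivations `H_i = f_0 ∂_i - f_i ∂_0`, `y ↦ 0`, `i = 1, …, m`. -/
theorem exists_hamiltonian (hp : (p : K) = 0) :
    ∃ D : Fin m → Derivation k K K,
      (∀ i, D i (algebraMap (AdjoinRoot h) K (AdjoinRoot.of h (X 0))) =
        -algebraMap (AdjoinRoot h) K (AdjoinRoot.of h (pderiv i.succ f))) ∧
      (∀ i j, D i (algebraMap (AdjoinRoot h) K (AdjoinRoot.of h (X (Fin.succ j)))) =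
        if j = i then algebraMap (AdjoinRoot h) K (AdjoinRoot.of h (pderiv 0 f)) else 0) ∧
      (∀ i, D i (algebraMap (AdjoinRoot h) K (AdjoinRoot.root h)) = 0) ∧
      (∀ i, ∀ (S : Submonoid (AdjoinRoot h)) (z : K),
        (∃ r s, s ∈ S ∧ z = algebraMap (AdjoinRoot h) K r / algebraMap (AdjoinRoot h) K s) →
        ∃ r s, s ∈ S ∧ D i z = algebraMap (AdjoinRoot h) K r / algebraMap (AdjoinRoot h) K s) := by
  classical
  have key : ∀ i : Fin m, ∃ D : Derivation k K K,
      (D (algebraMap (AdjoinRoot h) K (AdjoinRoot.of h (X 0))) =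
        -algebraMap (AdjoinRoot h) K (AdjoinRoot.of h (pderiv i.succ f))) ∧
      (∀ j, D (algebraMap (AdjoinRoot h) K (AdjoinRoot.of h (X (Fin.succ j)))) =
        if j = i then algebraMap (AdjoinRoot h) K (AdjoinRoot.of h (pderiv 0 f)) else 0) ∧
      (D (algebraMap (AdjoinRoot h) K (AdjoinRoot.root h)) = 0) ∧
      (∀ (S : Submonoid (AdjoinRoot h)) (z : K),
        (∃ r s, s ∈ S ∧ z = algebraMap (AdjoinRoot h) K r / algebraMap (AdjoinRoot h) K s) →
        ∃ r s, s ∈ S ∧ D z = algebraMap (AdjoinRoot h) K r / algebraMap (AdjoinRoot h) K s) := by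
    intro i
    obtain ⟨D, h1, h2, h3⟩ := exists_derivation_range (K := K) p f h hh hp
      (Fin.cons (-AdjoinRoot.of h (pderiv i.succ f))
        (fun j => if j = i then AdjoinRoot.of h (pderiv 0 f) else 0)) 0 (by
        rw [Fin.sum_univ_succ]
        simp only [Fin.cons_zero, Fin.cons_succ, mul_ite, mul_zero, Finset.sum_ite_eq',
          Finset.mem_univ, if_true]
        ring)
    refine ⟨D, ?_, ?_, ?_, h3⟩
    · rw [h1 0, Fin.cons_zero, map_neg]
    · intro j
      rw [h1 j.succ, Fin.cons_succ]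
      split_ifs <;> simp
    · rw [h2, map_zero]
  choose D h1 h2 h3 h4 using key
  exact ⟨D, h1, h2, h3, h4⟩

end Hamiltonian

end FR
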