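import Mathlib

/-!
# M8.3: the localisation of a Noetherian domain at a prime element is a valuation ring
-/

namespace Pool.Agent.Lib.FR.Val43

variable {C : Type*} [CommRing C] [IsDomain C] [IsNoetherianRing C]
variable (K : Type*) [Field K] [Algebra C K] [IsFractionRing C K]

/-- The subring `{r / s : T ∤ s}` of the fraction field. -/
def subringAt {T : C} (hT : Prime T) : Subring K where
  carrier := {z | ∃ r s : C, ¬ T ∣ s ∧ z = algebraMap C K r / algebraMap C K s}
  mul_mem' := by
    rintro a b ⟨r, s, hs, rfl⟩ ⟨r', s', hs', rfl⟩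
    refine ⟨r * r', s * s', fun h => (hT.dvd_or_dvd h).elim hs hs', ?_⟩
    rw [map_mul, map_mul, div_mul_div_comm]
  one_mem' := ⟨1, 1, fun h => hT.not_unit (isUnit_of_dvd_one h), by simp⟩
  add_mem' := by
    rintro a b ⟨r, s, hs, rfl⟩ ⟨r', s', hs', rfl⟩
    have h0 : ∀ x : C, ¬ T ∣ x → algebraMap C K x ≠ 0 := by
      intro x hx h
      apply hx
      rw [(IsFractionRing.to_map_eq_zero_iff (K := K)).1 h]
      exact dvd_zero T
    refine ⟨r * s' + s * r', s * s', fun h => (hT.dvd_or_dvd h).elim hs hs', ?_⟩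
    rw [div_add_div _ _ (h0 s hs) (h0 s' hs')]
    simp only [map_mul, map_add]
  zero_mem' := ⟨0, 1, fun h => hT.not_unit (isUnit_of_dvd_one h), by simp⟩
  neg_mem' := by
    rintro a ⟨r, s, hs, rfl⟩
    exact ⟨-r, s, hs, by rw [map_neg, neg_div]⟩

theorem mem_subringAt {T : C} (hT : Prime T) (z : K) :
    z ∈ subringAt K hT ↔
      ∃ r s : C, ¬ T ∣ s ∧ z = algebraMap C K r / algebraMap C K s := Iff.rfl

theorem mem_or_inv_mem {T : C} (hT : Prime T) (z : K) :
    z ∈ subringAt K hT ∨ z⁻¹ ∈ subringAt K hT := by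
  obtain ⟨a, b, hb, rfl⟩ := IsFractionRing.div_surjective (A := C) z
  have hb0 : b ≠ 0 := nonZeroDivisors.ne_zero hb
  by_cases ha0 : a = 0
  · left
    subst ha0
    rw [map_zero, zero_div]
    exact (subringAt K hT).zero_mem
  obtain ⟨m, a', ha', hm⟩ := WfDvdMonoid.max_power_factor ha0 hT.irreducible
  obtain ⟨n, b', hb', hn⟩ := WfDvdMonoid.max_power_factor hb0 hT.irreducible
  have hT0 : algebraMap C K T ≠ 0 := by
    intro h
    exact hT.ne_zero ((IsFractionRing.to_map_eq_zero_iff (K := K)).1 h)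
  rcases le_total n m with h | h
  · left
    refine ⟨T ^ (m - n) * a', b', hb', ?_⟩
    have hmn : m = n + (m - n) := by omega
    have hT1 : algebraMap C K T ^ n ≠ 0 := pow_ne_zero _ hT0
    rw [hm, hn]
    simp only [map_mul, map_pow]
    conv_lhs => rw [hmn, pow_add, mul_assoc]
    rw [mul_div_mul_left _ _ hT1]
  · right
    refine ⟨T ^ (n - m) * b', a', ha', ?_⟩
    have hmn : n = m + (n - m) := by omega
    have hT1 : algebraMap C K T ^ m ≠ 0 := pow_ne_zero _ hT0
    rw [hm, hn, inv_div]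
    simp only [map_mul, map_pow]
    conv_lhs => rw [hmn, pow_add, mul_assoc]
    rw [mul_div_mul_left _ _ hT1]

/-- The valuation ring `C_(T)` of a Noetherian domain `C` at a prime element `T`. -/
def valAt {T : C} (hT : Prime T) : ValuationSubring K where
  toSubring := subringAt K hT
  mem_or_inv_mem' := mem_or_inv_mem K hT

theorem mem_valAt {T : C} (hT : Prime T) (z : K) :
    z ∈ valAt K hT ↔
      ∃ r s : C, ¬ T ∣ s ∧ z = algebraMap C K r / algebraMap C K s := Iff.rfl

theorem exists_valuationSubring {T : C} (hT : Prime T) :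
    ∃ O : ValuationSubring K, ∀ z : K, z ∈ O ↔
      ∃ r s : C, ¬ T ∣ s ∧ z = algebraMap C K r / algebraMap C K s :=
  ⟨valAt K hT, mem_valAt K hT⟩

end Pool.Agent.Lib.FR.Val43
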