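import Pool.Agent.Lib.FR.Lifts99
import Pool.Agent.Lib.FR.ConeSigma99
import Pool.Agent.Lib.FR.Val43
import Pool.Agent.Lib.FR.Der38

set_option autoImplicit false

/-!
Room FORMS (MP_0afa72_ag), module M11: the form `σ = dlog (v s_0^p) ∧ dz_1 ∧ ... ∧ dz_m` on the
cone lifts to no modification.
-/

namespace FRCone

open Pool.Agent.Lib.FR

universe u

variable (k : Type u) [Field k] (p m : ℕ)

/-- a partial derivative of the polynomial ring extends to its fraction field -/
theorem exists_pderiv_frac {N : ℕ} (i : Fin N) (K : Type*) [Field K] [Algebra k K]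
    [Algebra (MvPolynomial (Fin N) k) K] [IsScalarTower k (MvPolynomial (Fin N) k) K]
    [IsFractionRing (MvPolynomial (Fin N) k) K] :
    ∃ D : Derivation k K K, ∀ q : MvPolynomial (Fin N) k,
      D (algebraMap (MvPolynomial (Fin N) k) K q) =
        algebraMap (MvPolynomial (Fin N) k) K (MvPolynomial.pderiv i q) := by
  classical
  let x : Fin N → K := fun j => algebraMap (MvPolynomial (Fin N) k) K (MvPolynomial.X j)
  have hx : ∀ q : MvPolynomial (Fin N) k,
      MvPolynomial.aeval x q = algebraMap (MvPolynomial (Fin N) k) K q := by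
    intro q
    have h1 : (MvPolynomial.aeval x : MvPolynomial (Fin N) k →ₐ[k] K) =
        IsScalarTower.toAlgHom k (MvPolynomial (Fin N) k) K := by
      apply MvPolynomial.algHom_ext
      intro j
      rw [MvPolynomial.aeval_X]
      rfl
    exact DFunLike.congr_fun h1 q
  obtain ⟨D, hD⟩ := FR.exists_derivation_of_dual (R := MvPolynomial (Fin N) k) (K := K)
    (MvPolynomial.aeval (fun j => (TrivSqZeroExt.inl (x j) +
      TrivSqZeroExt.inr ((Pi.single i 1 : Fin N → K) j) : TrivSqZeroExt K K)))
    (fun r => by rw [FR.aeval_dual_fst, hx])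
  refine ⟨D, fun q => ?_⟩
  rw [hD, FR.aeval_dual_snd, Finset.sum_eq_single i]
  · rw [Pi.single_eq_same, mul_one, hx]
  · intro j _ hj
    rw [Pi.single_eq_of_ne hj, mul_zero]
  · intro h
    exact absurd (Finset.mem_univ i) h

theorem prime_X_one : Prime (MvPolynomial.X 1 : MvPolynomial (Fin (m + 2)) k) :=
  MvPolynomial.X_prime

theorem sigmaA_liftsToNoModification [IsDomain (A0 k p m)] :
    LiftsToNoModification k (A0 k p m) (m + 1) (sigmaA k p m) := by
  let C := MvPolynomial (Fin (m + 2)) k
  let L := FractionRing C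
  have hT : Prime (MvPolynomial.X 1 : C) := prime_X_one k m
  have hinj : Function.Injective ((algebraMap C L).comp (chiA k p m 0).toRingHom) :=
    (IsFractionRing.injective C L).comp (chiA_injective k p m 0)
  let φ : FractionRing (A0 k p m) →+* L := IsFractionRing.lift hinj
  have hφ : ∀ r, φ (algebraMap (A0 k p m) (FractionRing (A0 k p m)) r) =
      algebraMap C L (chiA k p m 0 r) := fun r => IsFractionRing.lift_algebraMap hinj r
  let algL : Algebra (FractionRing (A0 k p m)) L := φ.toAlgebra
  have hLalg : ∀ x, algebraMap (FractionRing (A0 k p m)) L x = φ x := fun _ => rfl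
  have tow : IsScalarTower k (FractionRing (A0 k p m)) L := by
    refine IsScalarTower.of_algebraMap_eq fun c => ?_
    rw [hLalg, IsScalarTower.algebraMap_apply k (A0 k p m) (FractionRing (A0 k p m)), hφ,
      AlgHom.commutes, ← IsScalarTower.algebraMap_apply k C L]
  obtain ⟨O, hO⟩ := Val43.exists_valuationSubring L hT
  have hex : ∀ i : Fin (m + 1), ∃ D : Derivation k L L, ∀ q : C,
      D (algebraMap C L q) = algebraMap C L (MvPolynomial.pderiv i.succ q) :=
    fun i => exists_pderiv_frac k i.succ L
  choose D hD using hex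
  let S : Submonoid C :=
    { carrier := {s | ¬ (MvPolynomial.X 1 : C) ∣ s}
      one_mem' := hT.not_dvd_one
      mul_mem' := fun {a b} ha hb hab => (hT.dvd_or_dvd hab).elim ha hb }
  refine liftsToNoModification_of O (fun i => (D i).compAlgebraMap (FractionRing (A0 k p m)))
    ?_ ?_ (algebraMap (A0 k p m) (FractionRing (A0 k p m)) (wv k p m 0))⁻¹
    (fun i => algebraMap (A0 k p m) (FractionRing (A0 k p m)) (gen k p m i)) ?_
  · intro r
    rw [hLalg, hφ, hO]
    exact ⟨chiA k p m 0 r, 1, hT.not_dvd_one, by rw [map_one, div_one]⟩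
  · intro i x hx
    have h1 := (hO _).1 hx
    refine (hO _).2 ?_
    obtain ⟨a, b, hb, hab⟩ := FR.derivation_div (R := C) (D i) (fun r => ⟨_, hD i r⟩) S (φ x) (by
      obtain ⟨r, s, hs, hrs⟩ := h1
      exact ⟨r, s, hs, hrs⟩)
    exact ⟨a, b, hb, hab⟩
  · have hdet : (Matrix.of fun i j => (D i).compAlgebraMap (FractionRing (A0 k p m))
        (algebraMap (A0 k p m) (FractionRing (A0 k p m)) (gen k p m j))) =
        (1 : Matrix (Fin (m + 1)) (Fin (m + 1)) L) := by
      ext i j
      rw [Matrix.of_apply]
      change D i (φ (algebraMap (A0 k p m) (FractionRing (A0 k p m)) (gen k p m j))) = _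
      rw [hφ, hD, chiA_gen, MvPolynomial.pderiv_X, Matrix.one_apply]
      by_cases hij : i = j
      · subst hij
        rw [Pi.single_eq_same, if_pos rfl, map_one]
      · rw [Pi.single_eq_of_ne (fun h => hij (Fin.succ_injective _ h).symm), if_neg hij, map_zero]
    rw [hdet, Matrix.det_one, mul_one, map_inv₀, hLalg, hφ, chiA_wv, hO]
    rintro ⟨r, s, hs, hrs⟩
    have hXK : algebraMap C L (MvPolynomial.X 1) ≠ 0 := by
      rw [Ne, IsFractionRing.to_map_eq_zero_iff]
      exact hT.ne_zero
    have hsK : algebraMap C L s ≠ 0 := by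
      rw [Ne, IsFractionRing.to_map_eq_zero_iff]
      rintro rfl
      exact hs (dvd_zero _)
    apply hs
    rw [eq_div_iff hsK, inv_mul_eq_iff_eq_mul₀ hXK, ← map_mul] at hrs
    exact ⟨r, IsFractionRing.injective C L hrs⟩

end FRCone
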