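import Pool.Agent.Lib.FR.Smooth99

set_option autoImplicit false

/-!
Room FORMS (MP_0afa72_ag), module M11: the base ring `A0 k p m` of the cone is not smooth at the
primes which contain all `s_0^i s_1^(p-i) v`: there are `p + 1 + m` independent derivations into
the residue field, but the dimension is `m + 2`.
-/

namespace FRCone

open AddMonoidAlgebra

universe u w

variable (k : Type u) [Field k] (p m : ℕ)

theorem mon_add {x y : M p m} (hx : dg p m x = 0) (hy : dg p m y = 0)
    (hxy : dg p m (x + y) = 0) :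
    mon k p m (x + y) hxy = mon k p m x hx * mon k p m y hy := by
  apply Subtype.ext
  show single (x + y) (1 : k) = single x 1 * single y 1
  rw [single_mul_single, mul_one]

theorem dg_add {p m : ℕ} {x y : M p m} (hx : dg p m x = 0) (hy : dg p m y = 0) :
    dg p m (x + y) = 0 := by rw [map_add, hx, hy]

theorem single_eq_smul_mon (x : M p m) (r : k) (hx : single x r ∈ G k p m 0)
    (hx0 : dg p m x = 0) : (⟨single x r, hx⟩ : A0 k p m) = r • mon k p m x hx0 := by
  apply Subtype.ext
  show single x r = r • single x (1 : k)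
  rw [smul_single, smul_eq_mul, mul_one]

/-- a monomial of degree `0` in which `v` occurs is a multiple of some `s_0^i s_1^(p-i) v` -/
theorem exists_eq_we_add {p m : ℕ} (x : M p m) (hx : dg p m x = 0) (hc : x.1.2 0 ≠ 0) :
    ∃ (i j : ℕ) (h : i + j = p) (y : M p m), dg p m y = 0 ∧ x = we m i j h + y := by
  have h0 := dg_spec x
  rw [hx, zero_add] at h0
  have h1 : p ≤ p * x.1.2 0 := Nat.le_mul_of_pos_right _ (Nat.pos_of_ne_zero hc)
  obtain ⟨i, j, hi, hj, hij⟩ : ∃ i j : ℕ, i ≤ x.1.1 0 ∧ j ≤ x.1.1 1 ∧ i + j = p := by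
    rcases le_total (x.1.1 0) p with h | h
    · exact ⟨x.1.1 0, p - x.1.1 0, le_refl _, by omega, by omega⟩
    · exact ⟨p, 0, h, Nat.zero_le _, by omega⟩
  have hcc : p * x.1.2 0 = p * (x.1.2 0 - 1) + p := by
    obtain ⟨c, hc'⟩ : ∃ c, x.1.2 0 = c + 1 := ⟨x.1.2 0 - 1, by omega⟩
    rw [hc', Nat.add_sub_cancel, mul_add, mul_one]
  have hy0 : (Finsupp.cons (x.1.2 0 - 1) (Finsupp.tail x.1.2)) (0 : Fin (m + 1)) =
      x.1.2 0 - 1 := Finsupp.cons_zero _ _
  have hmem : ((![x.1.1 0 - i, x.1.1 1 - j], Finsupp.cons (x.1.2 0 - 1)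
      (Finsupp.tail x.1.2)) : Ex m) ∈ M p m := by
    rw [mem_M]
    show p * (Finsupp.cons (x.1.2 0 - 1) (Finsupp.tail x.1.2)) (0 : Fin (m + 1)) ≤
      (x.1.1 0 - i) + (x.1.1 1 - j)
    rw [hy0]
    omega
  refine ⟨i, j, hij, ⟨_, hmem⟩, ?_, ?_⟩
  · rw [dg_apply]
    show (x.1.1 0 - i) + (x.1.1 1 - j) -
      p * (Finsupp.cons (x.1.2 0 - 1) (Finsupp.tail x.1.2)) (0 : Fin (m + 1)) = 0
    rw [hy0]
    omega
  · apply Subtype.ext
    apply Prod.ext
    · funext l
      fin_cases l
      · show x.1.1 0 = i + (x.1.1 0 - i)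
        omega
      · show x.1.1 1 = j + (x.1.1 1 - j)
        omega
    · ext l
      show x.1.2 l = (Finsupp.single (0 : Fin (m + 1)) 1) l +
        (Finsupp.cons (x.1.2 0 - 1) (Finsupp.tail x.1.2)) l
      refine Fin.cases ?_ (fun l => ?_) l
      · rw [hy0, Finsupp.single_eq_same]
        omega
      · rw [Finsupp.cons_succ, Finsupp.tail_apply,
          Finsupp.single_eq_of_ne (Fin.succ_ne_zero _), zero_add]

/-- a monomial of degree `0` in which `v` does not occur is a monomial in the `z_j` -/
theorem mon_eq_aeval {p : ℕ} (hp : 0 < p) (x : M p m) (hx : dg p m x = 0) (hc : x.1.2 0 = 0) :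
    mon k p m x hx =
      MvPolynomial.aeval (zmon k p m) (MvPolynomial.monomial (Finsupp.tail x.1.2) (1 : k)) := by
  apply iotaA_injective k m hp
  rw [iotaA_mon, MvPolynomial.aeval_monomial, map_mul, Finsupp.prod, map_prod]
  simp only [map_pow, iotaA_zmon, map_one, one_mul]
  have h0 := dg_spec x
  rw [hx, hc, mul_zero, add_zero] at h0
  have e0 : ey p m x = Finsupp.mapDomain (fun j : Fin m => j.succ.succ)
      (Finsupp.tail x.1.2) := by
    ext l
    have hinj : Function.Injective (fun j : Fin m => j.succ.succ) := fun a b hab =>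
      Fin.succ_injective _ (Fin.succ_injective _ hab)
    refine Fin.cases ?_ (fun l => ?_) l
    · rw [ey_zero, Finsupp.mapDomain_of_notMem_range]
      · omega
      · rintro ⟨j, hj⟩
        exact Fin.succ_ne_zero _ hj
    · refine Fin.cases ?_ (fun l => ?_) l
      · have h1 : (Fin.succ 0 : Fin (m + 2)) = 1 := rfl
        rw [h1, ey_one, Finsupp.mapDomain_of_notMem_range]
        · omega
        · rintro ⟨j, hj⟩
          have h2 : (Fin.succ (Fin.succ j) : Fin (m + 2)) = Fin.succ 0 := hj
          exact Fin.succ_ne_zero _ (Fin.succ_injective _ h2)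
      · rw [ey_succ_succ]
        have h3 := Finsupp.mapDomain_apply hinj (Finsupp.tail x.1.2) l
        exact ((h3.trans (Finsupp.tail_apply _ _)).symm)
  rw [e0, ← MvPolynomial.rename_monomial, MvPolynomial.monomial_eq, map_mul, Finsupp.prod,
    map_prod]
  simp only [map_pow, MvPolynomial.rename_X, map_one, one_mul]

section derivations

variable {L : Type w} [Field L] [Algebra (A0 k p m) L] [Algebra k L]
  [IsScalarTower k (A0 k p m) L]

/-- extension of a function on monomials to a linear map -/
noncomputable def linA (g : M p m → L) : A0 k p m →ₗ[k] L where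
  toFun a := ∑ x ∈ a.1.coeff.support, a.1.coeff x • g x
  map_add' a b := by
    have h := (Finsupp.linearCombination k g).map_add a.1.coeff b.1.coeff
    simp only [Finsupp.linearCombination_apply, Finsupp.sum] at h
    exact h
  map_smul' r a := by
    have h := (Finsupp.linearCombination k g).map_smul r a.1.coeff
    simp only [Finsupp.linearCombination_apply, Finsupp.sum] at h
    exact h

omit [Algebra (A0 k p m) L] [IsScalarTower k (A0 k p m) L] in
theorem linA_mon (g : M p m → L) (x : M p m) (hx : dg p m x = 0) :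
    linA k p m g (mon k p m x hx) = g x := by
  have h := Finsupp.linearCombination_single k (v := g) (1 : k) x
  simp only [Finsupp.linearCombination_apply, Finsupp.sum, one_smul] at h
  exact h

/-- a function on monomials which satisfies the Leibniz rule extends to a derivation -/
theorem exists_derivation_of_mon (g : M p m → L)
    (hg : ∀ (x y : M p m) (hx : dg p m x = 0) (hy : dg p m y = 0), g (x + y) =
      algebraMap (A0 k p m) L (mon k p m x hx) * g y +
        algebraMap (A0 k p m) L (mon k p m y hy) * g x) :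
    ∃ D : Derivation k (A0 k p m) L, ∀ (x : M p m) (hx : dg p m x = 0),
      D (mon k p m x hx) = g x := by
  have hs : ∀ (r : k) (a : A0 k p m), algebraMap (A0 k p m) L (r • a) =
      algebraMap k L r * algebraMap (A0 k p m) L a := by
    intro r a
    have h1 : r • a = algebraMap k (A0 k p m) r * a := Subtype.ext (Algebra.smul_def r a.1)
    rw [h1, map_mul, ← IsScalarTower.algebraMap_apply k (A0 k p m) L]
  have key : ∀ a b : A0 k p m, linA k p m g (a * b) =
      algebraMap (A0 k p m) L a * linA k p m g b + algebraMap (A0 k p m) L b * linA k p m g a := by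
    intro a b
    induction a using A0_induction with
    | h0 => simp only [zero_mul, map_zero, mul_zero, add_zero]
    | hadd a a' ha ha' =>
      rw [add_mul, map_add, ha, ha', map_add, map_add]
      ring
    | h1 x r hx hx0 =>
      rw [single_eq_smul_mon k p m x r hx hx0]
      induction b using A0_induction with
      | h0 => simp only [zero_mul, map_zero, mul_zero, add_zero]
      | hadd b b' hb hb' =>
        rw [mul_add, map_add, hb, hb', map_add, map_add]
        ring
      | h1 y s hy hy0 =>
        rw [single_eq_smul_mon k p m y s hy hy0]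
        have e : (r • mon k p m x hx0) * (s • mon k p m y hy0) =
            (r * s) • mon k p m (x + y) (dg_add hx0 hy0) := by
          rw [mon_add k p m hx0 hy0]
          apply Subtype.ext
          show (r • (mon k p m x hx0).1) * (s • (mon k p m y hy0).1) =
            (r * s) • ((mon k p m x hx0).1 * (mon k p m y hy0).1)
          rw [smul_mul_smul_comm]
        have e1 : linA k p m g ((r * s) • mon k p m (x + y) (dg_add hx0 hy0)) =
            (r * s) • g (x + y) := by rw [map_smul, linA_mon]
        have e2 : linA k p m g (r • mon k p m x hx0) = r • g x := by rw [map_smul, linA_mon]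
        have e3 : linA k p m g (s • mon k p m y hy0) = s • g y := by rw [map_smul, linA_mon]
        rw [e, e1, e2, e3, hs, hs, hg x y hx0 hy0, Algebra.smul_def, Algebra.smul_def,
          Algebra.smul_def, map_mul]
        ring
  refine ⟨Derivation.mk' (linA k p m g) fun a b => ?_, fun x hx => linA_mon k p m g x hx⟩
  rw [key, Algebra.smul_def, Algebra.smul_def]

/-- polynomials in the `z_j` as elements of `L` -/
noncomputable def zt (L : Type w) [Field L] [Algebra (A0 k p m) L]
    (f : MvPolynomial (Fin m) k) : L :=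
  algebraMap (A0 k p m) L (MvPolynomial.aeval (zmon k p m) f)

omit [Algebra k L] [IsScalarTower k (A0 k p m) L] in
theorem zt_mul (f g : MvPolynomial (Fin m) k) : zt k p m L (f * g) = zt k p m L f * zt k p m L g := by
  rw [zt, map_mul, map_mul]
  rfl

omit [Algebra k L] [IsScalarTower k (A0 k p m) L] in
theorem zt_add (f g : MvPolynomial (Fin m) k) : zt k p m L (f + g) = zt k p m L f + zt k p m L g := by
  rw [zt, map_add, map_add]
  rfl

omit [Algebra k L] [IsScalarTower k (A0 k p m) L] in
theorem zt_one : zt k p m L 1 = 1 := by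
  rw [zt, map_one, map_one]

omit [Algebra k L] [IsScalarTower k (A0 k p m) L] in
theorem zt_zero : zt k p m L 0 = 0 := by
  rw [zt, map_zero, map_zero]

/-- the coefficient of `s_0^i s_1^(p-i) v` -/
noncomputable def gi (L : Type w) [Field L] [Algebra (A0 k p m) L] (i : ℕ) (x : M p m) : L :=
  if x.1.2 0 = 1 ∧ x.1.1 0 = i then
    zt k p m L (MvPolynomial.monomial (Finsupp.tail x.1.2) 1) else 0

/-- the partial derivative with respect to `z_j` of the part without `v` -/
noncomputable def gj (L : Type w) [Field L] [Algebra (A0 k p m) L] (j : Fin m) (x : M p m) : L :=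
  if x.1.2 0 = 0 then
    zt k p m L (MvPolynomial.pderiv j (MvPolynomial.monomial (Finsupp.tail x.1.2) 1)) else 0

omit [Algebra k L] [IsScalarTower k (A0 k p m) L] in
theorem algebraMap_mon_zero {p : ℕ} [Algebra (A0 k p m) L] (hp : 0 < p) (x : M p m)
    (hx : dg p m x = 0) (hc : x.1.2 0 = 0) :
    algebraMap (A0 k p m) L (mon k p m x hx) =
      zt k p m L (MvPolynomial.monomial (Finsupp.tail x.1.2) 1) := by
  rw [mon_eq_aeval k m hp x hx hc]
  rfl

omit [Algebra k L] [IsScalarTower k (A0 k p m) L] in
theorem algebraMap_mon_pos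
    (hL : ∀ (i j : ℕ) (h : i + j = p), algebraMap (A0 k p m) L (wmon k m i j h) = 0)
    (x : M p m) (hx : dg p m x = 0) (hc : x.1.2 0 ≠ 0) :
    algebraMap (A0 k p m) L (mon k p m x hx) = 0 := by
  obtain ⟨i, j, h, y, hy, rfl⟩ := exists_eq_we_add x hx hc
  rw [mon_add k p m (dg_we m i j h) hy, map_mul]
  have h1 := hL i j h
  rw [wmon] at h1
  rw [h1, zero_mul]

theorem tail_add {p m : ℕ} (x y : M p m) :
    Finsupp.tail (x + y).1.2 = Finsupp.tail x.1.2 + Finsupp.tail y.1.2 := by
  ext l
  rw [Finsupp.add_apply, Finsupp.tail_apply, Finsupp.tail_apply, Finsupp.tail_apply]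
  rfl

theorem snd_add {p m : ℕ} (x y : M p m) : (x + y).1.2 0 = x.1.2 0 + y.1.2 0 := rfl

theorem fst_add {p m : ℕ} (x y : M p m) : (x + y).1.1 0 = x.1.1 0 + y.1.1 0 := rfl

theorem fst_zero {p m : ℕ} (x : M p m) (hx : dg p m x = 0) (hc : x.1.2 0 = 0) : x.1.1 0 = 0 := by
  have h0 := dg_spec x
  rw [hx, hc, mul_zero, add_zero] at h0
  omega

omit [Algebra k L] [IsScalarTower k (A0 k p m) L] in
theorem zt_monomial_add (a b : Fin m →₀ ℕ) : zt k p m L (MvPolynomial.monomial (a + b) 1) =
    zt k p m L (MvPolynomial.monomial a 1) * zt k p m L (MvPolynomial.monomial b 1) := by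
  rw [← zt_mul, MvPolynomial.monomial_mul, mul_one]

omit [Algebra k L] [IsScalarTower k (A0 k p m) L] in
theorem gi_leibniz {p : ℕ} [Algebra (A0 k p m) L] (hp : 0 < p)
    (hL : ∀ (i j : ℕ) (h : i + j = p), algebraMap (A0 k p m) L (wmon k m i j h) = 0)
    (i : ℕ) (x y : M p m) (hx : dg p m x = 0) (hy : dg p m y = 0) :
    gi k p m L i (x + y) =
      algebraMap (A0 k p m) L (mon k p m x hx) * gi k p m L i y +
        algebraMap (A0 k p m) L (mon k p m y hy) * gi k p m L i x := by
  by_cases hx0 : x.1.2 0 = 0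
  · have hx1 := fst_zero x hx hx0
    have e1 : gi k p m L i x = 0 := by
      rw [gi, if_neg]
      rintro ⟨h, -⟩
      omega
    rw [e1, mul_zero, add_zero, algebraMap_mon_zero k m hp x hx hx0]
    unfold gi
    rw [snd_add, fst_add, hx0, hx1, zero_add, zero_add]
    split_ifs with h
    · rw [tail_add, zt_monomial_add]
    · rw [mul_zero]
  · have e1 := algebraMap_mon_pos k p m hL x hx hx0
    rw [e1, zero_mul, zero_add]
    by_cases hy0 : y.1.2 0 = 0
    · have hy1 := fst_zero y hy hy0
      rw [algebraMap_mon_zero k m hp y hy hy0]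
      unfold gi
      rw [snd_add, fst_add, hy0, hy1, add_zero, add_zero]
      split_ifs with h
      · rw [tail_add, zt_monomial_add, mul_comm]
      · rw [mul_zero]
    · rw [algebraMap_mon_pos k p m hL y hy hy0, zero_mul, gi, if_neg]
      rintro ⟨h, -⟩
      rw [snd_add] at h
      omega

omit [Algebra k L] [IsScalarTower k (A0 k p m) L] in
theorem gj_leibniz {p : ℕ} [Algebra (A0 k p m) L] (hp : 0 < p)
    (hL : ∀ (i j : ℕ) (h : i + j = p), algebraMap (A0 k p m) L (wmon k m i j h) = 0)
    (j : Fin m) (x y : M p m) (hx : dg p m x = 0) (hy : dg p m y = 0) :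
    gj k p m L j (x + y) =
      algebraMap (A0 k p m) L (mon k p m x hx) * gj k p m L j y +
        algebraMap (A0 k p m) L (mon k p m y hy) * gj k p m L j x := by
  by_cases hx0 : x.1.2 0 = 0
  · by_cases hy0 : y.1.2 0 = 0
    · rw [algebraMap_mon_zero k m hp x hx hx0, algebraMap_mon_zero k m hp y hy hy0]
      unfold gj
      rw [if_pos (by rw [snd_add, hx0, hy0]), if_pos hx0, if_pos hy0, tail_add,
        ← zt_mul, ← zt_mul, ← zt_add]
      congr 1
      have e : MvPolynomial.monomial (Finsupp.tail x.1.2 + Finsupp.tail y.1.2) (1 : k) =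
          MvPolynomial.monomial (Finsupp.tail x.1.2) 1 *
            MvPolynomial.monomial (Finsupp.tail y.1.2) 1 := by
        rw [MvPolynomial.monomial_mul, mul_one]
      rw [e, Derivation.leibniz, smul_eq_mul, smul_eq_mul]
    · have e1 : gj k p m L j y = 0 := by rw [gj, if_neg hy0]
      have e2 : gj k p m L j (x + y) = 0 := by
        rw [gj, if_neg]
        rw [snd_add]
        omega
      rw [e1, e2, algebraMap_mon_pos k p m hL y hy hy0, mul_zero, zero_mul, add_zero]
  · have e1 : gj k p m L j x = 0 := by rw [gj, if_neg hx0]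
    have e2 : gj k p m L j (x + y) = 0 := by
      rw [gj, if_neg]
      rw [snd_add]
      omega
    rw [e1, e2, algebraMap_mon_pos k p m hL x hx hx0, mul_zero, zero_mul, add_zero]

omit [Algebra k L] in
theorem gi_we {p : ℕ} [Algebra (A0 k p m) L] (i i' j' : ℕ) (h : i' + j' = p) :
    gi k p m L i (we m i' j' h) = if i = i' then 1 else 0 := by
  have h1 : (we m i' j' h).1.2 0 = 1 := by
    show (Finsupp.single (0 : Fin (m + 1)) 1) 0 = 1
    rw [Finsupp.single_eq_same]
  have h2 : (we m i' j' h).1.1 0 = i' := rfl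
  have h3 : Finsupp.tail (we m i' j' h).1.2 = 0 := by
    ext l
    rw [Finsupp.tail_apply]
    show (Finsupp.single (0 : Fin (m + 1)) 1) l.succ = 0
    rw [Finsupp.single_eq_of_ne (Fin.succ_ne_zero _)]
  rw [gi, h1, h2, h3]
  by_cases hi : i = i'
  · rw [if_pos hi, if_pos ⟨rfl, hi.symm⟩]
    exact zt_one k p m
  · rw [if_neg hi, if_neg (fun hh => hi hh.2.symm)]

omit [Algebra k L] in
theorem gi_ze {p : ℕ} [Algebra (A0 k p m) L] (i : ℕ) (j : Fin m) :
    gi k p m L i (ze p j) = 0 := by
  have h1 : (ze p j).1.2 0 = 0 := by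
    show (Finsupp.single (j.succ : Fin (m + 1)) 1) 0 = 0
    rw [Finsupp.single_eq_of_ne (Fin.succ_ne_zero _).symm]
  rw [gi, h1, if_neg]
  rintro ⟨h, -⟩
  omega

omit [Algebra k L] in
theorem gj_we {p : ℕ} [Algebra (A0 k p m) L] (j : Fin m) (i' j' : ℕ) (h : i' + j' = p) :
    gj k p m L j (we m i' j' h) = 0 := by
  have h1 : (we m i' j' h).1.2 0 = 1 := by
    show (Finsupp.single (0 : Fin (m + 1)) 1) 0 = 1
    rw [Finsupp.single_eq_same]
  rw [gj, h1, if_neg one_ne_zero]

omit [Algebra k L] in
theorem gj_ze {p : ℕ} [Algebra (A0 k p m) L] (j j' : Fin m) :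
    gj k p m L j (ze p j') = if j = j' then 1 else 0 := by
  have h1 : (ze p j').1.2 0 = 0 := by
    show (Finsupp.single (j'.succ : Fin (m + 1)) 1) 0 = 0
    rw [Finsupp.single_eq_of_ne (Fin.succ_ne_zero _).symm]
  have h3 : Finsupp.tail (ze p j').1.2 = Finsupp.single j' 1 := by
    ext l
    rw [Finsupp.tail_apply]
    show (Finsupp.single (j'.succ : Fin (m + 1)) 1) l.succ = _
    rw [Finsupp.single_apply, Finsupp.single_apply]
    simp only [Fin.succ_inj]
  have h4 : MvPolynomial.monomial (Finsupp.single j' 1) (1 : k) = MvPolynomial.X j' := rfl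
  rw [gj, if_pos h1, h3, h4, MvPolynomial.pderiv_X, Pi.single_apply]
  by_cases hj : j = j'
  · rw [if_pos hj, if_pos hj.symm]
    exact zt_one k p m
  · rw [if_neg hj, if_neg (fun hh => hj hh.symm)]
    exact zt_zero k p m

end derivations

/-- The base ring is not smooth at the vertex points. -/
theorem not_mem_smoothLocus {p : ℕ} (hp : 2 ≤ p) (P : PrimeSpectrum (A0 k p m))
    (hP : ∀ (i j : ℕ) (h : i + j = p), wmon k m i j h ∈ P.asIdeal) :
    P ∉ Algebra.smoothLocus k (A0 k p m) := by
  classical
  intro hsm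
  have hp0 : 0 < p := by omega
  have hdom : IsDomain (A0 k p m) := isDomain_A0 k m hp0
  have hft : Algebra.FiniteType k (A0 k p m) := finiteType_A0 k m hp0
  let C := MvPolynomial (Fin (m + 2)) k
  let K := FractionRing C
  let _ : Algebra (A0 k p m) K := ((algebraMap C K).comp (chiA k p m 0).toRingHom).toAlgebra
  have hK : ∀ a : A0 k p m, algebraMap (A0 k p m) K a = algebraMap C K (chiA k p m 0 a) :=
    fun _ => rfl
  have h1 : IsFractionRing (A0 k p m) K := isFractionRing_chart k m hp0 0 K hK
  have h2 : IsScalarTower k (A0 k p m) K :=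
    IsScalarTower.of_algebraMap_eq (R := k) (S := A0 k p m) (A := K) fun r => by
      have h3 : algebraMap (A0 k p m) K (algebraMap k (A0 k p m) r) =
          algebraMap C K (algebraMap k C r) := by
        rw [hK, AlgHom.commutes]
      rw [h3]
      exact IsScalarTower.algebraMap_apply k C K r
  let L := P.asIdeal.ResidueField
  have h4 : IsScalarTower k (A0 k p m) L :=
    IsScalarTower.of_algebraMap_eq (R := k) (S := A0 k p m) (A := L) fun r => rfl
  have hL : ∀ x ∉ P.asIdeal, algebraMap (A0 k p m) L x ≠ 0 := fun x hx h0 =>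
    hx (Ideal.algebraMap_residueField_eq_zero.1 h0)
  have hL0 : ∀ (i j : ℕ) (h : i + j = p), algebraMap (A0 k p m) L (wmon k m i j h) = 0 :=
    fun i j h => Ideal.algebraMap_residueField_eq_zero.2 (hP i j h)
  choose D1 hD1 using fun i : Fin (p + 1) =>
    exists_derivation_of_mon k p m (gi k p m L i) (gi_leibniz k m hp0 hL0 i)
  choose D2 hD2 using fun j : Fin m =>
    exists_derivation_of_mon k p m (gj k p m L j) (gj_leibniz k m hp0 hL0 j)
  have h := Pool.Agent.Lib.FR.GenRank99.card_le_of_isSmoothAt K P.asIdeal hsm hL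
    (ι := Fin (p + 1) ⊕ Fin m)
    (Sum.elim (fun i => wmon k m i (p - i) (by omega)) (fun j => zmon k p m j))
    (Sum.elim D1 D2) (by
      rintro (i | j) (i' | j')
      · show D1 i (wmon k m i' (p - i') _) = _
        rw [wmon, hD1, gi_we]
        simp only [Sum.inl.injEq, Fin.ext_iff]
      · show D1 i (zmon k p m j') = _
        rw [zmon, hD1, gi_ze, if_neg Sum.inl_ne_inr]
      · show D2 j (wmon k m i' (p - i') _) = _
        rw [wmon, hD2, gj_we, if_neg Sum.inr_ne_inl]
      · show D2 j (zmon k p m j') = _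
        rw [zmon, hD2, gj_ze]
        simp only [Sum.inr.injEq])
  rw [Pool.Agent.Lib.FR.GenRank99.finrank_mvPolynomial k (m + 2) K, Fintype.card_sum,
    Fintype.card_fin, Fintype.card_fin] at h
  omega

/-- the `p`-th power of `s_0^i s_1^j v` is a product of powers of `v s_0^p` and `v s_1^p` -/
theorem wmon_pow {p : ℕ} (hp : 0 < p) (i j : ℕ) (h : i + j = p) :
    wmon k m i j h ^ p = wv k p m 0 ^ i * wv k p m 1 ^ j := by
  have h0 : wv k p m 0 = wmon k m p 0 (add_zero p) := by
    apply Subtype.ext
    show single _ (1 : k) = single _ 1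
    congr 1
    apply Subtype.ext
    apply Prod.ext
    · funext l
      fin_cases l <;> rfl
    · rfl
  have h1 : wv k p m 1 = wmon k m 0 p (zero_add p) := by
    apply Subtype.ext
    show single _ (1 : k) = single _ 1
    congr 1
    apply Subtype.ext
    apply Prod.ext
    · funext l
      fin_cases l <;> rfl
    · rfl
  apply iotaA_injective k m hp
  rw [h0, h1, map_pow, map_mul, map_pow, map_pow, iotaA_wmon, iotaA_wmon, iotaA_wmon, pow_zero,
    pow_zero, mul_one, one_mul, ← pow_mul, ← pow_mul, mul_pow, ← pow_mul, ← pow_mul, mul_comm i p,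
    mul_comm j p]

/-- The smooth locus of the base ring. -/
theorem mem_smoothLocus_iff {p : ℕ} (hp : 2 ≤ p) (P : PrimeSpectrum (A0 k p m)) :
    P ∈ Algebra.smoothLocus k (A0 k p m) ↔ ∃ c, wv k p m c ∉ P.asIdeal := by
  have hp0 : 0 < p := by omega
  constructor
  · intro hsm
    by_contra hcon
    push Not at hcon
    refine not_mem_smoothLocus k m hp P (fun i j h => ?_) hsm
    have hpr : P.asIdeal.IsPrime := P.isPrime
    apply hpr.mem_of_pow_mem p
    rw [wmon_pow k m hp0]
    by_cases hi : i = 0
    · have hj : j ≠ 0 := by omega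
      exact Ideal.mul_mem_left _ _ (Ideal.pow_mem_of_mem _ (hcon 1) _ (Nat.pos_of_ne_zero hj))
    · exact Ideal.mul_mem_right _ _ (Ideal.pow_mem_of_mem _ (hcon 0) _ (Nat.pos_of_ne_zero hi))
  · rintro ⟨c, hc⟩
    exact mem_smoothLocus_of k m hp0 P c hc

end FRCone
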