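import Pool.Agent.Lib.FR.ConeSigma99
import Pool.Agent.Lib.FR.NonSmooth99

set_option autoImplicit false

/-!
Room FORMS (MP_0afa72_ag), module M11: the form `σ = dlog (v s_0^p) ∧ dz_1 ∧ ... ∧ dz_m` is regular
on the smooth locus of the base ring `A0 k p m`.
-/

namespace FRCone

open AddMonoidAlgebra Pool.Agent.Lib.FR

universe u

/-- a form with denominator `w` is regular at the primes which do not contain `w` -/
theorem regularOver_of_notMem {k R : Type u} [Field k] [CommRing R] [IsDomain R] [Algebra k R]
    {n : ℕ} (P : Ideal R) [P.IsPrime] (w : R) (hw : w ∉ P) (s : Fin n → R) :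
    RegularOver (algebraMap (Localization.AtPrime P) (FractionRing R))
      ((algebraMap R (FractionRing R) w)⁻¹ • exteriorPower.ιMulti (FractionRing R) n
        (fun i => KaehlerDifferential.D k (FractionRing R) (algebraMap R (FractionRing R) (s i)))) := by
  apply AddSubgroup.subset_closure
  refine ⟨IsLocalization.mk' (Localization.AtPrime P) 1 (⟨w, hw⟩ : P.primeCompl),
    fun i => algebraMap R _ (s i), ?_⟩
  have hw0 : algebraMap R (FractionRing R) w ≠ 0 := by
    intro h0
    apply hw
    rw [(IsFractionRing.injective R (FractionRing R)) (h0.trans (map_zero _).symm)]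
    exact P.zero_mem
  have h1 : algebraMap (Localization.AtPrime P) (FractionRing R)
      (IsLocalization.mk' (Localization.AtPrime P) 1 (⟨w, hw⟩ : P.primeCompl)) =
      (algebraMap R (FractionRing R) w)⁻¹ := by
    apply eq_inv_of_mul_eq_one_left
    rw [IsScalarTower.algebraMap_apply R (Localization.AtPrime P) (FractionRing R) w, ← map_mul,
      IsLocalization.mk'_spec (Localization.AtPrime P) (1 : R) (⟨w, hw⟩ : P.primeCompl), map_one,
      map_one]
  have h2 : ∀ i, algebraMap (Localization.AtPrime P) (FractionRing R)
      (algebraMap R (Localization.AtPrime P) (s i)) = algebraMap R (FractionRing R) (s i) :=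
    fun i => (IsScalarTower.algebraMap_apply R (Localization.AtPrime P) (FractionRing R) _).symm
  beta_reduce
  rw [h1]
  simp only [h2]

/-- `w'^(-1) dw' ∧ η = w^(-1) dw ∧ η` if `w' = u^p w` and `p = 0` -/
theorem dlog_eq {k K : Type u} [Field k] [Field K] [Algebra k K] (p : ℕ) (hp : (p : K) = 0)
    {n : ℕ} (s : Fin (n + 1) → K) (w w' t : K) (hw : w ≠ 0) (hw' : w' ≠ 0) (h : w' = t ^ p * w)
    (hs : s 0 = w) :
    w'⁻¹ • exteriorPower.ιMulti K (n + 1)
        (fun i => KaehlerDifferential.D k K (Function.update s 0 w' i)) =
      w⁻¹ • exteriorPower.ιMulti K (n + 1) (fun i => KaehlerDifferential.D k K (s i)) := by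
  have hd : KaehlerDifferential.D k K w' = t ^ p • KaehlerDifferential.D k K w := by
    rw [h, Derivation.leibniz, Derivation.leibniz_pow, ← Nat.cast_smul_eq_nsmul K, hp, zero_smul,
      smul_zero, add_zero]
  have h1 : (fun i => KaehlerDifferential.D k K (Function.update s 0 w' i)) =
      Function.update (fun i => KaehlerDifferential.D k K (s i)) 0
        (t ^ p • KaehlerDifferential.D k K w) := by
    funext i
    by_cases hi : i = 0
    · subst hi
      rw [Function.update_self, Function.update_self, hd]
    · rw [Function.update_of_ne hi, Function.update_of_ne hi]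
  have h2 : Function.update (fun i => KaehlerDifferential.D k K (s i)) 0
        (KaehlerDifferential.D k K w) = (fun i => KaehlerDifferential.D k K (s i)) := by
    rw [← hs, Function.update_eq_self]
  have h3 := (exteriorPower.ιMulti K (M := Ω[K⁄k]) (n + 1)).map_update_smul
    (fun i => KaehlerDifferential.D k K (s i)) 0 (t ^ p) (KaehlerDifferential.D k K w)
  rw [h1, h3, h2, smul_smul]
  congr 1
  have ht : t ^ p ≠ 0 := by
    intro h0
    rw [h0, zero_mul] at h
    exact hw' h
  rw [h]
  field_simp

/-- the form `dlog w ∧ ds_1 ∧ ... ∧ ds_n` is also regular at the primes which do not contain `w'`,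
if `w' = w t^p` -/
theorem regularOver_dlog {k R : Type u} [Field k] [CommRing R] [IsDomain R] [Algebra k R]
    {n : ℕ} (P : Ideal R) [P.IsPrime] {p : ℕ} (hp : 0 < p) (hpk : (p : k) = 0) (w w' u : R)
    (hu : u ^ p = w ^ (p - 1) * w') (hw : w ≠ 0) (hw' : w' ≠ 0) (hP : w' ∉ P)
    (s : Fin (n + 1) → R) (hs : s 0 = w) :
    RegularOver (algebraMap (Localization.AtPrime P) (FractionRing R))
      ((algebraMap R (FractionRing R) w)⁻¹ • exteriorPower.ιMulti (FractionRing R) (n + 1)
        (fun i => KaehlerDifferential.D k (FractionRing R) (algebraMap R (FractionRing R) (s i)))) := by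
  have hinj := IsFractionRing.injective R (FractionRing R)
  have h0 : algebraMap R (FractionRing R) w ≠ 0 := fun h => hw (hinj (h.trans (map_zero _).symm))
  have h1 : algebraMap R (FractionRing R) w' ≠ 0 := fun h => hw' (hinj (h.trans (map_zero _).symm))
  have ha' := congrArg (algebraMap R (FractionRing R)) hu
  rw [map_pow, map_mul, map_pow] at ha'
  have hpK : (p : FractionRing R) = 0 := by
    have h3 := congrArg (algebraMap k (FractionRing R)) hpk
    rwa [map_natCast, map_zero] at h3
  have key := dlog_eq (k := k) p hpK
    (fun i => algebraMap R (FractionRing R) (s i))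
    (algebraMap R (FractionRing R) w)
    (algebraMap R (FractionRing R) w')
    (algebraMap R (FractionRing R) u / algebraMap R (FractionRing R) w) h0 h1 (by
      rw [div_pow, ha']
      have h5 : algebraMap R (FractionRing R) w ^ p =
          algebraMap R (FractionRing R) w ^ (p - 1) * algebraMap R (FractionRing R) w := by
        rw [← pow_succ]
        congr 1
        omega
      rw [h5]
      field_simp) (by rw [hs])
  have h6 : (fun i => KaehlerDifferential.D k (FractionRing R) (Function.update
      (fun i => algebraMap R (FractionRing R) (s i)) 0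
        (algebraMap R (FractionRing R) w') i)) =
      (fun i => KaehlerDifferential.D k (FractionRing R)
        (algebraMap R (FractionRing R) (Function.update s 0 w' i))) := by
    funext i
    by_cases hi : i = 0
    · subst hi
      rw [Function.update_self, Function.update_self]
    · rw [Function.update_of_ne hi, Function.update_of_ne hi]
  rw [h6] at key
  rw [← key]
  exact regularOver_of_notMem P w' hP (Function.update s 0 w')

variable (k : Type u) [Field k] (p m : ℕ)

/-- `(s_0^(p-1) s_1 v)^p = (v s_0^p)^(p-1) (v s_1^p)` -/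
theorem wv_rel {p : ℕ} (hp : 0 < p) : ∃ u : A0 k p m,
    u ^ p = wv k p m 0 ^ (p - 1) * wv k p m 1 :=
  ⟨wmon k m (p - 1) 1 (by omega), by rw [wmon_pow k m hp, pow_one]⟩

theorem wv_ne_zero (c : Fin 2) : wv k p m c ≠ 0 := by
  intro h0
  have h1 := chiA_wv k p m c
  rw [h0, map_zero] at h1
  exact MvPolynomial.X_ne_zero (R := k) (1 : Fin (m + 2)) h1.symm

/-- `σ` is regular on the smooth locus. -/
theorem regular_sigmaA {p : ℕ} [Fact p.Prime] [CharP k p] [IsDomain (A0 k p m)] :
    RegularOnSmoothLocus k (A0 k p m) (m + 1) (sigmaA k p m) := by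
  have hp : 2 ≤ p := (Fact.out : p.Prime).two_le
  intro P hP
  obtain ⟨c, hc⟩ := (mem_smoothLocus_iff k m hp P).1 hP
  have hc2 : c = 0 ∨ c = 1 := by fin_cases c <;> simp
  rcases hc2 with rfl | rfl
  · exact regularOver_of_notMem P.asIdeal (wv k p m 0) hc (gen k p m)
  · obtain ⟨a, ha⟩ := wv_rel k m (p := p) (by omega)
    exact regularOver_dlog P.asIdeal (by omega) (CharP.cast_eq_zero k p) (wv k p m 0)
      (wv k p m 1) a ha (wv_ne_zero k p m 0) (wv_ne_zero k p m 1) hc (gen k p m)
      (gen_zero k p m)

end FRCone
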