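import Pool.Agent.Lib.FR.ResDefs

set_option autoImplicit false

namespace FRCone

open AlgebraicGeometry CategoryTheory

universe u

/-- ideals of localizations along a specialisation -/
theorem comap_eq_map {C O O' : Type*} [CommRing C] [CommRing O] [CommRing O'] [Algebra C O]
    [Algebra C O'] [IsLocalRing O'] (q b : Ideal C) [q.IsPrime] [b.IsPrime]
    [IsLocalization.AtPrime O q] [IsLocalization.AtPrime O' b] (sp : O →+* O')
    (h : sp.comp (algebraMap C O) = algebraMap C O') :
    Ideal.comap sp (IsLocalRing.maximalIdeal O') = Ideal.map (algebraMap C O) b := by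
  have h1 : (Ideal.comap sp (IsLocalRing.maximalIdeal O')).under C = b := by
    rw [Ideal.under, Ideal.comap_comap, h]
    exact IsLocalization.AtPrime.under_maximalIdeal O' b
  rw [← IsLocalization.map_under q.primeCompl O (Ideal.comap sp (IsLocalRing.maximalIdeal O')), h1]

/-- an element with a derivative outside the prime is not in the square of the maximal ideal -/
theorem not_mem_sq {k C O : Type*} [CommRing k] [CommRing C] [Algebra k C] [CommRing O]
    [Algebra C O] [IsLocalRing O] (q : Ideal C) [q.IsPrime] [IsLocalization.AtPrime O q]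
    (D : Derivation k C C) {b : C} (hb : b ∈ q) (hD : D b ∉ q) :
    algebraMap C O b ∉ IsLocalRing.maximalIdeal O ^ 2 := by
  intro hmem
  rw [← IsLocalization.AtPrime.map_eq_maximalIdeal q O, ← Ideal.map_pow] at hmem
  rw [IsLocalization.algebraMap_mem_map_algebraMap_iff q.primeCompl] at hmem
  obtain ⟨u, hu, hub⟩ := hmem
  have key : ∀ x ∈ q ^ 2, D x ∈ q := by
    intro x hx
    rw [pow_two] at hx
    refine Submodule.mul_induction_on hx (fun r hr s hs => ?_) (fun r s hr hs => ?_)
    · rw [Derivation.leibniz, smul_eq_mul, smul_eq_mul]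
      exact add_mem (q.mul_mem_right _ hr) (q.mul_mem_right _ hs)
    · rw [map_add]; exact add_mem hr hs
  have h1 := key _ hub
  rw [Derivation.leibniz, smul_eq_mul, smul_eq_mul] at h1
  have h2 : u * D b ∈ q := (q.add_mem_iff_left (q.mul_mem_right _ hb)).1 h1
  rcases (‹q.IsPrime›).mem_or_mem h2 with h3 | h3
  · exact hu h3
  · exact hD h3

section glue

variable {C : Type u} [CommRing C] {Y : Scheme.{u}} (j : Spec (CommRingCat.of C) ⟶ Y)
  [IsOpenImmersion j]

/-- the localization map of `Spec C` -/
noncomputable def toSt (C : Type u) [CommRing C] (x : Spec (CommRingCat.of C)) :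
    CommRingCat.of C ⟶ (Spec (CommRingCat.of C)).presheaf.stalk x :=
  StructureSheaf.toStalk C x

theorem toSt_specializes {x y : Spec (CommRingCat.of C)} (h : x ⤳ y) :
    toSt C y ≫ (Spec (CommRingCat.of C)).presheaf.stalkSpecializes h = toSt C x :=
  StructureSheaf.toStalk_stalkSpecializes h

/-- the map from the chart ring to the local ring -/
noncomputable def theta (x : Spec (CommRingCat.of C)) : CommRingCat.of C ⟶ Y.presheaf.stalk (j x) :=
  toSt C x ≫ inv (j.stalkMap x)

omit [IsOpenImmersion j] in
theorem theta_stalkMap [IsOpenImmersion j] (x : Spec (CommRingCat.of C)) :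
    theta j x ≫ j.stalkMap x = toSt C x := by
  simp [theta]

theorem theta_specializes {x y : Spec (CommRingCat.of C)} (h : x ⤳ y) :
    theta j y ≫ Y.presheaf.stalkSpecializes (j.base.hom.map_specializes h) = theta j x := by
  rw [← cancel_mono (j.stalkMap x), Category.assoc, Scheme.Hom.stalkSpecializes_stalkMap,
    ← Category.assoc, theta_stalkMap, theta_stalkMap]
  exact toSt_specializes h

/-- the isomorphism of local rings -/
noncomputable def eSt (x : Spec (CommRingCat.of C)) :
    (Spec (CommRingCat.of C)).presheaf.stalk x ≃+* Y.presheaf.stalk (j x) :=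
  (asIso (j.stalkMap x)).symm.commRingCatIsoToRingEquiv

theorem eSt_toSt (x : Spec (CommRingCat.of C)) (r : C) :
    eSt j x ((toSt C x).hom r) = (theta j x).hom r := rfl

theorem theta_loc (x : PrimeSpectrum C) :
    @IsLocalization.AtPrime C _ (Y.presheaf.stalk (j x)) _ (theta j x).hom.toAlgebra
      x.asIdeal _ := by
  let i1 : Algebra C (Y.presheaf.stalk (j x)) := (theta j x).hom.toAlgebra
  let i2 : Algebra C ((Spec (CommRingCat.of C)).presheaf.stalk x) := (toSt C x).hom.toAlgebra
  have h1 : IsLocalization.AtPrime ((Spec (CommRingCat.of C)).presheaf.stalk x) x.asIdeal :=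
    StructureSheaf.IsLocalization.to_stalk C x
  let e : (Spec (CommRingCat.of C)).presheaf.stalk x ≃ₐ[C] Y.presheaf.stalk (j x) :=
    { eSt j x with
      commutes' := fun r => eSt_toSt j x r }
  exact IsLocalization.isLocalization_of_algEquiv _ e

open Pool.Agent.Lib.FR in
theorem chart_snc {k : Type u} [CommRing k] [Algebra k C] (D : Derivation k C C) (f : C)
    (b : PrimeSpectrum C) (hb : b.asIdeal = Ideal.span {f})
    (hD : ∀ q : PrimeSpectrum C, f ∈ q.asIdeal → D f ∉ q.asIdeal)
    {η y : Y} (h : η ⤳ y) (q : PrimeSpectrum C) (hη : j b = η) (hq : j q = y) :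
    ∃ t : IsLocalRing.maximalIdeal (Y.presheaf.stalk y),
      Ideal.span {(t : Y.presheaf.stalk y)} = primeAt h ∧
      ((IsLocalRing.maximalIdeal (Y.presheaf.stalk y)).toCotangent t :
          IsLocalRing.CotangentSpace (Y.presheaf.stalk y)) ≠ 0 := by
  subst hη hq
  have hbq : (b : Spec (CommRingCat.of C)) ⤳ q :=
    (j.isOpenEmbedding.isInducing.specializes_iff).1 h
  have hfq : f ∈ q.asIdeal := by
    have h1 : b ≤ q := (PrimeSpectrum.le_iff_specializes b q).2 hbq
    apply h1
    rw [hb]
    exact Ideal.mem_span_singleton_self f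
  let i1 : Algebra C (Y.presheaf.stalk (j q)) := (theta j q).hom.toAlgebra
  let i2 : Algebra C (Y.presheaf.stalk (j b)) := (theta j b).hom.toAlgebra
  have l1 : IsLocalization.AtPrime (Y.presheaf.stalk (j q)) q.asIdeal := theta_loc j q
  have l2 : IsLocalization.AtPrime (Y.presheaf.stalk (j b)) b.asIdeal := theta_loc j b
  have hcomp : (Y.presheaf.stalkSpecializes h).hom.comp
      (algebraMap C (Y.presheaf.stalk (j q))) = algebraMap C (Y.presheaf.stalk (j b)) := by
    have := congrArg CommRingCat.Hom.hom (theta_specializes j hbq)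
    exact this
  have hprime : primeAt h = Ideal.span {algebraMap C (Y.presheaf.stalk (j q)) f} := by
    rw [primeAt, comap_eq_map q.asIdeal b.asIdeal _ hcomp, hb, Ideal.map_span,
      Set.image_singleton]
  have hmem : algebraMap C (Y.presheaf.stalk (j q)) f ∈
      IsLocalRing.maximalIdeal (Y.presheaf.stalk (j q)) := by
    rw [← IsLocalization.AtPrime.map_eq_maximalIdeal q.asIdeal (Y.presheaf.stalk (j q))]
    exact Ideal.mem_map_of_mem _ hfq
  refine ⟨⟨_, hmem⟩, hprime.symm, ?_⟩
  intro h0
  rw [Ideal.toCotangent_eq_zero] at h0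
  exact not_mem_sq q.asIdeal D hfq (hD q hfq) h0

end glue

end FRCone
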