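import Pool.Agent.Lib.FR.Iso57
import Pool.Agent.Lib.FR.Cone20d
import Pool.Agent.Lib.FR.Glue20

set_option autoImplicit false

namespace FRCone

open AddMonoidAlgebra HomogeneousLocalization AlgebraicGeometry CategoryTheory
open Pool.Agent.Lib.FR

universe u

variable (k : Type u) [Field k] (p m : ℕ)

/-- the prime ideal `(X 1)` of the chart ring -/
noncomputable def primeB : PrimeSpectrum (C k m) :=
  ⟨Ideal.span {MvPolynomial.X 1},
    (Ideal.span_singleton_prime (MvPolynomial.X_ne_zero _)).2 MvPolynomial.X_prime⟩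

theorem X1_mem_iff (q : PrimeSpectrum (C k m)) :
    MvPolynomial.X 1 ∈ q.asIdeal ↔ primeB k m ≤ q := by
  constructor
  · intro h
    change Ideal.span {MvPolynomial.X 1} ≤ q.asIdeal
    rw [Ideal.span_singleton_le_iff_mem]
    exact h
  · intro h
    exact h (Ideal.mem_span_singleton_self _)

/-- the generic point of the exceptional divisor seen from the chart `c` -/
noncomputable def etac (c : Fin 2) : Y k p m := jj k p m c (primeB k m)

theorem etac_specializes_iff (c : Fin 2) (q : PrimeSpectrum (C k m)) :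
    etac k p m c ⤳ jj k p m c q ↔ MvPolynomial.X 1 ∈ q.asIdeal := by
  rw [X1_mem_iff, PrimeSpectrum.le_iff_specializes]
  exact (jj k p m c).isOpenEmbedding.isInducing.specializes_iff

theorem piY_jj (c : Fin 2) (q : PrimeSpectrum (C k m)) :
    piY k p m (jj k p m c q) = PrimeSpectrum.comap (rho k p m c) q := by
  have h : (jj k p m c ≫ piY k p m) q = piY k p m (jj k p m c q) := rfl
  rw [← h, jj_piY]
  rfl

theorem jj_eq (c : Fin 2) (q : PrimeSpectrum (C k m)) :
    jj k p m c q = chart k p m c (PrimeSpectrum.comap (Phi k p m c) q) := rfl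

theorem Phi_elem (c : Fin 2) : Phi k p m c
    (Away.isLocalizationElem (sv_mem k p m c) (sv_mem k p m (c + 1))) = MvPolynomial.X 0 := by
  rw [Phi_mk, pow_one, chi_sv']

theorem jj_mem_basicOpen (c : Fin 2) (q : PrimeSpectrum (C k m)) :
    jj k p m c q ∈ Proj.basicOpen (G k p m) (sv k p m (c + 1)) ↔
      MvPolynomial.X 0 ∉ q.asIdeal := by
  have h := Proj.awayι_preimage_basicOpen (G k p m) (sv_mem k p m c) one_pos
    (sv_mem k p m (c + 1)) one_pos
  have h2 : jj k p m c q ∈ Proj.basicOpen (G k p m) (sv k p m (c + 1)) ↔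
      PrimeSpectrum.comap (Phi k p m c) q ∈
        (chart k p m c) ⁻¹ᵁ Proj.basicOpen (G k p m) (sv k p m (c + 1)) := Iff.rfl
  rw [h2, chart, h]
  rw [← Phi_elem k p m c]
  rfl

theorem X0_not_mem_primeB : (MvPolynomial.X 0 : C k m) ∉ (primeB k m).asIdeal := by
  intro h
  have h1 := Ideal.mem_span_singleton.1 h
  rw [MvPolynomial.X_dvd_X] at h1
  simp at h1

theorem etac_mem (c : Fin 2) : etac k p m c ∈ (jj k p m (c + 1)).opensRange := by
  rw [opensRange_jj, etac, jj_mem_basicOpen]
  exact X0_not_mem_primeB k m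

theorem rho_wv (c : Fin 2) : rho k p m c (wv k p m c) = MvPolynomial.X 1 := by
  rw [rho_apply, chi_wv]

theorem rho_wv' (c : Fin 2) :
    rho k p m c (wv k p m (c + 1)) = MvPolynomial.X 0 ^ p * MvPolynomial.X 1 := by
  rw [rho_apply, chi_wv']

theorem etac_specializes (c : Fin 2) : etac k p m (c + 1) ⤳ etac k p m c := by
  obtain ⟨q, hq'⟩ : ∃ q : PrimeSpectrum (C k m), jj k p m (c + 1) q = etac k p m c :=
    etac_mem k p m c
  rw [← hq']
  refine (etac_specializes_iff k p m (c + 1) q).2 ?_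
  have h1 : wv k p m (c + 1) ∈ (piY k p m (etac k p m c)).asIdeal := by
    rw [etac, piY_jj, PrimeSpectrum.comap_asIdeal, Ideal.mem_comap, rho_wv']
    exact Ideal.mul_mem_left _ _ (Ideal.mem_span_singleton_self _)
  rw [← hq', piY_jj, PrimeSpectrum.comap_asIdeal, Ideal.mem_comap, rho_wv] at h1
  exact h1

theorem etac_eq (c : Fin 2) : etac k p m c = etac k p m 0 := by
  have h01 : etac k p m 1 ⤳ etac k p m 0 := etac_specializes k p m 0
  have h10 : etac k p m 0 ⤳ etac k p m 1 := by
    have := etac_specializes k p m 1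
    exact this
  have h := (Specializes.antisymm h01 h10).eq
  fin_cases c
  · rfl
  · exact h

/-- the generic point of the exceptional divisor -/
noncomputable def eta : Y k p m := etac k p m 0

theorem eta_specializes_iff (c : Fin 2) (q : PrimeSpectrum (C k m)) :
    eta k p m ⤳ jj k p m c q ↔ MvPolynomial.X 1 ∈ q.asIdeal := by
  rw [eta, ← etac_eq k p m c, etac_specializes_iff]

theorem excLocus_eq (hExc : ∀ (c : Fin 2) (q : PrimeSpectrum (C k m)),
    jj k p m c q ∈ excLocus (piY k p m) ↔ MvPolynomial.X 1 ∈ q.asIdeal) :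
    excLocus (piY k p m) = closure {eta k p m} := by
  ext y
  obtain ⟨c, q, rfl⟩ : ∃ (c : Fin 2) (q : PrimeSpectrum (C k m)), jj k p m c q = y := by
    obtain ⟨c, q, hq⟩ := jj_cover k p m y
    exact ⟨c, q, hq⟩
  rw [hExc, ← specializes_iff_mem_closure, eta_specializes_iff]

theorem pderiv_X1 (q : PrimeSpectrum (C k m)) (_ : (MvPolynomial.X 1 : C k m) ∈ q.asIdeal) :
    MvPolynomial.pderiv (1 : Fin (m + 2)) (MvPolynomial.X 1 : C k m) ∉ q.asIdeal := by
  rw [MvPolynomial.pderiv_X_self]
  exact fun h => q.2.ne_top ((Ideal.eq_top_iff_one _).2 h)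

theorem snc_piY (hExc : ∀ (c : Fin 2) (q : PrimeSpectrum (C k m)),
    jj k p m c q ∈ excLocus (piY k p m) ↔ MvPolynomial.X 1 ∈ q.asIdeal) :
    IsSNC (excLocus (piY k p m)) := by
  rw [excLocus_eq k p m hExc]
  refine ⟨1, fun _ => eta k p m, (Set.iUnion_const _).symm, ?_⟩
  intro y
  obtain ⟨c, q, hq⟩ : ∃ (c : Fin 2) (q : PrimeSpectrum (C k m)), jj k p m c q = y := by
    obtain ⟨c, q, hq⟩ := jj_cover k p m y
    exact ⟨c, q, hq⟩
  have key : ∀ i : {i : Fin 1 // (fun _ => eta k p m) i ⤳ y},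
      ∃ t : IsLocalRing.maximalIdeal ((Y k p m).presheaf.stalk y),
        Ideal.span {(t : (Y k p m).presheaf.stalk y)} = primeAt i.2 ∧
        ((IsLocalRing.maximalIdeal ((Y k p m).presheaf.stalk y)).toCotangent t :
          IsLocalRing.CotangentSpace ((Y k p m).presheaf.stalk y)) ≠ 0 := fun i =>
    chart_snc (jj k p m c) (MvPolynomial.pderiv (1 : Fin (m + 2))) (MvPolynomial.X 1)
      (primeB k m) rfl (pderiv_X1 k m) i.2 q (etac_eq k p m c) hq
  choose t ht1 ht2 using key
  refine ⟨t, ht1, ?_⟩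
  rw [linearIndependent_subsingleton_index_iff]
  exact ht2

end FRCone
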