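import Pool.Agent.Lib.FR.Exc57
import Pool.Agent.Lib.FR.Snc20

set_option autoImplicit false

namespace FRCone

open AddMonoidAlgebra HomogeneousLocalization AlgebraicGeometry CategoryTheory
open Pool.Agent.Lib.FR (excLocus IsSNC)

universe u

variable (k : Type u) [Field k] (p m : ℕ)

/-- the exceptional locus in the chart `c` is `V(X_1)`. -/
theorem hExc57 (hp : 0 < p) (c : Fin 2) (q : PrimeSpectrum (C k m)) :
    jj k p m c q ∈ excLocus (piY k p m) ↔ MvPolynomial.X 1 ∈ q.asIdeal := by
  rw [jj_eq]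
  have h := mem_excLocus_iff k p m hp c (PrimeSpectrum.comap (Phi k p m c) q)
  rw [show fromZeroRingHom (G k p m) (Submonoid.powers (sv k p m c)) (wv k p m c) ∈
      (PrimeSpectrum.comap (Phi k p m c) q).asIdeal ↔ MvPolynomial.X 1 ∈ q.asIdeal by
    rw [PrimeSpectrum.comap_asIdeal, Ideal.mem_comap, Phi_zero, chi_wv]] at h
  exact h

theorem snc57 (hp : 0 < p) : IsSNC (excLocus (piY k p m)) :=
  snc_piY k p m (hExc57 k p m hp)

end FRCone
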