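import Mathlib
import Pool.Agent.Lib.FR.Defs

set_option autoImplicit false

/-! Room FORMS (MP_0afa72_ag), module M10 (helper88): valuative criterion in terms of local rings. -/

open CategoryTheory AlgebraicGeometry IsLocalRing

namespace Pool.Agent.Lib.FR

universe u

set_option backward.isDefEq.respectTransparency false in
/-- the morphism `Spec O_(Y,x) → Y → Spec R` is given by the obvious ring map. -/
theorem fromSpecStalk_comp_eq {R : Type u} [CommRing R] {Y : Scheme.{u}} (x : Y)
    (π : Y ⟶ Spec (CommRingCat.of R)) :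
    Y.fromSpecStalk x ≫ π =
      Spec.map ((Scheme.ΓSpecIso (CommRingCat.of R)).inv ≫ π.appTop ≫
        Y.presheaf.germ ⊤ x trivial) := by
  obtain ⟨φ, hφ⟩ := Spec.map_surjective (Y.fromSpecStalk x ≫ π)
  rw [← hφ]
  congr 1
  have h1 := Scheme.ΓSpecIso_naturality φ
  have h2 : (Y.fromSpecStalk x).appTop ≫ (Scheme.ΓSpecIso (Y.presheaf.stalk x)).hom =
      Y.presheaf.germ ⊤ x trivial := by
    rw [Scheme.fromSpecStalk_appTop]
    simp
  rw [hφ, Scheme.Hom.comp_appTop, Category.assoc, h2] at h1
  rw [h1, Iso.inv_hom_id_assoc]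

theorem M10 {R : Type u} [CommRing R] [IsDomain R] (V : ValuationSubring (FractionRing R))
    (hV : ∀ r : R, algebraMap R (FractionRing R) r ∈ V)
    (Y : Scheme.{u}) [IsIntegral Y] (π : Y ⟶ Spec (CommRingCat.of R)) [IsProper π]
    (e : FractionRing R ≃+* Y.functionField)
    (he : ∀ r : R, e (algebraMap R (FractionRing R) r) = toFunctionField π r) :
    ∃ y : Y, ∀ a : Y.presheaf.stalk y,
      e.symm (algebraMap (Y.presheaf.stalk y) Y.functionField a) ∈ V := by
  have hex : ValuativeCriterion.Existence π := by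
    have h1 : UniversallyClosed π := inferInstance
    rw [UniversallyClosed.eq_valuativeCriterion] at h1
    exact h1.1
  let K := FractionRing R
  let es : Y.presheaf.stalk (genericPoint Y) ⟶ CommRingCat.of K :=
    CommRingCat.ofHom e.symm.toRingHom
  let i : Spec (CommRingCat.of K) ⟶ Y := Spec.map es ≫ Y.fromSpecStalk (genericPoint Y)
  have hi : i ≫ π = Spec.map (CommRingCat.ofHom (algebraMap R K)) := by
    change (Spec.map es ≫ Y.fromSpecStalk (genericPoint Y)) ≫ π = _
    rw [Category.assoc, fromSpecStalk_comp_eq, ← Spec.map_comp]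
    congr 1
    ext r
    change e.symm (toFunctionField π r) = algebraMap R K r
    rw [← he r, e.symm_apply_apply]
  let ρ : R →+* V := (algebraMap R K).codRestrict V.toSubring hV
  have hρ : (algebraMap V K).comp ρ = algebraMap R K := by
    ext r; rfl
  let S : ValuativeCommSq π :=
    { R := V
      K := K
      i₁ := i
      i₂ := Spec.map (CommRingCat.ofHom ρ)
      commSq := ⟨by
        rw [hi, ← Spec.map_comp, ← CommRingCat.ofHom_comp, hρ]⟩ }
  obtain ⟨l, hl1, hl2⟩ := (hex S).exists_lift
  change Spec (CommRingCat.of V) ⟶ Y at l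
  change Spec.map (CommRingCat.ofHom (algebraMap V K)) ≫ l = i at hl1
  refine ⟨l (closedPoint V), fun a => ?_⟩
  have hsp : genericPoint Y ⤳ l (closedPoint V) := genericPoint_specializes _
  have key : Y.presheaf.stalkSpecializes hsp ≫ es =
      Scheme.stalkClosedPointTo l ≫ CommRingCat.ofHom (algebraMap V K) := by
    apply Spec.map_injective
    rw [← cancel_mono (Y.fromSpecStalk (l (closedPoint V)))]
    rw [Spec.map_comp, Spec.map_comp, Category.assoc, Category.assoc,
      Scheme.SpecMap_stalkSpecializes_fromSpecStalk, Scheme.Spec_stalkClosedPointTo_fromSpecStalk]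
    exact hl1.symm
  have h2 : e.symm (algebraMap (Y.presheaf.stalk (l (closedPoint V))) Y.functionField a) =
      (Y.presheaf.stalkSpecializes hsp ≫ es).hom a := rfl
  rw [h2, key]
  exact ((Scheme.stalkClosedPointTo l).hom a).2

end Pool.Agent.Lib.FR
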