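import Pool.Agent.Lib.FR.Defs
import Pool.Agent.Lib.FR.Dim26

set_option autoImplicit false
set_option linter.unusedSectionVars false

/-!
Room FORMS (MP_0afa72_ag), module M4: `R = k[X_0, ..., X_m, y] / (y ^ p - f)` has Krull dimension
`m + 1` and is a `k`-algebra of finite type.
-/

namespace Pool.Agent.Lib.FR

universe u

variable (p m : ℕ) [Fact p.Prime] (k : Type u) [Field k] [CharP k p]

theorem M4a : ringKrullDim (HS p m k) = (m + 1 : ℕ) :=
  Dim26.ringKrullDim_adjoinRoot_pow_sub (Fact.out : p.Prime).ne_zero (fpol p m k)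

theorem M4b : Algebra.FiniteType k (HS p m k) :=
  Dim26.finiteType_adjoinRoot_mvPolynomial (hpol p m k)

theorem M4c : IsNoetherianRing (HS p m k) :=
  Dim26.isNoetherianRing_adjoinRoot_mvPolynomial (hpol p m k)

end Pool.Agent.Lib.FR
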