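import Mathlib

/-!
The form `σ = f_n⁻¹ dX_1 ∧ … ∧ dX_{n-1}` on `y^p = f(X_1, …, X_n)`.
-/

set_option autoImplicit false

namespace Pool.Agent.Lib.FR.Sigma39

open scoped BigOperators

/-- the position of `j` in the list of the indices different from `i` -/
theorem exists_pos {m : ℕ} (i j : Fin (m + 1)) (h : j ≠ i) : ∃ a : Fin m, i.succAbove a = j :=
  Fin.exists_succAbove_eq h

/-- an injective map into the complement of `j` is `j.succAbove` up to a permutation -/
theorem exists_perm {m : ℕ} (j : Fin (m + 1)) (g : Fin m → Fin (m + 1))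
    (hg : Function.Injective g) (hj : ∀ a, g a ≠ j) :
    ∃ π : Equiv.Perm (Fin m), g = j.succAbove ∘ π := by
  choose π hπ using fun a => Fin.exists_succAbove_eq (hj a)
  have hinj : Function.Injective π := by
    intro a b hab
    apply hg
    rw [← hπ a, ← hπ b, hab]
  exact ⟨Equiv.ofBijective π (Finite.injective_iff_bijective.1 hinj), funext fun a =>
    (hπ a).symm⟩

/-- if `∑ c_i v_i = 0` then the forms `(-1)^i c_i⁻¹ v_0 ∧ … v̂_i … ∧ v_m` agree (up to sign) -/
theorem alternating_rel {K M N : Type*} [Field K] [AddCommGroup M] [Module K M]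
    [AddCommGroup N] [Module K N] {m : ℕ} (φ : M [⋀^Fin m]→ₗ[K] N) (v : Fin (m + 1) → M)
    (c : Fin (m + 1) → K) (h : ∑ i, c i • v i = 0) (i j : Fin (m + 1)) :
    ∃ ε : ℤˣ, c j • φ (v ∘ i.succAbove) = ε • c i • φ (v ∘ j.succAbove) := by
  classical
  by_cases hij : j = i
  · subst hij
    exact ⟨1, by rw [one_smul]⟩
  obtain ⟨a, ha⟩ := exists_pos i j hij
  -- the relation solved for `c j • v j`
  have h1 : c j • v j = -∑ l ∈ Finset.univ.erase j, c l • v l := by
    rw [← Finset.add_sum_erase _ _ (Finset.mem_univ j)] at h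
    exact eq_neg_of_add_eq_zero_left h
  have h2 : c j • φ (v ∘ i.succAbove) =
      φ (Function.update (v ∘ i.succAbove) a (c j • v j)) := by
    rw [AlternatingMap.map_update_smul]
    congr 2
    rw [← ha]
    exact (Function.update_eq_self a (v ∘ i.succAbove)).symm
  have h3 : φ (Function.update (v ∘ i.succAbove) a (∑ l ∈ Finset.univ.erase j, c l • v l)) =
      c i • φ (Function.update (v ∘ i.succAbove) a (v i)) := by
    rw [AlternatingMap.map_update_sum]
    rw [Finset.sum_eq_single i]
    · rw [AlternatingMap.map_update_smul]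
    · intro l hl hli
      rw [AlternatingMap.map_update_smul]
      obtain ⟨b, hb⟩ := exists_pos i l hli
      have hab : a ≠ b := by
        rintro rfl
        rw [ha] at hb
        exact (Finset.ne_of_mem_erase hl) hb.symm
      have : φ (Function.update (v ∘ i.succAbove) a (v l)) = 0 := by
        have e1 : v l = (v ∘ i.succAbove) b := by
          simp [hb]
        rw [e1]
        exact AlternatingMap.map_update_self _ _ hab
      rw [this, smul_zero]
    · intro hi
      exact absurd (Finset.mem_erase.2 ⟨fun h => hij h.symm, Finset.mem_univ _⟩) hi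
  -- the family with `v i` in place of `v j` is a permutation of the family without `v j`
  let g : Fin m → Fin (m + 1) := Function.update i.succAbove a i
  have hgv : Function.update (v ∘ i.succAbove) a (v i) = v ∘ g := by
    rw [Function.comp_update]
  have hg : Function.Injective g := by
    intro b b' hbb
    simp only [g, Function.update_apply] at hbb
    by_cases h1 : b = a <;> by_cases h2 : b' = a
    · rw [h1, h2]
    · rw [if_pos h1, if_neg h2] at hbb
      exact absurd hbb (Fin.succAbove_ne i b').symm
    · rw [if_neg h1, if_pos h2] at hbb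
      exact absurd hbb (Fin.succAbove_ne i b)
    · rw [if_neg h1, if_neg h2] at hbb
      exact Fin.succAbove_right_injective hbb
  have hgj : ∀ b, g b ≠ j := by
    intro b
    simp only [g, Function.update_apply]
    split_ifs with h1
    · exact fun h => hij h.symm
    · intro h2
      rw [← ha] at h2
      exact h1 (Fin.succAbove_right_injective h2)
  obtain ⟨π, hπ⟩ := exists_perm j g hg hgj
  refine ⟨-Equiv.Perm.sign π, ?_⟩
  rw [h2, h1, AlternatingMap.map_update_neg, h3, hgv, hπ, ← Function.comp_assoc,
    AlternatingMap.map_perm, Units.neg_smul, smul_comm]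

/-- chain rule for polynomials -/
theorem d_aeval {k K : Type*} [Field k] [Field K] [Algebra k K] {σ : Type*} [Fintype σ]
    (x : σ → K) (f : MvPolynomial σ k) :
    KaehlerDifferential.D k K (MvPolynomial.aeval x f) =
      ∑ i, MvPolynomial.aeval x (MvPolynomial.pderiv i f) • KaehlerDifferential.D k K (x i) := by
  classical
  induction f using MvPolynomial.induction_on with
  | C a => simp [MvPolynomial.pderiv_C]
  | add f g hf hg => simp only [map_add, hf, hg, add_smul, Finset.sum_add_distrib]
  | mul_X f j hf =>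
    simp only [map_mul, MvPolynomial.aeval_X, Derivation.leibniz, hf, map_add, smul_eq_mul,
      MvPolynomial.pderiv_X, add_smul, Finset.sum_add_distrib, Finset.smul_sum]
    congr 1
    · rw [Finset.sum_eq_single j]
      · simp
      · intro i _ hij
        simp [Pi.single_apply, hij.symm, Ne.symm hij]
      · intro h; exact absurd (Finset.mem_univ j) h
    · apply Finset.sum_congr rfl
      intro i _
      rw [smul_smul]

/-- the relation `∑ f_i dX_i = 0` on `y^p = f` -/
theorem sum_relation {k K : Type*} [Field k] [Field K] [Algebra k K] {σ : Type*} [Fintype σ]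
    (p : ℕ) [CharP K p] (x : σ → K) (y : K) (f : MvPolynomial σ k)
    (hy : y ^ p = MvPolynomial.aeval x f) :
    ∑ i, MvPolynomial.aeval x (MvPolynomial.pderiv i f) • KaehlerDifferential.D k K (x i) = 0 := by
  rw [← d_aeval, ← hy, Derivation.leibniz_pow]
  have : (p : K) = 0 := CharP.cast_eq_zero K p
  rw [← Nat.cast_smul_eq_nsmul K, this, zero_smul]

/-- the `m`-forms of `K / k` which are regular over the subring `V`: sums of
`a ds_1 ∧ … ∧ ds_m`, `a, s_i ∈ V` -/
noncomputable def regForms (k : Type*) {K : Type*} [Field k] [Field K] [Algebra k K]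
    (V : Subring K) (m : ℕ) : AddSubgroup (⋀[K]^m (Ω[K⁄k])) :=
  AddSubgroup.closure {ω | ∃ (a : K) (s : Fin m → K), a ∈ V ∧ (∀ i, s i ∈ V) ∧
    ω = a • exteriorPower.ιMulti K m (fun i => KaehlerDifferential.D k K (s i))}

/-- the form `f_i⁻¹ dX_0 ∧ … d̂X_i … ∧ dX_m` -/
noncomputable def form (k : Type*) {K : Type*} [Field k] [Field K] [Algebra k K] {m : ℕ}
    (x : Fin (m + 1) → K) (f : MvPolynomial (Fin (m + 1)) k) (i : Fin (m + 1)) :
    ⋀[K]^m (Ω[K⁄k]) :=
  (MvPolynomial.aeval x (MvPolynomial.pderiv i f))⁻¹ •
    exteriorPower.ιMulti K m (fun a => KaehlerDifferential.D k K (x (i.succAbove a)))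

theorem form_eq {k K : Type*} [Field k] [Field K] [Algebra k K] (p : ℕ) [CharP K p] {m : ℕ}
    (x : Fin (m + 1) → K) (y : K) (f : MvPolynomial (Fin (m + 1)) k)
    (hy : y ^ p = MvPolynomial.aeval x f) (i j : Fin (m + 1))
    (hi : MvPolynomial.aeval x (MvPolynomial.pderiv i f) ≠ 0)
    (hj : MvPolynomial.aeval x (MvPolynomial.pderiv j f) ≠ 0) :
    form k x f i = form k x f j ∨ form k x f i = -form k x f j := by
  obtain ⟨ε, hε⟩ := alternating_rel (exteriorPower.ιMulti K m (M := Ω[K⁄k]))
    (fun a => KaehlerDifferential.D k K (x a))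
    (fun a => MvPolynomial.aeval x (MvPolynomial.pderiv a f))
    (sum_relation p x y f hy) i j
  simp only [Function.comp_def] at hε
  have h1 : form k x f i = ε • form k x f j := by
    unfold form
    rw [inv_smul_eq_iff₀ hi, ← inv_smul_smul₀ hj
      (exteriorPower.ιMulti K m fun a => KaehlerDifferential.D k K (x (i.succAbove a))), hε,
      smul_comm (MvPolynomial.aeval x (MvPolynomial.pderiv j f))⁻¹ ε,
      smul_comm (MvPolynomial.aeval x (MvPolynomial.pderiv i f)) ε,
      smul_comm (MvPolynomial.aeval x (MvPolynomial.pderiv j f))⁻¹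
        (MvPolynomial.aeval x (MvPolynomial.pderiv i f))]
  rcases Int.units_eq_one_or ε with h | h
  · left; rw [h1, h, one_smul]
  · right; rw [h1, h, Units.neg_smul, one_smul]

/-- `σ` is regular over every ring which contains the coordinates and the inverse of one of
the derivatives `f_j` of `f` -/
theorem form_mem_regForms {k K : Type*} [Field k] [Field K] [Algebra k K] (p : ℕ) [CharP K p]
    {m : ℕ} (x : Fin (m + 1) → K) (y : K) (f : MvPolynomial (Fin (m + 1)) k)
    (hy : y ^ p = MvPolynomial.aeval x f) (i : Fin (m + 1))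
    (hi : MvPolynomial.aeval x (MvPolynomial.pderiv i f) ≠ 0)
    (V : Subring K) (hx : ∀ a, x a ∈ V) (j : Fin (m + 1))
    (hj : MvPolynomial.aeval x (MvPolynomial.pderiv j f) ≠ 0)
    (hjV : (MvPolynomial.aeval x (MvPolynomial.pderiv j f))⁻¹ ∈ V) :
    form k x f i ∈ regForms k V m := by
  have h1 : form k x f j ∈ regForms k V m :=
    AddSubgroup.subset_closure ⟨_, fun a => x (j.succAbove a), hjV, fun a => hx _, rfl⟩
  rcases form_eq p x y f hy i j hi hj with h | h
  · rw [h]; exact h1
  · rw [h]; exact neg_mem h1

end Pool.Agent.Lib.FR.Sigma39
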