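import Pool.Agent.Lib.FR.Defs
import Pool.Agent.Lib.FR.Sigma39

/-!
Module M5 of room FORMS: the form `σ` is regular where some `∂f/∂X_i` does not vanish.
-/

set_option autoImplicit false

namespace Pool.Agent.Lib.FR.M5

open scoped BigOperators

/-- the derivatives of `f` in characteristic `p` -/
theorem pderiv_fpol (p m : ℕ) (k : Type*) [Field k] [CharP k p] (i : Fin (m + 1)) :
    MvPolynomial.pderiv i (fpol p m k) =
      ∏ j ∈ Finset.univ.erase i, MvPolynomial.X j + MvPolynomial.X i ^ (p * (m + 1)) := by
  classical
  unfold fpol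
  rw [map_add]
  congr 1
  · rw [← Finset.mul_prod_erase Finset.univ _ (Finset.mem_univ i), Derivation.leibniz,
      MvPolynomial.pderiv_X_self, smul_eq_mul, smul_eq_mul, mul_one]
    have h : ∀ s : Finset (Fin (m + 1)), i ∉ s →
        MvPolynomial.pderiv i (∏ j ∈ s, (MvPolynomial.X j : MvPolynomial (Fin (m + 1)) k)) = 0 := by
      intro s
      induction s using Finset.induction_on with
      | empty => intro _; simp
      | insert a s ha ih =>
        intro hi
        rw [Finset.mem_insert, not_or] at hi
        rw [Finset.prod_insert ha, Derivation.leibniz, ih hi.2,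
          MvPolynomial.pderiv_X_of_ne (Ne.symm hi.1), smul_zero, smul_zero, add_zero]
    rw [h _ (Finset.notMem_erase i _), mul_zero, zero_add]
  · rw [map_sum, Finset.sum_eq_single i]
    · rw [Derivation.leibniz_pow, MvPolynomial.pderiv_X_self, Nat.add_sub_cancel, smul_eq_mul,
        mul_one, nsmul_eq_mul]
      have h1 : ((p * (m + 1) + 1 : ℕ) : MvPolynomial (Fin (m + 1)) k) = 1 := by
        have h2 : ((p * (m + 1) + 1 : ℕ) : k) = 1 := by
          push_cast
          rw [CharP.cast_eq_zero k p, zero_mul, zero_add]
        rw [← map_natCast (MvPolynomial.C (R := k) (σ := Fin (m + 1))), h2, map_one]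
      rw [h1, one_mul]
    · intro j _ hj
      rw [Derivation.leibniz_pow, MvPolynomial.pderiv_X_of_ne hj, smul_zero, smul_zero]
    · intro h
      exact absurd (Finset.mem_univ i) h

end Pool.Agent.Lib.FR.M5

namespace Pool.Agent.Lib.FR

universe u

section fixed

variable (p m : ℕ) [Fact p.Prime] (k : Type u) [Field k] [CharP k p]

/-- `σ` is regular at the points where `∂f/∂X_i ≠ 0` -/
theorem M5 (hm : 1 ≤ m) [IsDomain (HS p m k)] (P : PrimeSpectrum (HS p m k))
    (i : Fin (m + 1)) (hi : ff p m k i ∉ P.asIdeal) :
    RegularOver (algebraMap (Localization.AtPrime P.asIdeal) (FractionRing (HS p m k)))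
      (sigma p m k) := by
  classical
  have _ : CharP (FractionRing (HS p m k)) p :=
    charP_of_injective_algebraMap (algebraMap k (FractionRing (HS p m k))).injective p
  set g : HS p m k →+* FractionRing (HS p m k) := algebraMap _ _ with hg
  let x : Fin (m + 1) → FractionRing (HS p m k) := fun a => g (xx p m k a)
  have haev : ∀ q : MvPolynomial (Fin (m + 1)) k,
      MvPolynomial.aeval x q = g (AdjoinRoot.of (hpol p m k) q) := by
    intro q
    have h1 : (MvPolynomial.aeval x : MvPolynomial (Fin (m + 1)) k →ₐ[k] _) =
        ((Algebra.ofId (HS p m k) (FractionRing (HS p m k))).restrictScalars k).comp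
          (IsScalarTower.toAlgHom k (MvPolynomial (Fin (m + 1)) k) (HS p m k)) := by
      apply MvPolynomial.algHom_ext
      intro a
      simp [x, g, xx, Algebra.ofId_apply]
    rw [h1]
    rfl
  have hy : g (yy p m k) ^ p = MvPolynomial.aeval x (fpol p m k) := by
    rw [haev, ← map_pow]
    congr 1
    have h2 := AdjoinRoot.eval₂_root (hpol p m k)
    unfold hpol at h2
    rw [Polynomial.eval₂_sub, Polynomial.eval₂_pow, Polynomial.eval₂_X, Polynomial.eval₂_C,
      sub_eq_zero] at h2
    exact h2
  have hff : ∀ a, MvPolynomial.aeval x (MvPolynomial.pderiv a (fpol p m k)) =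
      g (ff p m k a) := by
    intro a
    rw [M5.pderiv_fpol]
    simp only [ff, map_add, map_prod, map_pow, MvPolynomial.aeval_X, x]
  have hσ : sigma p m k = Sigma39.form k x (fpol p m k) (Fin.last m) := by
    unfold sigma Sigma39.form
    rw [hff, Fin.succAbove_last]
  by_cases h0 : g (ff p m k (Fin.last m)) = 0
  · unfold sigma
    rw [← hg, h0, inv_zero, zero_smul]
    exact zero_mem _
  · have hfi : g (ff p m k i) ≠ 0 := by
      intro h
      have h3 : ff p m k i = 0 :=
        (IsFractionRing.injective (HS p m k) (FractionRing (HS p m k))) (h.trans (map_zero g).symm)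
      exact hi (h3 ▸ zero_mem _)
    have hmem : sigma p m k ∈ Sigma39.regForms k
        (algebraMap (Localization.AtPrime P.asIdeal) (FractionRing (HS p m k))).range m := by
      rw [hσ]
      refine Sigma39.form_mem_regForms p x (g (yy p m k)) (fpol p m k) hy (Fin.last m)
        (by rw [hff]; exact h0) _ ?_ i (by rw [hff]; exact hfi) ?_
      · intro a
        refine ⟨algebraMap (HS p m k) _ (xx p m k a), ?_⟩
        rw [← IsScalarTower.algebraMap_apply]
      · rw [hff]
        refine ⟨IsLocalization.mk' (Localization.AtPrime P.asIdeal) 1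
          (⟨ff p m k i, hi⟩ : P.asIdeal.primeCompl), ?_⟩
        apply eq_inv_of_mul_eq_one_left
        have h4 : g (ff p m k i) = algebraMap (Localization.AtPrime P.asIdeal) _
            (algebraMap (HS p m k) _ (ff p m k i)) := by
          rw [← IsScalarTower.algebraMap_apply]
        rw [h4, ← map_mul]
        have h5 := IsLocalization.mk'_spec (Localization.AtPrime P.asIdeal) (1 : HS p m k)
          (⟨ff p m k i, hi⟩ : P.asIdeal.primeCompl)
        simp only at h5
        rw [h5, map_one, map_one]
    refine AddSubgroup.closure_mono ?_ hmem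
    rintro ω ⟨a, s, ⟨a', rfl⟩, hs, rfl⟩
    choose s' hs' using hs
    refine ⟨a', s', ?_⟩
    simp only [hs']

end fixed

end Pool.Agent.Lib.FR
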