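import Pool.Agent.Lib.FR.Defs

set_option autoImplicit false

/-!
Room FORMS, module M6: at a point of the smooth locus of `y ^ p = f` some `∂f/∂X_i` does not vanish.

Write `R = B/(h)`. If `R_P` is formally smooth over `k`, the surjection `C/(h²) → C/(h)`
(`C` the localization of `B` at the preimage of `P`) has a section over `R_P`. It sends `X_i` to
`X_i + a_i h` and `y` to `y + b h`, so `0 = (y + b h)^p - f(X + a h) = h (1 - ∑ a_i ∂f/∂X_i)`
modulo `h²`, and `1 - ∑ a_i ∂f/∂X_i` is divisible by `h` in `C`.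
-/

namespace Pool.Agent.Lib.FR

universe u v

namespace M6_

/-- the lifting property of `R_P`, `R = B/(h)` -/
theorem exists_lift {k B R C : Type*} [CommRing k] [CommRing B] [CommRing R] [CommRing C]
    [Algebra k B] [Algebra k R] [Algebra k C] (π : B →ₐ[k] R) (hπ : Function.Surjective π) (h : B)
    (hker : ∀ b, π b = 0 → h ∣ b) (P : Ideal R) [P.IsPrime]
    [Algebra.FormallySmooth k (Localization.AtPrime P)]
    (τ : B →ₐ[k] C) (hτ : ∀ b, π b ∉ P → IsUnit (τ b)) :
    ∃ (I : Ideal C) (g : R →ₐ[k] C ⧸ I), I = Ideal.span {τ h ^ 2} ∧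
      ∀ b, ∃ c : C, g (π b) = Ideal.Quotient.mk I (τ b + c * τ h) := by
  obtain ⟨I, hI⟩ : ∃ I : Ideal C, I = Ideal.span {τ h ^ 2} := ⟨_, rfl⟩
  set J : Ideal (C ⧸ I) := Ideal.span {Ideal.Quotient.mk I (τ h)} with hJ
  have hJ2 : IsNilpotent J := by
    refine ⟨2, ?_⟩
    rw [hJ, Ideal.span_singleton_pow, ← map_pow]
    have : Ideal.Quotient.mk I (τ h ^ 2) = 0 :=
      Ideal.Quotient.eq_zero_iff_mem.2 (hI ▸ Ideal.mem_span_singleton_self _)
    rw [this]
    simp
  let φ0 : B →ₐ[k] (C ⧸ I) ⧸ J :=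
    (Ideal.Quotient.mkₐ k J).comp ((Ideal.Quotient.mkₐ k I).comp τ)
  have hφ0 : ∀ b, φ0 b = Ideal.Quotient.mk J (Ideal.Quotient.mk I (τ b)) := fun b => rfl
  have hφh : φ0 h = 0 := by
    rw [hφ0]
    exact Ideal.Quotient.eq_zero_iff_mem.2 (Ideal.mem_span_singleton_self _)
  have hk : ∀ b, π b = 0 → φ0 b = 0 := by
    intro b hb
    obtain ⟨c, rfl⟩ := hker b hb
    rw [map_mul, hφh, zero_mul]
  let φ1 : R →ₐ[k] (C ⧸ I) ⧸ J :=
    (Ideal.Quotient.liftₐ (RingHom.ker π) φ0 (fun b hb => hk b hb)).comp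
      (Ideal.quotientKerAlgEquivOfSurjective hπ).symm.toAlgHom
  have hφ1 : ∀ b, φ1 (π b) = φ0 b := by
    intro b
    have e : (Ideal.quotientKerAlgEquivOfSurjective hπ).symm (π b) =
        Ideal.Quotient.mk (RingHom.ker π) b := by
      rw [AlgEquiv.symm_apply_eq]
      rfl
    change Ideal.Quotient.liftₐ (RingHom.ker π) φ0 (fun b hb => hk b hb)
      ((Ideal.quotientKerAlgEquivOfSurjective hπ).symm (π b)) = φ0 b
    rw [e]
    rfl
  have hu : ∀ y : P.primeCompl, IsUnit (φ1 (y : R)) := by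
    rintro ⟨y, hy⟩
    obtain ⟨b, rfl⟩ := hπ y
    change IsUnit (φ1 (π b))
    rw [hφ1]
    exact ((hτ b hy).map (Ideal.Quotient.mk I)).map (Ideal.Quotient.mk J)
  let φ : Localization.AtPrime P →ₐ[k] (C ⧸ I) ⧸ J := IsLocalization.liftAlgHom (f := φ1) hu
  have hφ : ∀ r : R, φ (algebraMap R _ r) = φ1 r := fun r => IsLocalization.lift_eq _ r
  obtain ⟨g, hg⟩ := Algebra.FormallySmooth.exists_lift J hJ2 φ
  refine ⟨I, g.comp (IsScalarTower.toAlgHom k R (Localization.AtPrime P)), hI, fun b => ?_⟩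
  have e1 : Ideal.Quotient.mk J (g (algebraMap R _ (π b))) =
      Ideal.Quotient.mk J (Ideal.Quotient.mk I (τ b)) := by
    have := AlgHom.congr_fun hg (algebraMap R _ (π b))
    rw [hφ, hφ1, hφ0] at this
    exact this
  rw [Ideal.Quotient.eq, hJ, Ideal.mem_span_singleton] at e1
  obtain ⟨c, hc⟩ := e1
  obtain ⟨c, rfl⟩ := Ideal.Quotient.mk_surjective c
  refine ⟨c, ?_⟩
  change g (algebraMap R _ (π b)) = _
  rw [map_add, map_mul, ← sub_eq_iff_eq_add', hc, mul_comm]

/-- first order expansion of a product -/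
theorem prod_add {A ι : Type*} [CommRing A] [DecidableEq ι] (s : Finset ι) (u e : ι → A)
    (he : ∀ i j, e i * e j = 0) :
    ∏ i ∈ s, (u i + e i) = ∏ i ∈ s, u i + ∑ i ∈ s, e i * ∏ j ∈ s.erase i, u j := by
  induction s using Finset.induction_on with
  | empty => simp
  | insert a s ha ih =>
    rw [Finset.prod_insert ha, Finset.prod_insert ha, Finset.sum_insert ha, ih,
      Finset.erase_insert ha]
    have h1 : ∑ i ∈ s, e i * ∏ j ∈ (insert a s).erase i, u j =
        u a * ∑ i ∈ s, e i * ∏ j ∈ s.erase i, u j := by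
      rw [Finset.mul_sum]
      refine Finset.sum_congr rfl fun i hi => ?_
      have hai : a ≠ i := fun h => ha (h ▸ hi)
      rw [Finset.erase_insert_of_ne hai, Finset.prod_insert (fun h => ha (Finset.mem_of_mem_erase h))]
      ring
    have h2 : e a * ∑ i ∈ s, e i * ∏ j ∈ s.erase i, u j = 0 := by
      rw [Finset.mul_sum]
      refine Finset.sum_eq_zero fun i _ => ?_
      rw [← mul_assoc, he, zero_mul]
    rw [h1, add_mul, mul_add, mul_add, h2]
    ring

/-- first order expansion of a power -/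
theorem pow_add {A : Type*} [CommRing A] (u e : A) (he : e * e = 0) (n : ℕ) :
    (u + e) ^ n = u ^ n + n * u ^ (n - 1) * e := by
  obtain ⟨c, hc⟩ := Polynomial.powAddExpansion u e n
  rw [hc, pow_two, he, mul_zero, add_zero]

/-- first order expansion of `fpol` -/
theorem fpol_add {A ι : Type*} [CommRing A] [Fintype ι] [DecidableEq ι] (p N : ℕ) (hp : (p : A) = 0)
    (u e : ι → A) (he : ∀ i j, e i * e j = 0) :
    ∏ i, (u i + e i) + ∑ i, (u i + e i) ^ (p * N + 1) =
      ∏ i, u i + ∑ i, u i ^ (p * N + 1) +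
        ∑ i, e i * (∏ j ∈ Finset.univ.erase i, u j + u i ^ (p * N)) := by
  have h1 : ∀ i, (u i + e i) ^ (p * N + 1) = u i ^ (p * N + 1) + e i * u i ^ (p * N) := by
    intro i
    rw [pow_add _ _ (he i i), Nat.add_sub_cancel]
    push_cast
    rw [hp]
    ring
  rw [prod_add _ _ _ he, Finset.sum_congr rfl (fun i _ => h1 i), Finset.sum_add_distrib]
  simp only [mul_add, Finset.sum_add_distrib]
  ring

/-- the main computation -/
theorem core {k B R C ι : Type*} [CommRing k] [CommRing B] [CommRing R] [CommRing C]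
    [Algebra k B] [Algebra k R] [Algebra k C] [IsDomain C] [IsLocalRing C] [Fintype ι]
    [DecidableEq ι] (p N : ℕ) [CharP k p]
    (π : B →ₐ[k] R) (hπ : Function.Surjective π) (X : ι → B) (Y : B) (h : B)
    (hh : h = Y ^ p - (∏ i, X i + ∑ i, X i ^ (p * N + 1)))
    (hker : ∀ b, π b = 0 → h ∣ b) (hh0 : π h = 0) (P : Ideal R) [P.IsPrime]
    [Algebra.FormallySmooth k (Localization.AtPrime P)]
    (τ : B →ₐ[k] C) (hτ : ∀ b, π b ∉ P → IsUnit (τ b))
    (hτm : ∀ b, π b ∈ P → τ b ∈ IsLocalRing.maximalIdeal C) (hτ0 : τ h ≠ 0) :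
    ∃ i, ∏ j ∈ Finset.univ.erase i, π (X j) + π (X i) ^ (p * N) ∉ P := by
  by_contra hcon
  push Not at hcon
  obtain ⟨I, g, hI, hg⟩ := exists_lift π hπ h hker P τ hτ
  obtain ⟨H, hH⟩ : ∃ H : C, H = τ h := ⟨_, rfl⟩
  rw [← hH] at hI hg hτ0
  choose a ha using fun i : ι => hg (X i)
  obtain ⟨b, hb⟩ := hg Y
  have hFm : ∀ i, ∏ j ∈ Finset.univ.erase i, τ (X j) + τ (X i) ^ (p * N) ∈
      IsLocalRing.maximalIdeal C := by
    intro i
    have := hτm (∏ j ∈ Finset.univ.erase i, X j + X i ^ (p * N)) (by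
      rw [map_add, map_prod, map_pow]
      exact hcon i)
    rwa [map_add, map_prod, map_pow] at this
  have hHm : H ∈ IsLocalRing.maximalIdeal C := by
    rw [hH]
    exact hτm _ (by rw [hh0]; exact zero_mem _)
  have hpD : (p : C ⧸ I) = 0 := by
    rw [← map_natCast (algebraMap k (C ⧸ I)) p, CharP.cast_eq_zero k p, map_zero]
  have hHH : Ideal.Quotient.mk I H * Ideal.Quotient.mk I H = 0 := by
    rw [← map_mul, ← pow_two]
    exact Ideal.Quotient.eq_zero_iff_mem.2 (hI ▸ Ideal.mem_span_singleton_self _)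
  have key : Ideal.Quotient.mk I (H * (1 - ∑ i, a i *
      (∏ j ∈ Finset.univ.erase i, τ (X j) + τ (X i) ^ (p * N)))) = 0 := by
    have e0 : g (π h) = 0 := by rw [hh0, map_zero]
    have e1 : g (π h) = g (π Y) ^ p -
        (∏ i, g (π (X i)) + ∑ i, g (π (X i)) ^ (p * N + 1)) := by
      rw [hh]
      simp only [map_sub, map_pow, map_add, map_prod, map_sum]
    rw [e1, hb] at e0
    simp only [ha, map_add, map_mul] at e0
    rw [fpol_add p N hpD, pow_add, hpD, zero_mul, zero_mul, add_zero] at e0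
    · have e2 : Ideal.Quotient.mk I H = Ideal.Quotient.mk I (τ Y) ^ p -
          (∏ i, Ideal.Quotient.mk I (τ (X i)) +
            ∑ i, Ideal.Quotient.mk I (τ (X i)) ^ (p * N + 1)) := by
        rw [hH, hh]
        simp only [map_sub, map_pow, map_add, map_prod, map_sum]
      rw [← sub_sub, ← e2] at e0
      simp only [mul_sub, mul_one, map_sub, map_mul, map_add, map_prod, map_sum, map_pow,
        Finset.mul_sum]
      rw [← e0]
      congr 1
      refine Finset.sum_congr rfl fun i _ => ?_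
      ring
    · linear_combination (Ideal.Quotient.mk I b ^ 2) * hHH
    · intro i j
      linear_combination (Ideal.Quotient.mk I (a i) * Ideal.Quotient.mk I (a j)) * hHH
  have h1 := Ideal.Quotient.eq_zero_iff_mem.1 key
  rw [hI, Ideal.mem_span_singleton] at h1
  obtain ⟨c, hc⟩ := h1
  rw [pow_two, mul_assoc] at hc
  have h2 := mul_left_cancel₀ hτ0 hc
  have h3 : (1 : C) ∈ IsLocalRing.maximalIdeal C := by
    have : (1 : C) = H * c + ∑ i, a i *
      (∏ j ∈ Finset.univ.erase i, τ (X j) + τ (X i) ^ (p * N)) := by rw [← h2]; ring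
    rw [this]
    exact Ideal.add_mem _ (Ideal.mul_mem_right _ _ hHm)
      (Ideal.sum_mem _ fun i _ => Ideal.mul_mem_left _ _ (hFm i))
  exact (Ideal.ne_top_iff_one _).1 (IsLocalRing.maximalIdeal.isMaximal C).ne_top h3

end M6_

variable (p m : ℕ) [Fact p.Prime] (k : Type u) [Field k] [CharP k p]

theorem M6 (P : PrimeSpectrum (HS p m k)) (hP : P ∈ Algebra.smoothLocus k (HS p m k)) :
    ∃ i, ff p m k i ∉ P.asIdeal := by
  -- the ambient ring
  let π : Polynomial (MvPolynomial (Fin (m + 1)) k) →ₐ[k] HS p m k :=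
    Ideal.Quotient.mkₐ k (Ideal.span {hpol p m k})
  have hπ : Function.Surjective π := Ideal.Quotient.mkₐ_surjective _ _
  have hπ0 : ∀ b, π b = 0 → hpol p m k ∣ b := by
    intro b hb
    exact Ideal.mem_span_singleton.1 (Ideal.Quotient.eq_zero_iff_mem.1 hb)
  have hh : π (hpol p m k) = 0 := Ideal.Quotient.eq_zero_iff_mem.2 (Ideal.mem_span_singleton_self _)
  have hQ : (P.asIdeal.comap π).IsPrime := Ideal.IsPrime.comap π
  have hCd : IsDomain (Localization.AtPrime (P.asIdeal.comap π)) :=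
    IsLocalization.isDomain_localization (P.asIdeal.comap π).primeCompl_le_nonZeroDivisors
  have hfs : Algebra.FormallySmooth k (Localization.AtPrime P.asIdeal) := hP
  refine M6_.core (C := Localization.AtPrime (P.asIdeal.comap π)) p (m + 1) π hπ
    (fun i => Polynomial.C (MvPolynomial.X i)) Polynomial.X (hpol p m k) ?_ hπ0 hh P.asIdeal
    (IsScalarTower.toAlgHom k (Polynomial (MvPolynomial (Fin (m + 1)) k))
      (Localization.AtPrime (P.asIdeal.comap π))) ?_ ?_ ?_
  · rw [hpol, fpol]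
    simp only [map_add, map_prod, map_sum, map_pow]
  · intro b hb
    exact IsLocalization.map_units (Localization.AtPrime (P.asIdeal.comap π))
      (⟨b, hb⟩ : (P.asIdeal.comap π).primeCompl)
  · intro b hb
    exact (IsLocalization.AtPrime.to_map_mem_maximal_iff
      (Localization.AtPrime (P.asIdeal.comap π)) (P.asIdeal.comap π) b).2 hb
  · have hne : hpol p m k ≠ 0 := by
      have : (hpol p m k).Monic := Polynomial.monic_X_pow_sub_C _ (Fact.out : p.Prime).ne_zero
      exact this.ne_zero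
    have hinj : Function.Injective (algebraMap (Polynomial (MvPolynomial (Fin (m + 1)) k))
        (Localization.AtPrime (P.asIdeal.comap π))) :=
      IsLocalization.injective (Localization.AtPrime (P.asIdeal.comap π))
        (P.asIdeal.comap π).primeCompl_le_nonZeroDivisors
    intro h0
    exact hne (hinj (h0.trans (map_zero _).symm))

end Pool.Agent.Lib.FR
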