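import Pool.Agent.Lib.FR.Defs

set_option autoImplicit false

/-!
Room FORMS (MP_0afa72_ag), module M7 (helper94): the points of `y ^ p = f` where some
`df/dX_i` does not vanish are smooth; for `f = X_0 ... X_m + sum X_i ^ a` the primes which
contain all the `df/dX_i` are maximal.
-/

open MvPolynomial

namespace Pool.Agent.Lib.FR.M7


section Smooth

variable {k : Type*} [Field k] {n : ℕ}

/-- the polynomial `y ^ p - f` over `k[X_1, .., X_n]` -/
noncomputable abbrev hypPoly (p : ℕ) (f : MvPolynomial (Fin n) k) :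
    Polynomial (MvPolynomial (Fin n) k) :=
  Polynomial.X ^ p - Polynomial.C f

/-- the same polynomial in `n + 1` variables -/
noncomputable def G (p : ℕ) (f : MvPolynomial (Fin n) k) : MvPolynomial (Option (Fin n)) k :=
  X none ^ p - rename some f

lemma optionEquivLeft_rename (f : MvPolynomial (Fin n) k) :
    optionEquivLeft k (Fin n) (rename some f) = Polynomial.C f := by
  induction f using MvPolynomial.induction_on with
  | C a => simp [optionEquivLeft_C]
  | add p q hp hq => simp only [map_add, hp, hq]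
  | mul_X p i hp => simp only [map_mul, hp, rename_X, optionEquivLeft_X_some]

lemma optionEquivLeft_G (p : ℕ) (f : MvPolynomial (Fin n) k) :
    optionEquivLeft k (Fin n) (G p f) = hypPoly p f := by
  simp only [G, map_sub, map_pow, optionEquivLeft_X_none, optionEquivLeft_rename, hypPoly]

noncomputable def e (p : ℕ) (f : MvPolynomial (Fin n) k) :
    (MvPolynomial (Option (Fin n)) k ⧸ Ideal.span (Set.range (fun _ : Unit => G p f))) ≃ₐ[k]
      AdjoinRoot (hypPoly p f) :=
  Ideal.quotientEquivAlg _ _ (optionEquivLeft k (Fin n)) (by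
    rw [Ideal.map_span, Set.range_const, Set.image_singleton]
    congr 2
    exact (optionEquivLeft_G p f).symm)

lemma e_mk (p : ℕ) (f : MvPolynomial (Fin n) k) (x : MvPolynomial (Option (Fin n)) k) :
    e p f (Ideal.Quotient.mk _ x) = AdjoinRoot.mk (hypPoly p f) (optionEquivLeft k (Fin n) x) :=
  rfl

noncomputable def P0 (p : ℕ) (f : MvPolynomial (Fin n) k) (i : Fin n) :
    Algebra.PreSubmersivePresentation k
      (MvPolynomial (Option (Fin n)) k ⧸ Ideal.span (Set.range (fun _ : Unit => G p f)))
      (Option (Fin n)) Unit :=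
  Algebra.PreSubmersivePresentation.naive (v := fun _ : Unit => G p f) (fun _ => some i)
    (fun _ _ _ => rfl)

lemma pderiv_G (p : ℕ) (f : MvPolynomial (Fin n) k) (i : Fin n) :
    pderiv (some i) (G p f) = - rename some (pderiv i f) := by
  have h : pderiv (some i) (X none ^ p : MvPolynomial (Option (Fin n)) k) = 0 := by
    rw [Derivation.leibniz_pow, pderiv_X_of_ne (by simp)]; simp
  rw [G, map_sub, h, zero_sub, pderiv_rename (Option.some_injective _)]

lemma jac0 (p : ℕ) (f : MvPolynomial (Fin n) k) (i : Fin n) :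
    (P0 p f i).jacobian = Ideal.Quotient.mk _ (- rename some (pderiv i f)) := by
  rw [Algebra.PreSubmersivePresentation.jacobian_eq_jacobiMatrix_det, Matrix.det_unique]
  have h := Algebra.PreSubmersivePresentation.jacobiMatrix_naive (v := fun _ : Unit => G p f)
    (fun _ => some i) (fun _ _ _ => rfl) (Function.surjInv Ideal.Quotient.mk_surjective)
    (Function.surjInv_eq _) () ()
  rw [← pderiv_G, ← h]
  rfl

/-- the hypersurface `y ^ p = f` is smooth over `k` where `∂ f / ∂ X_i` is invertible -/
theorem smooth_away (p : ℕ) (f : MvPolynomial (Fin n) k) (i : Fin n) :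
    Algebra.Smooth k (Localization.Away (AdjoinRoot.of (hypPoly p f) (pderiv i f))) := by
  set r := AdjoinRoot.of (hypPoly p f) (pderiv i f) with hr
  have hj : ((P0 p f i).ofAlgEquiv (e p f)).jacobian = - r := by
    rw [Algebra.PreSubmersivePresentation.jacobian_ofAlgEquiv, jac0, e_mk, map_neg, map_neg,
      optionEquivLeft_rename]
    rfl
  let P : Algebra.SubmersivePresentation k (Localization.Away r) (Unit ⊕ Option (Fin n))
      (Unit ⊕ Unit) :=
    { (Algebra.PreSubmersivePresentation.localizationAway (Localization.Away r) r).comp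
        ((P0 p f i).ofAlgEquiv (e p f)) with
      jacobian_isUnit := by
        rw [Algebra.PreSubmersivePresentation.comp_jacobian_eq_jacobian_smul_jacobian, hj,
          Algebra.PreSubmersivePresentation.localizationAway_jacobian, Algebra.smul_def, map_neg]
        exact (IsLocalization.Away.algebraMap_isUnit r).neg.mul
          (IsLocalization.Away.algebraMap_isUnit r) }
  have : Algebra.IsStandardSmooth k (Localization.Away r) :=
    ⟨_, _, inferInstance, inferInstance, ⟨P⟩⟩
  infer_instance

instance (p : ℕ) (f : MvPolynomial (Fin n) k) :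
    Algebra.FinitePresentation k (AdjoinRoot (hypPoly p f)) := by
  have : Algebra.FinitePresentation k
      (MvPolynomial (Option (Fin n)) k ⧸ Ideal.span (Set.range (fun _ : Unit => G p f))) :=
    Algebra.FinitePresentation.quotient ⟨{G p f}, by simp⟩
  exact Algebra.FinitePresentation.equiv (e p f)

theorem isSmoothAt (p : ℕ) (f : MvPolynomial (Fin n) k) (i : Fin n)
    (P : Ideal (AdjoinRoot (hypPoly p f))) [P.IsPrime]
    (h : AdjoinRoot.of (hypPoly p f) (pderiv i f) ∉ P) :
    Algebra.IsSmoothAt k P := by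
  have := (Algebra.basicOpen_subset_smoothLocus_iff_smooth (R := k)
    (f := AdjoinRoot.of (hypPoly p f) (pderiv i f))).2 (smooth_away p f i)
  exact this (a := ⟨P, inferInstance⟩) h

end Smooth

section Critical

variable {k : Type*} [Field k] [IsAlgClosed k] {n : ℕ}

lemma mem_range_of_isIntegral {D : Type*} [CommRing D] [IsDomain D] [Algebra k D] {x : D}
    (hi : IsIntegral k x) : ∃ z : k, algebraMap k D z = x := by
  have hq : (minpoly k x).leadingCoeff = 1 := minpoly.monic hi
  have h : (minpoly k x).degree = 1 :=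
    IsAlgClosed.degree_eq_one_of_irreducible k (minpoly.irreducible hi)
  have h2 : Polynomial.aeval x (minpoly k x) = 0 := minpoly.aeval k x
  rw [Polynomial.eq_X_add_C_of_degree_eq_one h, hq, Polynomial.C_1, one_mul, Polynomial.aeval_add,
    Polynomial.aeval_X, Polynomial.aeval_C, add_eq_zero_iff_eq_neg] at h2
  exact ⟨-(minpoly k x).coeff 0, by rw [map_neg]; exact h2.symm⟩

/-- in a domain over an algebraically closed field an `m`-th root of a constant is a constant -/
lemma mem_range_of_pow {D : Type*} [CommRing D] [IsDomain D] [Algebra k D] {x : D} {m : ℕ}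
    (hm : 0 < m) {c : k} (h : x ^ m = algebraMap k D c) : ∃ z : k, algebraMap k D z = x :=
  mem_range_of_isIntegral ⟨_, Polynomial.monic_X_pow_sub_C c hm.ne', by simp [h]⟩

lemma crit {D : Type*} [CommRing D] [IsDomain D] [Algebra k D] (x : Fin n → D) {a : ℕ}
    (ha : n < a) (h : ∀ i, x i ^ a = - ∏ j, x j) (i : Fin n) : ∃ z : k, algebraMap k D z = x i := by
  have ha0 : 0 < a := by omega
  have h1 : (∏ j, x j) ^ n * ((∏ j, x j) ^ (a - n) - (-1) ^ n) = 0 := by
    have h2 : (∏ j, x j) ^ a = (- ∏ j, x j) ^ n := by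
      rw [← Finset.prod_pow, Finset.prod_congr rfl fun j _ => h j, Finset.prod_const]
      simp
    rw [mul_sub, ← pow_add, Nat.add_sub_cancel' ha.le, h2, neg_pow]
    ring
  rcases mul_eq_zero.1 h1 with h2 | h2
  · have h3 : ∏ j, x j = 0 := eq_zero_of_pow_eq_zero h2
    have h4 := h i
    rw [h3, neg_zero] at h4
    exact ⟨0, by rw [map_zero, eq_zero_of_pow_eq_zero h4]⟩
  · have h3 : (∏ j, x j) ^ (a - n) = algebraMap k D ((-1) ^ n) := by
      rw [map_pow, map_neg, map_one]; exact sub_eq_zero.1 h2
    obtain ⟨z, hz⟩ := mem_range_of_pow (by omega) h3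
    refine mem_range_of_pow (c := -z) ha0 ?_
    rw [h i, map_neg, hz]

variable {p : ℕ}

/-- `f = X_1 ... X_n + X_1 ^ a + ... + X_n ^ a` -/
noncomputable def poly (k : Type*) [Field k] (n a : ℕ) : MvPolynomial (Fin n) k :=
  ∏ i, X i + ∑ i, X i ^ a

omit [IsAlgClosed k] in
lemma X_mul_pderiv_prod (i : Fin n) :
    X i * pderiv i (∏ j, X j : MvPolynomial (Fin n) k) = ∏ j, X j := by
  classical
  have h : (∏ j, X j : MvPolynomial (Fin n) k) = X i * ∏ j ∈ Finset.univ.erase i, X j :=
    (Finset.mul_prod_erase _ _ (Finset.mem_univ i)).symm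
  have h2 : pderiv i (∏ j ∈ Finset.univ.erase i, X j : MvPolynomial (Fin n) k) = 0 := by
    have key : ∀ s : Finset (Fin n), i ∉ s →
        pderiv i (∏ j ∈ s, X j : MvPolynomial (Fin n) k) = 0 := by
      intro s
      induction s using Finset.induction_on with
      | empty => intro _; simp
      | insert j s hj ih =>
        intro hi
        have hne : j ≠ i := by
          rintro rfl
          exact hi (Finset.mem_insert_self j s)
        rw [Finset.prod_insert hj, Derivation.leibniz, ih fun h => hi (Finset.mem_insert_of_mem h),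
          pderiv_X_of_ne hne]
        simp
    exact key _ (Finset.notMem_erase i _)
  rw [h, Derivation.leibniz, h2, pderiv_X_self]
  simp

omit [IsAlgClosed k] in
lemma X_mul_pderiv_poly [CharP k p] {a : ℕ} (ha : (a : k) = 1) (i : Fin n) :
    X i * pderiv i (poly k n a) = ∏ j, X j + X i ^ a := by
  classical
  rw [poly, map_add, mul_add, X_mul_pderiv_prod, map_sum]
  congr 1
  rw [Finset.sum_eq_single i]
  · rw [Derivation.leibniz_pow, pderiv_X_self]
    rcases a with _ | a
    · simp at ha
    · simp only [Nat.add_sub_cancel, nsmul_eq_mul, smul_eq_mul, mul_one]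
      have : ((a + 1 : ℕ) : MvPolynomial (Fin n) k) = 1 := by
        rw [← map_natCast (C : k →+* MvPolynomial (Fin n) k), ha, map_one]
      rw [this, one_mul, pow_succ']
  · intro j _ hj
    rw [Derivation.leibniz_pow, pderiv_X_of_ne hj]; simp
  · intro h; exact absurd (Finset.mem_univ i) h

theorem isMaximal_of_forall [CharP k p] (hp : 0 < p) {a : ℕ} (ha : (a : k) = 1) (hna : n < a)
    (P : Ideal (AdjoinRoot (hypPoly p (poly k n a)))) [P.IsPrime]
    (h : ∀ i, AdjoinRoot.of (hypPoly p (poly k n a)) (pderiv i (poly k n a)) ∈ P) :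
    P.IsMaximal := by
  set R := AdjoinRoot (hypPoly p (poly k n a)) with hR
  let φ : R →ₐ[k] R ⧸ P := Ideal.Quotient.mkₐ k P
  have hφ : Function.Surjective φ := Ideal.Quotient.mkₐ_surjective k P
  have hX : ∀ i, ∃ z : k, algebraMap k (R ⧸ P) z = φ (AdjoinRoot.of _ (X i)) := by
    refine crit (fun i => φ (AdjoinRoot.of _ (X i))) hna fun i => ?_
    have h1 : φ (AdjoinRoot.of _ (X i * pderiv i (poly k n a))) = 0 := by
      rw [map_mul, map_mul]
      have : φ (AdjoinRoot.of (hypPoly p (poly k n a)) (pderiv i (poly k n a))) = 0 :=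
        Ideal.Quotient.eq_zero_iff_mem.2 (h i)
      rw [this, mul_zero]
    rw [X_mul_pderiv_poly (p := p) ha i, map_add, map_add, map_pow, map_pow, map_prod,
      map_prod] at h1
    exact eq_neg_of_add_eq_zero_right h1
  have hA : ∀ q : MvPolynomial (Fin n) k, ∃ z : k, algebraMap k (R ⧸ P) z =
      φ (AdjoinRoot.of _ q) := by
    intro q
    induction q using MvPolynomial.induction_on with
    | C c => exact ⟨c, by
        have : AdjoinRoot.of (hypPoly p (poly k n a)) (C c) = algebraMap k R c := rfl
        rw [this, AlgHom.commutes]⟩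
    | add q r hq hr =>
      obtain ⟨y, hy⟩ := hq
      obtain ⟨z, hz⟩ := hr
      exact ⟨y + z, by rw [map_add, hy, hz, map_add, map_add]⟩
    | mul_X q i hq =>
      obtain ⟨y, hy⟩ := hq
      obtain ⟨z, hz⟩ := hX i
      exact ⟨y * z, by rw [map_mul, hy, hz, map_mul, map_mul]⟩
  have hroot : ∃ z : k, algebraMap k (R ⧸ P) z = φ (AdjoinRoot.root (hypPoly p (poly k n a))) := by
    obtain ⟨c, hc⟩ := hA (poly k n a)
    refine mem_range_of_pow (c := c) hp ?_
    rw [hc, ← map_pow]
    congr 1
    have := AdjoinRoot.eval₂_root (hypPoly p (poly k n a))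
    simpa [hypPoly, sub_eq_zero] using this
  have hsurj : Function.Surjective (algebraMap k (R ⧸ P)) := by
    intro x
    obtain ⟨x, rfl⟩ := hφ x
    obtain ⟨q, rfl⟩ := AdjoinRoot.mk_surjective x
    induction q using Polynomial.induction_on with
    | C q =>
      obtain ⟨z, hz⟩ := hA q
      exact ⟨z, hz⟩
    | add q r hq hr =>
      obtain ⟨y, hy⟩ := hq
      obtain ⟨z, hz⟩ := hr
      exact ⟨y + z, by rw [map_add, hy, hz, map_add, map_add]⟩
    | monomial m q hq =>
      obtain ⟨y, hy⟩ := hq
      obtain ⟨z, hz⟩ := hroot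
      refine ⟨y * z, ?_⟩
      rw [map_mul, hy, hz, ← map_mul, pow_succ, ← mul_assoc,
        map_mul _ (Polynomial.C q * Polynomial.X ^ m) Polynomial.X]
      rfl
  have hbij : Function.Bijective (algebraMap k (R ⧸ P)) :=
    ⟨(algebraMap k (R ⧸ P)).injective, hsurj⟩
  have hf : IsField (R ⧸ P) :=
    (RingEquiv.ofBijective _ hbij).symm.toMulEquiv.isField (Field.toIsField k)
  exact Ideal.Quotient.maximal_of_isField P hf

/-- a prime of `R` which is not maximal is a smooth point -/
theorem isSmoothAt_of_not_isMaximal [CharP k p] (hp : 0 < p) {a : ℕ} (ha : (a : k) = 1)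
    (hna : n < a) (P : Ideal (AdjoinRoot (hypPoly p (poly k n a)))) [P.IsPrime]
    (hP : ¬ P.IsMaximal) :
    (∃ i, AdjoinRoot.of (hypPoly p (poly k n a)) (pderiv i (poly k n a)) ∉ P) ∧
      Algebra.IsSmoothAt k P := by
  have h : ∃ i, AdjoinRoot.of (hypPoly p (poly k n a)) (pderiv i (poly k n a)) ∉ P := by
    by_contra hcon
    exact hP (isMaximal_of_forall hp ha hna P (by simpa using hcon))
  exact ⟨h, by obtain ⟨i, hi⟩ := h; exact isSmoothAt p _ i P hi⟩

end Critical


end Pool.Agent.Lib.FR.M7

namespace Pool.Agent.Lib.FR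

open MvPolynomial

universe u

section fixed

variable (p m : ℕ) (k : Type u) [Field k]

lemma fpol_eq_poly : fpol p m k = M7.poly k (m + 1) (p * (m + 1) + 1) := rfl

lemma hpol_eq : hpol p m k = M7.hypPoly p (M7.poly k (m + 1) (p * (m + 1) + 1)) := rfl

lemma cast_a [CharP k p] : ((p * (m + 1) + 1 : ℕ) : k) = 1 := by
  rw [Nat.cast_add, Nat.cast_mul, CharP.cast_eq_zero, zero_mul, zero_add, Nat.cast_one]

/-- the derivative of `f` with respect to `X_i` -/
lemma pderiv_fpol [CharP k p] (i : Fin (m + 1)) :
    pderiv i (fpol p m k) = ∏ j ∈ Finset.univ.erase i, X j + X i ^ (p * (m + 1)) := by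
  have h : (X i : MvPolynomial (Fin (m + 1)) k) * pderiv i (fpol p m k) =
      X i * (∏ j ∈ Finset.univ.erase i, X j + X i ^ (p * (m + 1))) := by
    rw [fpol_eq_poly, M7.X_mul_pderiv_poly (p := p) (cast_a p m k) i,
      ← Finset.mul_prod_erase Finset.univ (fun j => (X j : MvPolynomial (Fin (m + 1)) k))
        (Finset.mem_univ i)]
    ring
  exact mul_left_cancel₀ (X_ne_zero i) h

/-- the class of `df/dX_i` in `R` is `ff i` -/
theorem of_pderiv_fpol [CharP k p] (i : Fin (m + 1)) :
    AdjoinRoot.of (hpol p m k) (pderiv i (fpol p m k)) = ff p m k i := by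
  rw [pderiv_fpol, map_add, map_prod, map_pow]
  rfl

/-- M7a: a prime containing all the `df/dX_i` is maximal -/
theorem M7a [IsAlgClosed k] [Fact p.Prime] [CharP k p] (P : PrimeSpectrum (HS p m k))
    (h : ∀ i, ff p m k i ∈ P.asIdeal) : P.asIdeal.IsMaximal := by
  have hp : 0 < p := (Fact.out : p.Prime).pos
  have hna : m + 1 < p * (m + 1) + 1 := by nlinarith
  let Q : Ideal (AdjoinRoot (M7.hypPoly p (M7.poly k (m + 1) (p * (m + 1) + 1)))) := P.asIdeal
  have hQ : Q.IsPrime := P.isPrime
  refine M7.isMaximal_of_forall hp (cast_a p m k) hna Q fun i => ?_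
  have h2 := h i
  rw [← of_pderiv_fpol] at h2
  exact h2

/-- M7b: where some `df/dX_i` does not vanish `R` is smooth -/
theorem M7b [CharP k p] (P : PrimeSpectrum (HS p m k)) (i : Fin (m + 1))
    (hi : ff p m k i ∉ P.asIdeal) : P ∈ Algebra.smoothLocus k (HS p m k) := by
  let Q : Ideal (AdjoinRoot (M7.hypPoly p (fpol p m k))) := P.asIdeal
  have hQ : Q.IsPrime := P.isPrime
  rw [← of_pderiv_fpol] at hi
  exact M7.isSmoothAt p (fpol p m k) i Q hi

/-- M7: a point which is not closed is smooth -/
theorem M7c [IsAlgClosed k] [Fact p.Prime] [CharP k p] (P : PrimeSpectrum (HS p m k))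
    (hP : ¬ P.asIdeal.IsMaximal) : P ∈ Algebra.smoothLocus k (HS p m k) := by
  have h : ∃ i, ff p m k i ∉ P.asIdeal := by
    by_contra hcon
    exact hP (M7a p m k P (by simpa using hcon))
  obtain ⟨i, hi⟩ := h
  exact M7b p m k P i hi

instance : Algebra.FinitePresentation k (HS p m k) :=
  inferInstanceAs (Algebra.FinitePresentation k (AdjoinRoot (M7.hypPoly p (fpol p m k))))

end fixed

end Pool.Agent.Lib.FR
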