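import Pool.Agent.Lib.FR.Defs
import Pool.Agent.Lib.FR.Dim26
import Pool.Agent.Lib.FR.M7

set_option autoImplicit false
set_option linter.unusedSectionVars false

/-!
Room FORMS (MP_0afa72_ag): if every point outside the smooth locus is closed, then there are only
finitely many of them.
-/

namespace Pool.Agent.Lib.FR

universe u v

/-- A closed subset of a Noetherian quasi-sober space all of whose points are closed points is
finite. -/
theorem finite_of_isClosed_of_points {α : Type u} [TopologicalSpace α]
    [TopologicalSpace.NoetherianSpace α] [QuasiSober α] {Z : Set α} (hZ : IsClosed Z)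
    (h : ∀ x ∈ Z, IsClosed ({x} : Set α)) : Z.Finite := by
  obtain ⟨S, hS, hcl, hirr, hU⟩ :=
    TopologicalSpace.NoetherianSpace.exists_finite_set_isClosed_irreducible hZ
  rw [hU]
  refine hS.sUnion fun t ht => ?_
  obtain ⟨x, hx⟩ := QuasiSober.sober (hirr t ht) (hcl t ht)
  have hxt : x ∈ t := hx.mem
  have hxZ : x ∈ Z := by
    rw [hU]
    exact ⟨t, ht, hxt⟩
  have hxc : t = {x} := by
    rw [← hx.def]
    exact (h x hxZ).closure_eq
  rw [hxc]
  exact Set.finite_singleton x

/-- For a Noetherian algebra of finite presentation: if the non-smooth points are closed, there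
are finitely many. -/
theorem finite_compl_smoothLocus (k : Type u) (R : Type v) [CommRing k] [CommRing R]
    [Algebra k R] [Algebra.FinitePresentation k R] [IsNoetherianRing R]
    (h : ∀ P : PrimeSpectrum R, P ∉ Algebra.smoothLocus k R → P.asIdeal.IsMaximal) :
    (Algebra.smoothLocus k R)ᶜ.Finite := by
  refine finite_of_isClosed_of_points (Algebra.isOpen_smoothLocus (R := k) (A := R)).isClosed_compl
    fun x hx => ?_
  rw [PrimeSpectrum.isClosed_singleton_iff_isMaximal]
  exact h x hx

variable (p m : ℕ) [Fact p.Prime] (k : Type u) [Field k] [CharP k p]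

theorem M7fin (h : ∀ P : PrimeSpectrum (HS p m k),
    P ∉ Algebra.smoothLocus k (HS p m k) → P.asIdeal.IsMaximal) :
    (Algebra.smoothLocus k (HS p m k))ᶜ.Finite := by
  have : IsNoetherianRing (HS p m k) := Dim26.isNoetherianRing_adjoinRoot_mvPolynomial (hpol p m k)
  have : Algebra.FiniteType k (HS p m k) :=
    Dim26.finiteType_adjoinRoot_mvPolynomial (hpol p m k)
  have : Algebra.FinitePresentation k (HS p m k) :=
    (Algebra.FinitePresentation.of_finiteType).mp inferInstance
  exact finite_compl_smoothLocus k (HS p m k) h

/-- The singular locus is finite and consists of closed points (both clauses of the statement). -/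
theorem M7fin' [IsAlgClosed k] : (Algebra.smoothLocus k (HS p m k))ᶜ.Finite ∧
    ∀ P : PrimeSpectrum (HS p m k), P ∉ Algebra.smoothLocus k (HS p m k) →
      P.asIdeal.IsMaximal := by
  have h : ∀ P : PrimeSpectrum (HS p m k), P ∉ Algebra.smoothLocus k (HS p m k) →
      P.asIdeal.IsMaximal := by
    intro P hP
    by_contra hcon
    exact hP (M7c p m k P hcon)
  exact ⟨M7fin p m k h, h⟩

end Pool.Agent.Lib.FR
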