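import Mathlib

set_option autoImplicit false

/-!
M8.1 (helper42): domains of the form `A[X] / (X ^ p - G)` and primes in them.
-/

namespace Pool.Agent.Lib.FR.Dom42

open Polynomial

universe u v

/-- If a derivation does not kill `G`, then `G` is not a `p`-th power in the fraction field. -/
theorem not_pth_power {A : Type u} [CommRing A] [IsDomain A] (p : ℕ) [CharP A p]
    (D : Derivation ℤ A A) (G : A) (hG : D G ≠ 0) (b : FractionRing A) :
    b ^ p ≠ algebraMap A (FractionRing A) G := by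
  intro hb
  obtain ⟨x, y, hy, rfl⟩ := IsFractionRing.div_surjective (A := A) b
  have hy0 : algebraMap A (FractionRing A) y ≠ 0 :=
    IsFractionRing.to_map_ne_zero_of_mem_nonZeroDivisors hy
  rw [div_pow, div_eq_iff (pow_ne_zero _ hy0), ← map_pow, ← map_pow, ← map_mul] at hb
  have h1 : x ^ p = G * y ^ p := IsFractionRing.injective A (FractionRing A) hb
  have h2 := congrArg D h1
  rw [Derivation.leibniz, Derivation.leibniz_pow, Derivation.leibniz_pow] at h2
  have hp0 : (p : A) = 0 := CharP.cast_eq_zero A p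
  have h3 : ∀ z : A, p • z = 0 := fun z => by rw [nsmul_eq_mul, hp0, zero_mul]
  rw [h3, h3, smul_zero, zero_add] at h2
  have h4 : y ^ p * D G = 0 := h2.symm
  rcases mul_eq_zero.mp h4 with h5 | h5
  · exact nonZeroDivisors.ne_zero hy (eq_zero_of_pow_eq_zero h5)
  · exact hG h5

/-- DOM: if `A` is a factorial domain of characteristic `p` and a derivation does not kill `G`,
then `A[X] / (X ^ p - G)` is a domain. -/
theorem isDomain_adjoinRoot {A : Type u} [CommRing A] [IsDomain A] [UniqueFactorizationMonoid A]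
    (p : ℕ) [hp : Fact p.Prime] [CharP A p]
    (D : Derivation ℤ A A) (G : A) (hG : D G ≠ 0) : IsDomain (AdjoinRoot (X ^ p - C G)) := by
  apply AdjoinRoot.isDomain_of_prime
  have hmon : (X ^ p - C G : A[X]).Monic := monic_X_pow_sub_C G hp.out.ne_zero
  have hirr : Irreducible (X ^ p - C G : A[X]) := by
    rw [hmon.irreducible_iff_irreducible_map_fraction_map (K := FractionRing A)]
    rw [Polynomial.map_sub, Polynomial.map_pow, map_X, map_C]
    exact X_pow_sub_C_irreducible_of_prime hp.out (not_pth_power p D G hG)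
  exact hirr.prime

theorem map_mk' {A : Type u} {A' : Type v} [CommRing A] [CommRing A'] (f : A[X]) (red : A →+* A')
    (f' : A'[X]) (h : f' ∣ f.map red) (g : A[X]) :
    AdjoinRoot.map red f f' h (AdjoinRoot.mk f g) = AdjoinRoot.mk f' (g.map red) := by
  rw [AdjoinRoot.map, AdjoinRoot.lift_mk, ← AdjoinRoot.aeval_eq, aeval_def, eval₂_map]
  rfl

/-- `t` generates the kernel of `red : A → A'`; then `t` generates the kernel of
`A[X] / (f) → A'[X] / (red f)` (`f` monic). -/
theorem dvd_of_map_eq_zero {A : Type u} {A' : Type v} [CommRing A] [CommRing A'] [Nontrivial A']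
    (f : A[X]) (hf : f.Monic) (red : A →+* A') (f' : A'[X]) (hf' : f.map red = f') (t : A)
    (hker : ∀ a, red a = 0 → t ∣ a) (x : AdjoinRoot f)
    (hx : AdjoinRoot.map red f f' (dvd_of_eq hf'.symm) x = 0) : AdjoinRoot.of f t ∣ x := by
  obtain ⟨g, rfl⟩ := AdjoinRoot.mk_surjective x
  have hfm' : f'.Monic := hf' ▸ hf.map red
  have hA : Nontrivial A := red.domain_nontrivial
  have h1 : AdjoinRoot.mk f g = AdjoinRoot.mk f (g %ₘ f) := by
    rw [AdjoinRoot.mk_eq_mk]
    exact ⟨g /ₘ f, by rw [sub_eq_iff_eq_add']; exact (modByMonic_add_div g f).symm⟩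
  rw [h1] at hx ⊢
  rw [map_mk', AdjoinRoot.mk_eq_zero] at hx
  have h2 : (g %ₘ f).map red = 0 := by
    by_contra hne
    have h4 : ((g %ₘ f).map red).degree ≤ (g %ₘ f).degree := degree_map_le
    have h5 : (g %ₘ f).degree < f.degree := degree_modByMonic_lt g hf
    have h6 : f'.degree = f.degree := by
      rw [← hf', hf.degree_map]
    exact hfm'.not_dvd_of_degree_lt hne (by rw [h6]; exact h4.trans_lt h5) hx
  have h3 : ∀ i, t ∣ (g %ₘ f).coeff i := fun i => hker _ (by
    rw [← coeff_map, h2, coeff_zero])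
  have h4 : C t ∣ (g %ₘ f) := (C_dvd_iff_dvd_coeff _ _).mpr h3
  obtain ⟨q, hq⟩ := h4
  rw [hq, map_mul]
  exact ⟨AdjoinRoot.mk f q, rfl⟩

/-- Primes: `t` generates the kernel of `red : A → A'`; if `A'[X] / (red f)` is a domain then
`t` is prime in `A[X] / (f)`. -/
theorem prime_of_map {A : Type u} {A' : Type v} [CommRing A] [CommRing A'] [Nontrivial A']
    (f : A[X]) (hf : f.Monic) (red : A →+* A') (f' : A'[X]) (hf' : f.map red = f') (t : A)
    (hker : ∀ a, red a = 0 → t ∣ a) (ht : red t = 0) [IsDomain (AdjoinRoot f')]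
    (ht0 : AdjoinRoot.of f t ≠ 0) : Prime (AdjoinRoot.of f t) := by
  have h1 : AdjoinRoot.map red f f' (dvd_of_eq hf'.symm) (AdjoinRoot.of f t) = 0 := by
    rw [AdjoinRoot.map_of]
    show AdjoinRoot.of f' (red t) = 0
    rw [ht, map_zero]
  refine ⟨ht0, ?_, ?_⟩
  · intro hu
    have := hu.map (AdjoinRoot.map red f f' (dvd_of_eq hf'.symm))
    rw [h1] at this
    exact not_isUnit_zero this
  · rintro a b ⟨c, hc⟩
    have h2 := congrArg (AdjoinRoot.map red f f' (dvd_of_eq hf'.symm)) hc
    rw [map_mul, map_mul, h1, zero_mul] at h2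
    rcases mul_eq_zero.mp h2 with h3 | h3
    · exact Or.inl (dvd_of_map_eq_zero f hf red f' hf' t hker a h3)
    · exact Or.inr (dvd_of_map_eq_zero f hf red f' hf' t hker b h3)

/-- elements of `A` in the ideal generated by `t`. -/
theorem red_eq_zero_of_dvd {A : Type u} {A' : Type v} [CommRing A] [CommRing A'] [IsDomain A']
    (f : A[X]) (red : A →+* A') (f' : A'[X]) (hf' : f.map red = f') (hdeg : f'.degree ≠ 0)
    (t : A) (ht : red t = 0) (a : A)
    (h : AdjoinRoot.of f t ∣ AdjoinRoot.of f a) : red a = 0 := by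
  obtain ⟨c, hc⟩ := h
  have h2 := congrArg (AdjoinRoot.map red f f' (dvd_of_eq hf'.symm)) hc
  rw [map_mul, AdjoinRoot.map_of, AdjoinRoot.map_of] at h2
  change AdjoinRoot.of f' (red a) = AdjoinRoot.of f' (red t) * _ at h2
  rw [ht, map_zero, zero_mul] at h2
  exact (injective_iff_map_eq_zero _).mp (AdjoinRoot.of.injective_of_degree_ne_zero hdeg) _ h2

section chart

variable (m : ℕ) (k : Type u) [Field k]

/-- the reduction modulo `T = X 0`. -/
noncomputable def red : MvPolynomial (Fin (m + 1)) k →ₐ[k] MvPolynomial (Fin m) k :=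
  MvPolynomial.aeval (Fin.cons 0 MvPolynomial.X)

@[simp] theorem red_X_zero : red m k (MvPolynomial.X 0) = 0 := by simp [red]

@[simp] theorem red_X_succ (j : Fin m) :
    red m k (MvPolynomial.X j.succ) = MvPolynomial.X j := by simp [red]

theorem dvd_of_red_eq_zero (a : MvPolynomial (Fin (m + 1)) k) (ha : red m k a = 0) :
    MvPolynomial.X 0 ∣ a := by
  have h : (Ideal.Quotient.mkₐ k
        (Ideal.span {(MvPolynomial.X 0 : MvPolynomial (Fin (m + 1)) k)})) =
      ((Ideal.Quotient.mkₐ k
        (Ideal.span {(MvPolynomial.X 0 : MvPolynomial (Fin (m + 1)) k)})).comp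
        (MvPolynomial.rename Fin.succ)).comp (red m k) := by
    apply MvPolynomial.algHom_ext
    intro i
    refine Fin.cases ?_ (fun j => ?_) i
    · simp only [AlgHom.comp_apply, red_X_zero, map_zero]
      exact Ideal.Quotient.eq_zero_iff_mem.mpr (Ideal.mem_span_singleton_self _)
    · simp only [AlgHom.comp_apply, red_X_succ, MvPolynomial.rename_X]
  have h2 := DFunLike.congr_fun h a
  rw [AlgHom.comp_apply, ha, map_zero] at h2
  exact Ideal.mem_span_singleton.mp (Ideal.Quotient.eq_zero_iff_mem.mp h2)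

variable (p : ℕ) [hp : Fact p.Prime] [CharP k p]

theorem isDomain_of_pderiv {n : ℕ} (G : MvPolynomial (Fin n) k) (i : Fin n)
    (hG : MvPolynomial.pderiv i G ≠ 0) : IsDomain (AdjoinRoot (X ^ p - C G)) :=
  isDomain_adjoinRoot p ((MvPolynomial.pderiv i).restrictScalars ℤ) G hG

/-- `k[U_1, ..., U_m][V] / (V ^ p - U_1 ... U_m)` is a domain. -/
theorem isDomain_prod (hm : 1 ≤ m) :
    IsDomain (AdjoinRoot (X ^ p - C (∏ j, MvPolynomial.X j : MvPolynomial (Fin m) k))) := by
  refine isDomain_of_pderiv k p _ ⟨0, hm⟩ fun h => ?_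
  have h1 := congrArg (MvPolynomial.eval (fun _ => (1 : k))) h
  have h2 : MvPolynomial.pderiv (⟨0, hm⟩ : Fin m)
      (∏ j, MvPolynomial.X j : MvPolynomial (Fin m) k) =
      ∏ j ∈ Finset.univ.erase (⟨0, hm⟩ : Fin m), MvPolynomial.X j := by
    rw [← Finset.mul_prod_erase _ _ (Finset.mem_univ (⟨0, hm⟩ : Fin m)), Derivation.leibniz,
      MvPolynomial.pderiv_X_self]
    have h3 : MvPolynomial.pderiv (⟨0, hm⟩ : Fin m)
        (∏ j ∈ Finset.univ.erase (⟨0, hm⟩ : Fin m), MvPolynomial.X j :
          MvPolynomial (Fin m) k) = 0 := by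
      refine Finset.prod_induction _
        (fun x => MvPolynomial.pderiv (⟨0, hm⟩ : Fin m) (x : MvPolynomial (Fin m) k) = 0)
        (fun a b ha hb => by rw [Derivation.leibniz, ha, hb, smul_zero, smul_zero, add_zero])
        (Derivation.map_one_eq_zero _) fun j hj => ?_
      exact MvPolynomial.pderiv_X_of_ne (Finset.ne_of_mem_erase hj)
    rw [h3, smul_zero, zero_add, smul_eq_mul, mul_one]
  rw [h2, map_prod, map_zero] at h1
  simp at h1

variable {m k}

/-- the chart ring is a domain. -/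
theorem isDomain_chart (G : MvPolynomial (Fin (m + 1)) k)
    (hG : MvPolynomial.eval 0 (MvPolynomial.pderiv 0 G) ≠ 0) :
    IsDomain (AdjoinRoot (X ^ p - C G)) :=
  isDomain_of_pderiv k p G 0 fun h => hG (by rw [h, map_zero])

/-- `T` is a prime element of the chart ring. -/
theorem prime_chart (hm : 1 ≤ m) (G : MvPolynomial (Fin (m + 1)) k)
    (hG : red m k G = ∏ j, MvPolynomial.X j) :
    Prime (AdjoinRoot.of (X ^ p - C G) (MvPolynomial.X 0)) := by
  have hmon : (X ^ p - C G : (MvPolynomial (Fin (m + 1)) k)[X]).Monic :=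
    monic_X_pow_sub_C G hp.out.ne_zero
  have := isDomain_prod m k p hm
  refine prime_of_map (X ^ p - C G) hmon (red m k).toRingHom
    (X ^ p - C (∏ j, MvPolynomial.X j)) ?_ (MvPolynomial.X 0)
    (fun a ha => dvd_of_red_eq_zero m k a ha) (red_X_zero m k) ?_
  · rw [Polynomial.map_sub, Polynomial.map_pow, map_X, map_C]
    congr 2
  · intro h
    have hdeg : (X ^ p - C G : (MvPolynomial (Fin (m + 1)) k)[X]).degree ≠ 0 := by
      rw [degree_X_pow_sub_C hp.out.pos]
      exact_mod_cast hp.out.ne_zero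
    exact MvPolynomial.X_ne_zero (R := k) (0 : Fin (m + 1))
      ((injective_iff_map_eq_zero _).mp (AdjoinRoot.of.injective_of_degree_ne_zero hdeg) _ h)

omit [CharP k p] in
/-- polynomials in the ideal generated by `T`. -/
theorem red_eq_zero_chart (G : MvPolynomial (Fin (m + 1)) k)
    (hG : red m k G = ∏ j, MvPolynomial.X j) (a : MvPolynomial (Fin (m + 1)) k)
    (h : AdjoinRoot.of (X ^ p - C G) (MvPolynomial.X 0) ∣ AdjoinRoot.of (X ^ p - C G) a) :
    red m k a = 0 := by
  refine red_eq_zero_of_dvd (X ^ p - C G) (red m k).toRingHom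
    (X ^ p - C (∏ j, MvPolynomial.X j)) ?_ ?_ (MvPolynomial.X 0) (red_X_zero m k) a h
  · rw [Polynomial.map_sub, Polynomial.map_pow, map_X, map_C]
    congr 2
  · rw [degree_X_pow_sub_C hp.out.pos]
    exact_mod_cast hp.out.ne_zero

end chart

end Pool.Agent.Lib.FR.Dom42
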