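import Pool.Agent.Lib.FR.Chart
import Pool.Agent.Lib.FR.Dom42

set_option autoImplicit false

/-!
M8.1 (helper42): the chart ring is a domain, `T` is prime in it, `∂G/∂T` is not divisible by `T`
and `∂G/∂U_m` is not zero.
-/

namespace Pool.Agent.Lib.FR

open MvPolynomial

universe u

theorem ee_pos (p m : ℕ) : 1 ≤ ee p m := by
  have h1 := ee_add p m
  have h2 := le_ww_mul_aa p m
  omega

section

variable (p m : ℕ) [hp : Fact p.Prime] (k : Type u) [Field k] [CharP k p]

omit hp [CharP k p] in
theorem red_GG : Dom42.red m k (GG p m k) = ∏ j, X j := by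
  rw [GG, map_add, map_add, map_mul, map_mul, map_pow, Dom42.red_X_zero, map_prod]
  simp only [Dom42.red_X_succ, zero_mul, add_zero]
  have h : ee p m ≠ 0 := by
    have := ee_pos p m
    omega
  rw [zero_pow h, zero_mul, add_zero]

omit hp [CharP k p] in
theorem pderiv_zero_GG (hm : 1 ≤ m) : pderiv 0 (GG p m k) =
    (1 + ∑ j ∈ Finset.univ.filter (fun j : Fin m => j.succ ≠ Fin.last m), X j.succ ^ aa p m) +
      (ee p m • X 0 ^ (ee p m - 1)) * X (Fin.last m) ^ aa p m := by
  have h1 : ∀ (i : Fin (m + 1)) (n : ℕ), i ≠ 0 →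
      pderiv 0 (X i ^ n : MvPolynomial (Fin (m + 1)) k) = 0 := by
    intro i n hi
    rw [Derivation.leibniz_pow, pderiv_X_of_ne hi, smul_zero, smul_zero]
  have h2 : pderiv 0 (∏ j : Fin m, X j.succ : MvPolynomial (Fin (m + 1)) k) = 0 :=
    Finset.prod_induction _ (fun x => pderiv 0 (x : MvPolynomial (Fin (m + 1)) k) = 0)
      (fun a b ha hb => by rw [Derivation.leibniz, ha, hb, smul_zero, smul_zero, add_zero])
      (Derivation.map_one_eq_zero _) fun j _ => pderiv_X_of_ne (Fin.succ_ne_zero j)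
  have h3 : pderiv 0 (∑ j ∈ Finset.univ.filter (fun j : Fin m => j.succ ≠ Fin.last m),
      X j.succ ^ aa p m : MvPolynomial (Fin (m + 1)) k) = 0 := by
    rw [map_sum]
    exact Finset.sum_eq_zero fun j _ => h1 _ _ (Fin.succ_ne_zero j)
  have h4 : (Fin.last m : Fin (m + 1)) ≠ 0 := by
    intro h
    have := congrArg Fin.val h
    simp at this
    omega
  rw [GG, map_add, map_add, h2, Derivation.leibniz, map_add, h3, Derivation.map_one_eq_zero,
    pderiv_X_self, Derivation.leibniz, h1 _ _ h4, Derivation.leibniz_pow, pderiv_X_self]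
  simp only [smul_eq_mul, mul_one, add_zero, mul_zero, zero_add, nsmul_eq_mul]
  ring

omit hp [CharP k p] in
theorem eval_pderiv_zero_GG (hm : 1 ≤ m) : eval 0 (pderiv 0 (GG p m k)) = 1 := by
  rw [pderiv_zero_GG p m k hm]
  have ha : aa p m ≠ 0 := Nat.succ_ne_zero _
  simp only [map_add, map_one, map_mul, map_pow, eval_X, map_sum, Pi.zero_apply, zero_pow ha,
    Finset.sum_const_zero, mul_zero, add_zero]

theorem isDomain_CC (hm : 1 ≤ m) : IsDomain (CC p m k) :=
  Dom42.isDomain_chart p (GG p m k) (by rw [eval_pderiv_zero_GG p m k hm]; exact one_ne_zero)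

theorem prime_T (hm : 1 ≤ m) : Prime (cc p m k 0) :=
  Dom42.prime_chart p hm (GG p m k) (red_GG p m k)

omit [CharP k p] in
theorem not_T_dvd_gg (hm : 1 ≤ m) : ¬ cc p m k 0 ∣ gg p m k 0 := by
  intro h
  have h1 := Dom42.red_eq_zero_chart p (GG p m k) (red_GG p m k) _ h
  have h2 := congrArg (eval 0) h1
  rw [pderiv_zero_GG p m k hm] at h2
  have ha : aa p m ≠ 0 := Nat.succ_ne_zero _
  have he : ee p m - 1 ≠ 0 := by
    have := two_le_ee hp.out.two_le hm
    omega
  simp only [map_add, map_one, map_mul, map_pow, map_sum, Dom42.red_X_succ, Dom42.red_X_zero,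
    map_nsmul, zero_pow he, smul_zero, zero_mul, add_zero, eval_X, Pi.zero_apply, zero_pow ha,
    Finset.sum_const_zero, map_zero] at h2
  exact one_ne_zero h2

omit hp [CharP k p] in
theorem pderiv_prod_ne_zero (i : Fin m) :
    pderiv i (∏ j, X j : MvPolynomial (Fin m) k) ≠ 0 := by
  intro h
  have h1 := congrArg (eval (fun _ => (1 : k))) h
  have h3 : pderiv i (∏ j ∈ Finset.univ.erase i, X j : MvPolynomial (Fin m) k) = 0 :=
    Finset.prod_induction _ (fun x => pderiv i (x : MvPolynomial (Fin m) k) = 0)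
      (fun a b ha hb => by rw [Derivation.leibniz, ha, hb, smul_zero, smul_zero, add_zero])
      (Derivation.map_one_eq_zero _) fun j hj => pderiv_X_of_ne (Finset.ne_of_mem_erase hj)
  rw [← Finset.mul_prod_erase _ _ (Finset.mem_univ i), Derivation.leibniz, pderiv_X_self, h3,
    smul_zero, zero_add, smul_eq_mul, mul_one, map_prod, map_zero] at h1
  simp at h1

omit hp [CharP k p] in
theorem red_pderiv_succ (j : Fin m) (G : MvPolynomial (Fin (m + 1)) k) :
    Dom42.red m k (pderiv j.succ G) = pderiv j (Dom42.red m k G) := by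
  induction G using MvPolynomial.induction_on with
  | C a => simp [Dom42.red]
  | add f g hf hg => rw [map_add, map_add, map_add, map_add, hf, hg]
  | mul_X f i hf =>
    rw [Derivation.leibniz, map_add, smul_eq_mul, smul_eq_mul, map_mul, map_mul, map_mul,
      Derivation.leibniz, smul_eq_mul, smul_eq_mul, hf]
    congr 2
    refine Fin.cases ?_ (fun l => ?_) i
    · rw [pderiv_X_of_ne (Fin.succ_ne_zero j).symm, Dom42.red_X_zero, map_zero, map_zero]
    · rw [Dom42.red_X_succ]
      by_cases hjl : l = j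
      · subst hjl
        rw [pderiv_X_self, pderiv_X_self, map_one]
      · rw [pderiv_X_of_ne hjl, pderiv_X_of_ne (fun h => hjl (Fin.succ_injective _ h)), map_zero]

omit [CharP k p] in
theorem gg_succ_ne_zero (j : Fin m) : gg p m k j.succ ≠ 0 := by
  intro h
  have h1 : AdjoinRoot.of (Polynomial.X ^ p - Polynomial.C (GG p m k)) (X 0) ∣
      AdjoinRoot.of (Polynomial.X ^ p - Polynomial.C (GG p m k))
        (pderiv j.succ (GG p m k)) := by
    change _ ∣ gg p m k j.succ
    rw [h]
    exact dvd_zero _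
  have h2 := Dom42.red_eq_zero_chart p (GG p m k) (red_GG p m k) _ h1
  rw [red_pderiv_succ, red_GG] at h2
  exact pderiv_prod_ne_zero m k j h2

omit [CharP k p] in
theorem gg_last_ne_zero (hm : 1 ≤ m) : gg p m k (Fin.last m) ≠ 0 := by
  have h : (Fin.last m) = (⟨m - 1, by omega⟩ : Fin m).succ := by
    ext
    simp
    omega
  rw [h]
  exact gg_succ_ne_zero p m k _

end

end Pool.Agent.Lib.FR
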