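import Pool.Agent.Lib.FR.M8pre
import Pool.Agent.Lib.FR.M81
import Pool.Agent.Lib.FR.Val43
import Pool.Agent.Lib.FR.Chi49

set_option autoImplicit false

/-!
Module M8 of the room FORMS (MP_0afa72_ag): the valuation ring, the derivations and the pole.
-/

namespace Pool.Agent.Lib.FR

universe u

theorem M8_of_chi (p n : ℕ) [Fact p.Prime] (k : Type u) [Field k] [CharP k p]
    [IsDomain (HS p (n + 1) k)]
    (χ : HS p (n + 1) k →ₐ[k] CC p (n + 1) k) (hχ : Function.Injective χ)
    (h0 : χ (xx p (n + 1) k 0) = cc p (n + 1) k 0)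
    (hj : ∀ i : Fin (n + 2), i ≠ 0 → i ≠ Fin.last (n + 1) →
      χ (xx p (n + 1) k i) = cc p (n + 1) k 0 * cc p (n + 1) k i)
    (hff : χ (ff p (n + 1) k (Fin.last (n + 1))) =
      cc p (n + 1) k 0 ^ (n + 1) * gg p (n + 1) k (Fin.last (n + 1))) :
    ∃ (K' : Type u) (_ : Field K') (_ : Algebra k K')
      (_ : Algebra (FractionRing (HS p (n + 1) k)) K')
      (_ : IsScalarTower k (FractionRing (HS p (n + 1) k)) K') (O : ValuationSubring K')
      (D : Fin (n + 1) → Derivation k (FractionRing (HS p (n + 1) k)) K'),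
      (∀ r : HS p (n + 1) k, algebraMap (FractionRing (HS p (n + 1) k)) K'
        (algebraMap (HS p (n + 1) k) (FractionRing (HS p (n + 1) k)) r) ∈ O) ∧
      (∀ i (x : FractionRing (HS p (n + 1) k)),
        algebraMap (FractionRing (HS p (n + 1) k)) K' x ∈ O → D i x ∈ O) ∧
      (algebraMap (FractionRing (HS p (n + 1) k)) K'
          (algebraMap (HS p (n + 1) k) (FractionRing (HS p (n + 1) k))
            (ff p (n + 1) k (Fin.last (n + 1)))))⁻¹ *
        Matrix.det (Matrix.of fun i j => D i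
          (algebraMap (HS p (n + 1) k) (FractionRing (HS p (n + 1) k))
            (xx p (n + 1) k (Fin.castSucc j)))) ∉ O := by
  have hm : 1 ≤ n + 1 := Nat.le_add_left 1 n
  have := isDomain_CC p (n + 1) k hm
  have hT := prime_T p (n + 1) k hm
  have : IsNoetherianRing (CC p (n + 1) k) := by
    have h1 : IsNoetherianRing (Polynomial (MvPolynomial (Fin (n + 1 + 1)) k)) := inferInstance
    exact isNoetherianRing_of_surjective _ _ (AdjoinRoot.mk _) AdjoinRoot.mk_surjective
  obtain ⟨O, hO⟩ := Val43.exists_valuationSubring (FractionRing (CC p (n + 1) k)) hT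
  exact M8_of_data p n k hT (not_T_dvd_gg p (n + 1) k hm) (gg_last_ne_zero p (n + 1) k hm)
    χ hχ h0 hj hff O hO

theorem M8 (p m : ℕ) [Fact p.Prime] (k : Type u) [Field k] [CharP k p] (hm : 1 ≤ m)
    [IsDomain (HS p m k)] :
    ∃ (K' : Type u) (_ : Field K') (_ : Algebra k K') (_ : Algebra (FractionRing (HS p m k)) K')
      (_ : IsScalarTower k (FractionRing (HS p m k)) K') (O : ValuationSubring K')
      (D : Fin m → Derivation k (FractionRing (HS p m k)) K'),
      (∀ r : HS p m k, algebraMap (FractionRing (HS p m k)) K'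
        (algebraMap (HS p m k) (FractionRing (HS p m k)) r) ∈ O) ∧
      (∀ i (x : FractionRing (HS p m k)), algebraMap (FractionRing (HS p m k)) K' x ∈ O →
        D i x ∈ O) ∧
      (algebraMap (FractionRing (HS p m k)) K'
          (algebraMap (HS p m k) (FractionRing (HS p m k)) (ff p m k (Fin.last m))))⁻¹ *
        Matrix.det (Matrix.of fun i j => D i
          (algebraMap (HS p m k) (FractionRing (HS p m k)) (xx p m k (Fin.castSucc j)))) ∉ O := by
  obtain ⟨n, rfl⟩ : ∃ n, m = n + 1 := ⟨m - 1, by omega⟩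
  have hp : 1 ≤ p := (Fact.out : p.Prime).one_lt.le
  refine M8_of_chi p n k (chi p n k hp) (chi_injective p n k hp) (chi_xx_zero p n k hp) ?_
    (chi_ff p n k hp)
  intro i h0 h1
  obtain ⟨j, rfl⟩ := Fin.exists_castSucc_eq.2 h1
  have hj0 : j ≠ 0 := fun h => h0 (by rw [h]; rfl)
  obtain ⟨j', rfl⟩ := Fin.exists_succ_eq.2 hj0
  exact chi_xx_mid p n k hp j'

end Pool.Agent.Lib.FR
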