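import Pool.Agent.Lib.FR.Defs

set_option autoImplicit false

/-!
Module M9 of the room FORMS (MP_0afa72_ag): contraction of `m`-forms of `K/k` with `m` derivations
`K → K'`; it maps forms which are regular over a ring `A → K` into every subring `O` of `K'` which
contains the image of `A` and its images under the derivations.
-/

namespace Pool.Agent.Lib.FR

universe u v w

section contraction

variable {k : Type u} {K : Type v} {K' : Type w} [Field k] [Field K] [Field K'] [Algebra k K]
  [Algebra k K'] [Algebra K K'] [IsScalarTower k K K'] {m : ℕ}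

theorem det_mem_of_forall_mem {O : Subring K'} {M : Matrix (Fin m) (Fin m) K'}
    (h : ∀ i j, M i j ∈ O) : M.det ∈ O := by
  rw [Matrix.det_apply']
  exact sum_mem fun σ _ => O.mul_mem (intCast_mem O _) (prod_mem fun i _ => h _ _)

theorem M9 (D : Fin m → Derivation k K K') : ∃ c : ⋀[K]^m Ω[K⁄k] →ₗ[K] K',
    (∀ s : Fin m → K, c (exteriorPower.ιMulti K m (fun i => KaehlerDifferential.D k K (s i))) =
      Matrix.det (Matrix.of fun i j => D i (s j))) ∧
    (∀ (O : Subring K') {A : Type w} [CommRing A] (φ : A →+* K)
      (_ : ∀ a, algebraMap K K' (φ a) ∈ O) (_ : ∀ i a, D i (φ a) ∈ O)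
      (σ : ⋀[K]^m Ω[K⁄k]), RegularOver φ σ → c σ ∈ O) := by
  let L : Ω[K⁄k] →ₗ[K] (Fin m → K') := LinearMap.pi fun i => (D i).liftKaehlerDifferential
  let alt : Ω[K⁄k] [⋀^Fin m]→ₗ[K] K' :=
    { (((Matrix.detRowAlternating (n := Fin m) (R := K')).toMultilinearMap).restrictScalars
        K).compLinearMap (fun _ => L) with
      map_eq_zero_of_eq' := fun v i j hv hij =>
        (Matrix.detRowAlternating (n := Fin m) (R := K')).map_eq_zero_of_eq
          (fun a => L (v a)) (by simp only [hv]) hij }
  have halt : ∀ s : Fin m → K, alt (fun i => KaehlerDifferential.D k K (s i)) =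
      Matrix.det (Matrix.of fun i j => D i (s j)) := by
    intro s
    have h1 : alt (fun i => KaehlerDifferential.D k K (s i)) =
        Matrix.det (Matrix.of fun j i => D i (s j)) := by
      change Matrix.det (fun j => L (KaehlerDifferential.D k K (s j))) = _
      congr 1
      ext j i
      simp [L, Derivation.liftKaehlerDifferential_comp_D]
    rw [h1, ← Matrix.det_transpose]
    rfl
  refine ⟨exteriorPower.alternatingMapLinearEquiv alt, fun s => ?_, ?_⟩
  · rw [exteriorPower.alternatingMapLinearEquiv_apply_ιMulti, halt]
  · intro O A _ φ hφ hD σ hσ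
    unfold RegularOver at hσ
    induction hσ using AddSubgroup.closure_induction with
    | mem x hx =>
      obtain ⟨a, s, rfl⟩ := hx
      rw [map_smul, exteriorPower.alternatingMapLinearEquiv_apply_ιMulti, halt, Algebra.smul_def]
      exact O.mul_mem (hφ a) (det_mem_of_forall_mem fun i j => hD i (s j))
    | zero => rw [map_zero]; exact O.zero_mem
    | add x y _ _ hx hy => rw [map_add]; exact O.add_mem hx hy
    | neg x _ hx => rw [map_neg]; exact O.neg_mem hx

end contraction

end Pool.Agent.Lib.FR
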