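import Pool.Agent.Lib.FR.M2_25
import Pool.Agent.Lib.FR.M3
import Pool.Agent.Lib.FR.M4
import Pool.Agent.Lib.FR.M5
import Pool.Agent.Lib.FR.M6
import Pool.Agent.Lib.FR.M7c
import Pool.Agent.Lib.FR.M8
import Pool.Agent.Lib.FR.M9
import Pool.Agent.Lib.FR.M10

set_option autoImplicit false

/-!
Room FORMS (MP_0afa72_ag): assembly of the modules M1, ..., M10.
-/

namespace Pool.Agent.Lib.FR

open AlgebraicGeometry CategoryTheory

universe u

/-- strongly F-regular domains are globally F-regular (affine case). -/
theorem gfr_of_sfr (p : ℕ) {R : Type u} [CommRing R] [IsDomain R] (h : StronglyFRegular p R) :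
    GloballyFRegular p R := by
  intro I h1 hI
  obtain ⟨c, hc, hcI⟩ : IsFractional (nonZeroDivisors R) I := FractionalIdeal.isFractional_of_fg hI
  have hc0 : c ≠ 0 := nonZeroDivisors.ne_zero hc
  obtain ⟨e, he, φ, hφ, hφc⟩ := h c hc0
  have hinj : Function.Injective (algebraMap R (FractionRing R)) := IsFractionRing.injective _ _
  have hch : ∀ x : I, ∃ r : R, algebraMap R (FractionRing R) r = c • (x : FractionRing R) :=
    fun x => hcI x x.2
  choose g hg using hch
  have hgadd : ∀ x y : I, g (x + y) = g x + g y := by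
    intro x y
    apply hinj
    rw [map_add, hg, hg, hg, Submodule.coe_add, smul_add]
  have hgsmul : ∀ (r : R) (x : I), g (r • x) = r * g x := by
    intro r x
    apply hinj
    rw [map_mul, hg, hg, Submodule.coe_smul, smul_comm, Algebra.smul_def r]
  have hg1 : g ⟨1, h1⟩ = c := by
    apply hinj
    rw [hg, Algebra.smul_def, mul_one]
  let G : I →+ R :=
    { toFun := g
      map_zero' := by
        have := hgadd 0 0
        rw [add_zero] at this
        exact left_eq_add.1 this
      map_add' := hgadd }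
  refine ⟨e, he, φ.comp G, ?_, ?_⟩
  · intro r x
    change φ (g (r ^ p ^ e • x)) = r * φ (g x)
    rw [hgsmul, hφ]
  · change φ (g ⟨1, h1⟩) = 1
    rw [hg1, hφc]

/-- the form `σ` lifts to no modification. -/
theorem sigma_lifts_to_no_modification (p m : ℕ) [Fact p.Prime] (k : Type u) [Field k]
    [CharP k p] (hm : 1 ≤ m) [IsDomain (HS p m k)] :
    LiftsToNoModification k (HS p m k) m (sigma p m k) := by
  obtain ⟨K', i1, i2, i3, i4, O, D, hO, hD, hpole⟩ := M8 p m k hm
  intro Y _ π _ e he
  let V : ValuationSubring (FractionRing (HS p m k)) :=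
    O.comap (algebraMap (FractionRing (HS p m k)) K')
  obtain ⟨y, hy⟩ := M10 V (fun r => hO r) Y π e he
  refine ⟨y, fun hreg => ?_⟩
  obtain ⟨c, hc, hcO⟩ := M9 D
  have h1 : c (sigma p m k) ∈ O.toSubring := by
    refine hcO O.toSubring (e.symm.toRingHom.comp
      (algebraMap (Y.presheaf.stalk y) Y.functionField)) ?_ ?_ _ hreg
    · intro a
      exact hy a
    · intro i a
      exact hD i _ (hy a)
  apply hpole
  have h2 : c (sigma p m k) = (algebraMap (FractionRing (HS p m k)) K'
          (algebraMap (HS p m k) (FractionRing (HS p m k)) (ff p m k (Fin.last m))))⁻¹ *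
        Matrix.det (Matrix.of fun i j => D i
          (algebraMap (HS p m k) (FractionRing (HS p m k)) (xx p m k (Fin.castSucc j)))) := by
    unfold sigma
    rw [map_smul, hc, Algebra.smul_def, map_inv₀]
  rw [← h2]
  exact h1

/-- MAIN THEOREM. -/
theorem main (p m : ℕ) [Fact p.Prime] (k : Type u) [Field k] [CharP k p] [IsAlgClosed k]
    (hm : 1 ≤ m) : MainStatement p m k := by
  have hdom : IsDomain (HS p m k) := S25.M2a p m k hm
  have hsfr : StronglyFRegular p (HS p m k) := S25.sfr p m k hm
  refine ⟨hdom, S25.M2b p m k hm, M4b p m k, M4a p m k, hsfr, gfr_of_sfr p hsfr,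
    M7fin' p m k, sigma p m k, ?_, sigma_lifts_to_no_modification p m k hm⟩
  intro P hP
  obtain ⟨i, hi⟩ := M6 p m k P hP
  exact M5 p m k hm P i hi

end Pool.Agent.Lib.FR
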