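import Pool.Agent.Lib.FR.ConeMain20
import Pool.Agent.Lib.FR.Exc57b
import Pool.Agent.Lib.FR.ConeReg99
import Pool.Agent.Lib.FR.ConeLift47
import Pool.Agent.Lib.FR.Main

set_option autoImplicit false

namespace FRCone

open Pool.Agent.Lib.FR

universe u

/-- ConeStatement in every dimension `m + 2`: the cone has a log resolution, and its form lifts to
no modification. -/
theorem coneStatement (p m : ℕ) [Fact p.Prime] (k : Type u) [Field k] [CharP k p]
    [IsAlgClosed k] : ConeStatement p (m + 1) k := by
  have hp : 0 < p := (Fact.out : p.Prime).pos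
  have : IsDomain (A0 k p m) := isDomain_A0 k m hp
  have hsfr : StronglyFRegular p (A0 k p m) := stronglyFRegular_A0 k m p
  exact coneStatement_of k p m hp (isIntegrallyClosed_A0 k m hp) (finiteType_A0 k m hp)
    (ringKrullDim_A0 k m hp) hsfr (gfr_of_sfr p hsfr) (hExc57 k p m hp) (sigmaA k p m)
    (regular_sigmaA k m) (sigmaA_liftsToNoModification k p m)

end FRCone
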