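import Pool.Agent.Lib.FR.Cone20b

set_option autoImplicit false

namespace FRCone

open AddMonoidAlgebra HomogeneousLocalization AlgebraicGeometry CategoryTheory

universe u

variable (k : Type u) [Field k] (p m : ℕ)

/-- every monomial is a monomial of degree `0` times a monomial in `s_0, s_1` -/
theorem exists_split (x : M p m) :
    ∃ (y : M p m) (a b : ℕ), dg p m y = 0 ∧ x = y + a • es p m 0 + b • es p m 1 := by
  have hx := (mem_M x.1).1 x.2
  obtain ⟨a', b', h1, h2, h3⟩ : ∃ a' b' : ℕ, a' ≤ x.1.1 0 ∧ b' ≤ x.1.1 1 ∧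
      a' + b' = p * x.1.2 0 := by
    rcases le_total (x.1.1 0) (p * x.1.2 0) with h | h
    · exact ⟨x.1.1 0, p * x.1.2 0 - x.1.1 0, le_refl _, by omega, by omega⟩
    · exact ⟨p * x.1.2 0, 0, h, Nat.zero_le _, by omega⟩
  refine ⟨⟨(![a', b'], x.1.2), by rw [mem_M]; simp [h3]⟩, x.1.1 0 - a', x.1.1 1 - b', ?_, ?_⟩
  · rw [dg_apply]; simp [h3]
  · have e0 : (x.1.1 0 - a') • (es p m 0 : M p m) =
        ⟨(![x.1.1 0 - a', 0], 0), by rw [mem_M]; simp⟩ := by
      apply Subtype.ext
      apply Prod.ext
      · funext i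
        fin_cases i <;> simp [es]
      · simp [es]
    have e1 : (x.1.1 1 - b') • (es p m 1 : M p m) =
        ⟨(![0, x.1.1 1 - b'], 0), by rw [mem_M]; simp⟩ := by
      apply Subtype.ext
      apply Prod.ext
      · funext i
        fin_cases i <;> simp [es]
      · simp [es]
    rw [e0, e1]
    apply Subtype.ext
    apply Prod.ext
    · funext i
      fin_cases i
      · simp; omega
      · simp; omega
    · simp

theorem adjoin_eq_top :
    Algebra.adjoin (G k p m 0) (Set.range (sv k p m)) = ⊤ := by
  rw [eq_top_iff]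
  intro f _
  induction f using AddMonoidAlgebra.induction_linear with
  | zero => exact zero_mem _
  | add f g hf hg => exact add_mem (hf trivial) (hg trivial)
  | single x r =>
    obtain ⟨y, a, b, hy, rfl⟩ := exists_split p m x
    have hm : (single y r : S k p m) ∈ G k p m 0 := by
      have h := single_mem_gradeBy (R := k) (dg p m) y r
      rwa [hy] at h
    have e : (single (y + a • es p m 0 + b • es p m 1) r : S k p m) =
        single y r * sv k p m 0 ^ a * sv k p m 1 ^ b := by
      rw [sv, sv, single_pow, single_pow, single_mul_single, single_mul_single]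
      simp
    rw [e]
    refine mul_mem (mul_mem ?_ (pow_mem (Algebra.subset_adjoin (Set.mem_range_self 0)) _))
      (pow_mem (Algebra.subset_adjoin (Set.mem_range_self 1)) _)
    exact Subalgebra.algebraMap_mem _ (⟨_, hm⟩ : G k p m 0)

instance instFT : Algebra.FiniteType (G k p m 0) (S k p m) := by
  classical
  refine ⟨⟨Finset.univ.image (sv k p m), ?_⟩⟩
  rw [Finset.coe_image, Finset.coe_univ, Set.image_univ]
  exact adjoin_eq_top k p m

theorem iSup_basicOpen : ⨆ c, Proj.basicOpen (G k p m) (sv k p m c) = ⊤ :=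
  Proj.iSup_basicOpen_eq_top' (G k p m) (sv k p m) (fun c => ⟨1, sv_mem k p m c⟩)
    (adjoin_eq_top k p m)

instance instProper : IsProper (Proj.toSpecZero (G k p m)) := inferInstance

end FRCone
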