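import Pool.Agent.Lib.FR.Bir20
import Pool.Agent.Lib.FR.Proj57

set_option autoImplicit false

namespace FRCone

open AddMonoidAlgebra HomogeneousLocalization AlgebraicGeometry CategoryTheory
open Pool.Agent.Lib.FR

universe u

variable (k : Type u) [Field k] (p m : ℕ)

theorem isLogResolution_piY [IsDomain (G k p m 0)] (hp : 0 < p)
    (hExc : ∀ (c : Fin 2) (q : PrimeSpectrum (C k m)),
      jj k p m c q ∈ excLocus (piY k p m) ↔ MvPolynomial.X 1 ∈ q.asIdeal) :
    IsLogResolution k (G k p m 0) (Y k p m) (piY k p m) where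
  proper := instProper k p m
  smooth := smooth_Y k p m
  birational := birational_piY k p m hp
  snc := snc_piY k p m hExc

theorem hasLogResolution [IsDomain (G k p m 0)] (hp : 0 < p)
    (hExc : ∀ (c : Fin 2) (q : PrimeSpectrum (C k m)),
      jj k p m c q ∈ excLocus (piY k p m) ↔ MvPolynomial.X 1 ∈ q.asIdeal) :
    HasLogResolution k (G k p m 0) :=
  ⟨Y k p m, inferInstance, piY k p m, isLogResolution_piY k p m hp hExc⟩

theorem coneStatement_of [IsDomain (G k p m 0)] (hp : 0 < p)
    (hic : IsIntegrallyClosed (G k p m 0)) (hft : Algebra.FiniteType k (G k p m 0))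
    (hdim : ringKrullDim (G k p m 0) = (m + 2 : ℕ))
    (hsfr : StronglyFRegular p (G k p m 0)) (hgfr : GloballyFRegular p (G k p m 0))
    (hExc : ∀ (c : Fin 2) (q : PrimeSpectrum (C k m)),
      jj k p m c q ∈ excLocus (piY k p m) ↔ MvPolynomial.X 1 ∈ q.asIdeal)
    (σ : Forms k (FractionRing (G k p m 0)) (m + 1))
    (hσ : RegularOnSmoothLocus k (G k p m 0) (m + 1) σ)
    (hl : LiftsToNoModification k (G k p m 0) (m + 1) σ) :
    ConeStatement p (m + 1) k :=
  ⟨G k p m 0, inferInstance, inferInstance, inferInstance, hic, hft, hdim, hsfr, hgfr,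
    hasLogResolution k p m hp hExc, σ, hσ, hl⟩

end FRCone
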