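import Pool.Agent.Lib.FR.Iso57
import Pool.Agent.Lib.FR.ResDefs

set_option autoImplicit false

namespace FRCone

open AddMonoidAlgebra HomogeneousLocalization AlgebraicGeometry CategoryTheory
open Pool.Agent.Lib.FR (excLocus)

universe u

theorem not_mem_excLocus_of_isIso {X Y : Scheme.{u}} (π : Y ⟶ X) (V : X.Opens)
    (h : IsIso (π ∣_ V)) (y : Y) (hy : y ∈ π ⁻¹ᵁ V) : y ∉ excLocus π := by
  intro hn
  apply hn
  refine ⟨π ⁻¹ᵁ V, hy, ?_⟩
  rw [← morphismRestrict_ι]
  infer_instance

theorem isIso_stalkMap_of_not_mem_excLocus {X Y : Scheme.{u}} (π : Y ⟶ X) (y : Y)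
    (hy : y ∉ excLocus π) : IsIso (π.stalkMap y) := by
  simp only [excLocus, Set.mem_ofPred_eq, not_not] at hy
  obtain ⟨U, hU, hi⟩ := hy
  have h1 : IsIso ((U.ι ≫ π).stalkMap ⟨y, hU⟩) := inferInstance
  rw [Scheme.Hom.stalkMap_comp] at h1
  have h2 : IsIso (U.ι.stalkMap ⟨y, hU⟩) := inferInstance
  exact @IsIso.of_isIso_comp_right _ _ _ _ _ _ (U.ι.stalkMap ⟨y, hU⟩) h2 h1

/-- At a point off the exceptional locus, in a chart `Spec B` with structure map `φ : A → B`,
every element of `B` is a fraction of elements of `A`. -/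
theorem exists_fraction {A B : CommRingCat.{u}} {Y : Scheme.{u}} (π : Y ⟶ Spec A)
    (j : Spec B ⟶ Y) [IsOpenImmersion j] (φ : A ⟶ B) (hj : j ≫ π = Spec.map φ) (z : Spec B)
    (hz : j z ∉ excLocus π) (b : B) :
    ∃ a a' : A, φ.hom a' ∉ z.asIdeal ∧ ∃ t : B, t ∉ z.asIdeal ∧
      t * (φ.hom a' * b) = t * φ.hom a := by
  have h1 : IsIso (π.stalkMap (j z)) := isIso_stalkMap_of_not_mem_excLocus π _ hz
  have h2 : IsIso ((j ≫ π).stalkMap z) := by
    rw [Scheme.Hom.stalkMap_comp]
    have h2' : IsIso (j.stalkMap z) := inferInstance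
    exact @IsIso.comp_isIso _ _ _ _ _ _ _ h1 h2'
  rw [hj] at h2
  have h3 : IsIso (CommRingCat.ofHom (Localization.localRingHom (z.asIdeal.comap φ.hom) z.asIdeal
      φ.hom rfl)) :=
    (MorphismProperty.arrow_mk_iso_iff (MorphismProperty.isomorphisms CommRingCat)
      (Scheme.arrowStalkMapSpecIso φ z)).1 h2
  have h4 := (ConcreteCategory.isIso_iff_bijective _).1 h3
  obtain ⟨x, hx⟩ := h4.2 (algebraMap B (Localization.AtPrime z.asIdeal) b)
  obtain ⟨a, a', rfl⟩ := IsLocalization.exists_mk'_eq (z.asIdeal.comap φ.hom).primeCompl x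
  have hx' : Localization.localRingHom (z.asIdeal.comap φ.hom) z.asIdeal φ.hom rfl
      (IsLocalization.mk' (Localization.AtPrime (z.asIdeal.comap φ.hom)) a a') =
      algebraMap B (Localization.AtPrime z.asIdeal) b := hx
  rw [Localization.localRingHom_mk', IsLocalization.mk'_eq_iff_eq_mul, ← map_mul,
    IsLocalization.eq_iff_exists z.asIdeal.primeCompl] at hx'
  obtain ⟨t, ht⟩ := hx'
  refine ⟨a, a', a'.2, t, t.2, ?_⟩
  rw [mul_comm (φ.hom a') b]
  exact ht.symm

variable (k : Type u) [Field k] (p m : ℕ)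


/-- `X_1 ↦ 0` -/
noncomputable def rho1 : MvPolynomial (Fin (m + 2)) k →ₐ[k] MvPolynomial (Fin (m + 2)) k :=
  MvPolynomial.aeval (Function.update MvPolynomial.X 1 0)

/-- `X_0, X_1 ↦ 0` -/
noncomputable def rho2 : MvPolynomial (Fin (m + 2)) k →ₐ[k] MvPolynomial (Fin (m + 2)) k :=
  MvPolynomial.aeval (Function.update (Function.update MvPolynomial.X 1 0) 0 0)

theorem mem_span_of_rho1 (q : MvPolynomial (Fin (m + 2)) k) (h : rho1 k m q = 0) :
    q ∈ Ideal.span {(MvPolynomial.X 1 : MvPolynomial (Fin (m + 2)) k)} := by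
  have e : (Ideal.Quotient.mkₐ k (Ideal.span {(MvPolynomial.X 1 : MvPolynomial (Fin (m + 2)) k)})) =
      (Ideal.Quotient.mkₐ k (Ideal.span {(MvPolynomial.X 1 : MvPolynomial (Fin (m + 2)) k)})).comp
        (rho1 k m) := by
    apply MvPolynomial.algHom_ext
    intro i
    by_cases hi : i = 1
    · subst hi
      simp only [rho1, AlgHom.comp_apply, MvPolynomial.aeval_X, Function.update_self, map_zero,
        Ideal.Quotient.mkₐ_eq_mk]
      exact Ideal.Quotient.eq_zero_iff_mem.2 (Ideal.subset_span rfl)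
    · simp [rho1, hi]
  have h2 := congrArg (fun f => f q) e
  simp only [AlgHom.comp_apply, h, map_zero, Ideal.Quotient.mkₐ_eq_mk] at h2
  exact Ideal.Quotient.eq_zero_iff_mem.1 h2

/-- modulo `X_1` the elements of degree `0` do not contain `X_0`. -/
theorem rho_chi (c : Fin 2) (a : G k p m 0) :
    rho1 k m (chi k p m c a.1) = rho2 k m (chi k p m c a.1) := by
  obtain ⟨a, ha⟩ := a
  have key : ∀ x : M p m, dg p m x = 0 → ∀ r : k,
      rho1 k m (chi k p m c (single x r)) = rho2 k m (chi k p m c (single x r)) := by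
    intro x hx r
    rw [chi_single, MvPolynomial.monomial_eq, map_mul, map_mul]
    simp only [Finsupp.prod_fintype, pow_zero, implies_true, map_prod, map_pow]
    have h0 := dg_spec x
    rw [hx, zero_add, sum_c _ c] at h0
    by_cases h1 : x.1.2 0 = 0
    · have h2 : x.1.1 (c + 1) = 0 := by
        rw [h1, mul_zero] at h0; omega
      congr 1
      · simp [rho1, rho2]
      · apply Finset.prod_congr rfl
        intro i _
        by_cases hi : i = 0
        · subst hi
          simp [ex_apply, h2]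
        · simp [rho1, rho2, hi]
    · have h3 : ex p m c x 1 ≠ 0 := by
        rw [ex_apply]
        have : (1 : Fin (m + 2)) = Fin.succ 0 := rfl
        rw [this, Finsupp.cons_succ]
        exact h1
      have z1 : rho1 k m (MvPolynomial.X 1) ^ (ex p m c x 1) = 0 := by
        simp [rho1, h3]
      have z2 : rho2 k m (MvPolynomial.X 1) ^ (ex p m c x 1) = 0 := by
        simp [rho2, h3]
      rw [Finset.prod_eq_zero (Finset.mem_univ 1) z1, Finset.prod_eq_zero (Finset.mem_univ 1) z2,
        mul_zero, mul_zero]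
  show rho1 k m (chi k p m c a) = rho2 k m (chi k p m c a)
  rw [← AddMonoidAlgebra.sum_coeff_single a, Finsupp.sum, map_sum, map_sum, map_sum]
  exact Finset.sum_congr rfl fun x hx => key x (ha x hx) _

/-- The chart `c` of the exceptional locus: it is `V(X_1)`. -/
theorem mem_excLocus (c : Fin 2) (z : Spec (.of (Away (G k p m) (sv k p m c))))
    (hz : fromZeroRingHom (G k p m) (Submonoid.powers (sv k p m c)) (wv k p m c) ∈ z.asIdeal) :
    chart k p m c z ∈ excLocus (Proj.toSpecZero (G k p m)) := by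
  by_contra hn
  obtain ⟨b, hb⟩ := Phi_surjective k p m c (MvPolynomial.X 0)
  obtain ⟨a, a', ha', t, ht, h⟩ := exists_fraction _ (chart k p m c) _
    (Proj.awayι_toSpecZero _ _ _ _) z hn b
  have h1 := congrArg (Phi k p m c) h
  have ht0 : Phi k p m c t ≠ 0 := by
    intro h0
    apply ht
    rw [Phi_injective k p m c (h0.trans (map_zero _).symm)]
    exact zero_mem _
  rw [map_mul, map_mul, map_mul] at h1
  have h2 := mul_left_cancel₀ ht0 h1
  rw [hb] at h2
  have e1 : Phi k p m c ((CommRingCat.ofHom (fromZeroRingHom (G k p m)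
    (Submonoid.powers (sv k p m c)))).hom a) = chi k p m c a.1 := Phi_zero k p m c a
  have e2 : Phi k p m c ((CommRingCat.ofHom (fromZeroRingHom (G k p m)
    (Submonoid.powers (sv k p m c)))).hom a') = chi k p m c a'.1 := Phi_zero k p m c a'
  rw [e1, e2] at h2
  have h3 := congrArg (rho2 k m) h2
  have h4 := congrArg (rho1 k m) h2
  have x0 : rho2 k m (MvPolynomial.X 0) = 0 := by simp [rho2]
  have x1 : rho1 k m (MvPolynomial.X 0) = MvPolynomial.X 0 := by simp [rho1]
  rw [map_mul, x0, mul_zero] at h3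
  rw [map_mul, x1, rho_chi k p m c a, ← h3] at h4
  have h5 : rho1 k m (chi k p m c a'.1) = 0 :=
    (mul_eq_zero.1 h4).resolve_right (MvPolynomial.X_ne_zero 0)
  have h6 := mem_span_of_rho1 k m _ h5
  obtain ⟨q, hq⟩ := Ideal.mem_span_singleton.1 h6
  obtain ⟨d, hd⟩ := Phi_surjective k p m c q
  apply ha'
  have h7 : fromZeroRingHom (G k p m) (Submonoid.powers (sv k p m c)) a' =
      fromZeroRingHom (G k p m) (Submonoid.powers (sv k p m c)) (wv k p m c) * d := by
    apply Phi_injective k p m c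
    rw [map_mul, Phi_zero, Phi_zero, chi_wv, hd, hq]
  show fromZeroRingHom (G k p m) (Submonoid.powers (sv k p m c)) a' ∈ z.asIdeal
  rw [h7]
  exact Ideal.mul_mem_right _ _ hz

theorem mem_preimage (c : Fin 2) (z : Spec (.of (Away (G k p m) (sv k p m c))))
    (hz : fromZeroRingHom (G k p m) (Submonoid.powers (sv k p m c)) (wv k p m c) ∉ z.asIdeal) :
    chart k p m c z ∈
      Proj.toSpecZero (G k p m) ⁻¹ᵁ (PrimeSpectrum.basicOpen (wv k p m c)) := by
  have h2 : (chart k p m c ≫ Proj.toSpecZero (G k p m)) z ∈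
      PrimeSpectrum.basicOpen (wv k p m c) := by
    rw [Proj.awayι_toSpecZero]
    exact hz
  exact h2

theorem not_mem_excLocus (hp : 0 < p) (c : Fin 2)
    (z : Spec (.of (Away (G k p m) (sv k p m c))))
    (hz : fromZeroRingHom (G k p m) (Submonoid.powers (sv k p m c)) (wv k p m c) ∉ z.asIdeal) :
    chart k p m c z ∉ excLocus (Proj.toSpecZero (G k p m)) := by
  have h := isIso_over k p m hp c
  have h1 := mem_preimage k p m c z hz
  exact not_mem_excLocus_of_isIso _ _ h _ h1

/-- The exceptional locus in the chart `c` is `V(X_1)`, `X_1 = v s_c^p`. -/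
theorem mem_excLocus_iff (hp : 0 < p) (c : Fin 2)
    (z : Spec (.of (Away (G k p m) (sv k p m c)))) :
    chart k p m c z ∈ excLocus (Proj.toSpecZero (G k p m)) ↔
      fromZeroRingHom (G k p m) (Submonoid.powers (sv k p m c)) (wv k p m c) ∈ z.asIdeal :=
  ⟨fun h => by
    by_contra hn
    exact not_mem_excLocus k p m hp c z hn h, mem_excLocus k p m c z⟩

end FRCone
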