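import Mathlib

set_option autoImplicit false

/-!
Room FORMS (MP_0afa72_ag), module M11: if a domain `A` of finite type over a field `k` is smooth at
the prime `P`, then the number of linearly independent derivations of `A` with values in a field
over the residue field of `P` is at most the rank of the differentials of the fraction field.
-/

namespace Pool.Agent.Lib.FR.GenRank99

open KaehlerDifferential

universe u v w

/-- linear algebra: `N` functionals dual to `N` elements of a free module of rank `r` -/
theorem card_le_finrank {S M : Type*} [CommRing S] [Nontrivial S] [AddCommGroup M] [Module S M]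
    [Module.Free S M] [Module.Finite S M] {L : Type*} [Field L] [Algebra S L] {ι : Type*}
    [Fintype ι] [DecidableEq ι]
    (ℓ : ι → M →ₗ[S] L) (b : ι → M) (h : ∀ i j, ℓ i (b j) = if i = j then 1 else 0) :
    Fintype.card ι ≤ Module.finrank S M := by
  classical
  let e := Module.finBasis S M
  let C : Matrix ι (Fin (Module.finrank S M)) L := Matrix.of fun i l => ℓ i (e l)
  let E : Matrix (Fin (Module.finrank S M)) ι L :=
    Matrix.of fun l j => algebraMap S L (e.repr (b j) l)
  have hCE : C * E = 1 := by
    ext i j
    rw [Matrix.mul_apply, Matrix.one_apply, ← h i j]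
    conv_rhs => rw [← e.sum_repr (b j), map_sum]
    refine Finset.sum_congr rfl fun l _ => ?_
    rw [map_smul, Algebra.smul_def, mul_comm]
    rfl
  have h1 : (1 : Matrix ι ι L).rank = Fintype.card ι := Matrix.rank_one
  calc Fintype.card ι = (C * E).rank := by rw [hCE, h1]
    _ ≤ C.rank := Matrix.rank_mul_le_left C E
    _ ≤ Module.finrank S M := by
        have := Matrix.rank_le_card_width C
        rwa [Fintype.card_fin] at this

/-- At a smooth point the number of independent derivations into a field is at most the generic
rank of the differentials. -/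
theorem card_le_of_isSmoothAt {k : Type u} {A : Type v} [Field k] [CommRing A] [IsDomain A]
    [Algebra k A] [Algebra.FiniteType k A] (K : Type*) [Field K] [Algebra A K] [IsFractionRing A K]
    [Algebra k K] [IsScalarTower k A K] (P : Ideal A) [P.IsPrime]
    (h : Algebra.IsSmoothAt k P) {L : Type w} [Field L] [Algebra A L] [Algebra k L]
    [IsScalarTower k A L] (hL : ∀ x ∉ P, algebraMap A L x ≠ 0)
    {ι : Type*} [Fintype ι] [DecidableEq ι] (b : ι → A)
    (D : ι → Derivation k A L) (hD : ∀ i j, D i (b j) = if i = j then 1 else 0) :
    Fintype.card ι ≤ Module.finrank K Ω[K⁄k] := by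
  classical
  let S := Localization.AtPrime P
  have hSm : Algebra.FormallySmooth k S := h
  let _ : Algebra S L := (IsLocalization.lift (M := P.primeCompl) (S := S) (g := algebraMap A L)
    (fun y => isUnit_iff_ne_zero.2 (hL y y.2))).toAlgebra
  have hAS : ∀ a : A, algebraMap S L (algebraMap A S a) = algebraMap A L a := fun a =>
    IsLocalization.lift_eq (M := P.primeCompl) (S := S) _ a
  have t1 : IsScalarTower A S L := IsScalarTower.of_algebraMap_eq fun a => (hAS a).symm
  have t2 : Algebra.EssFiniteType k S := by
    have : Algebra.EssFiniteType A S := Algebra.EssFiniteType.of_isLocalization _ P.primeCompl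
    exact Algebra.EssFiniteType.comp k A S
  have t3 : Module.Finite S Ω[S⁄k] := inferInstance
  have t4 : Module.Free S Ω[S⁄k] := Module.free_of_flat_of_isLocalRing
  have hf : ∀ i, ∃ ℓ : Ω[S⁄k] →ₗ[S] L, ∀ a : A, ℓ (KaehlerDifferential.D k S (algebraMap A S a)) =
      D i a := by
    intro i
    have hu : ∀ x : P.primeCompl, IsUnit ((algebraMap A (Module.End A L)) x) := by
      intro x
      rw [Module.End.isUnit_iff]
      have hx := hL x x.2
      constructor
      · intro y z hyz
        have : (x : A) • y = (x : A) • z := hyz
        rw [Algebra.smul_def, Algebra.smul_def] at this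
        exact mul_left_cancel₀ hx this
      · intro y
        refine ⟨(algebraMap A L x)⁻¹ * y, ?_⟩
        show (x : A) • ((algebraMap A L x)⁻¹ * y) = y
        rw [Algebra.smul_def, mul_inv_cancel_left₀ hx]
    let g := IsLocalizedModule.lift P.primeCompl (KaehlerDifferential.map k k A S)
      (D i).liftKaehlerDifferential hu
    refine ⟨LinearMap.extendScalarsOfIsLocalization P.primeCompl S g, fun a => ?_⟩
    have h2 : g (KaehlerDifferential.map k k A S (KaehlerDifferential.D k A a)) =
        (D i).liftKaehlerDifferential (KaehlerDifferential.D k A a) :=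
      IsLocalizedModule.lift_apply P.primeCompl (KaehlerDifferential.map k k A S)
        (D i).liftKaehlerDifferential hu _
    rw [KaehlerDifferential.map_D, Derivation.liftKaehlerDifferential_comp_D] at h2
    exact h2
  choose ℓ hℓ using hf
  have h5 : Fintype.card ι ≤ Module.finrank S Ω[S⁄k] :=
    card_le_finrank ℓ (fun j => KaehlerDifferential.D k S (algebraMap A S (b j)))
      (fun i j => by rw [hℓ, hD])
  have hK : ∀ y : P.primeCompl, IsUnit (algebraMap A K y) := fun y =>
    isUnit_iff_ne_zero.2 fun h0 => y.2 (by
      rw [(IsFractionRing.injective A K) (h0.trans (map_zero _).symm)]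
      exact P.zero_mem)
  let _ : Algebra S K := (IsLocalization.lift (M := P.primeCompl) (S := S) (g := algebraMap A K)
    hK).toAlgebra
  have t5 : IsScalarTower A S K := IsScalarTower.of_algebraMap_eq fun a =>
    (IsLocalization.lift_eq (M := P.primeCompl) (S := S) _ a).symm
  have t6 : IsFractionRing S K :=
    IsFractionRing.isFractionRing_of_isDomain_of_isLocalization P.primeCompl S K
  have t7 : Algebra.FormallyEtale S K :=
    Algebra.FormallyEtale.of_isLocalization (nonZeroDivisors S)
  have t8 : IsScalarTower k S K := IsScalarTower.of_algebraMap_eq fun x => by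
    rw [IsScalarTower.algebraMap_apply k A S, ← IsScalarTower.algebraMap_apply A S K,
      ← IsScalarTower.algebraMap_apply k A K]
  have h9 := LinearEquiv.finrank_eq
    (KaehlerDifferential.tensorKaehlerEquivOfFormallyEtale k S K)
  rw [← h9, Module.finrank_baseChange]
  exact h5

/-- The rank of the differentials of a rational function field. -/
theorem finrank_mvPolynomial (k : Type u) [Field k] (n : ℕ) (K : Type*) [Field K]
    [Algebra (MvPolynomial (Fin n) k) K] [IsFractionRing (MvPolynomial (Fin n) k) K]
    [Algebra k K] [IsScalarTower k (MvPolynomial (Fin n) k) K] :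
    Module.finrank K Ω[K⁄k] = n := by
  have t7 : Algebra.FormallyEtale (MvPolynomial (Fin n) k) K :=
    Algebra.FormallyEtale.of_isLocalization (nonZeroDivisors _)
  have h9 := LinearEquiv.finrank_eq
    (KaehlerDifferential.tensorKaehlerEquivOfFormallyEtale k (MvPolynomial (Fin n) k) K)
  rw [← h9, Module.finrank_baseChange,
    Module.finrank_eq_card_basis (KaehlerDifferential.mvPolynomialBasis k (Fin n)),
    Fintype.card_fin]

end Pool.Agent.Lib.FR.GenRank99
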