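import Pool.Agent.Lib.FR.Proj57

set_option autoImplicit false

namespace FRCone

open AddMonoidAlgebra HomogeneousLocalization AlgebraicGeometry CategoryTheory

universe u

/-- If `f` is an open immersion with range containing `U` then `f ∣_ U` is an isomorphism. -/
theorem isIso_restrict_of_le {X Y : Scheme.{u}} (f : X ⟶ Y) [IsOpenImmersion f] (U : Y.Opens)
    (h : U ≤ f.opensRange) : IsIso (f ∣_ U) := by
  apply isIso_of_isOpenImmersion_of_opensRange_eq_top
  rw [eq_top_iff]
  rintro y -
  obtain ⟨x, hx⟩ := h y.2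
  have hxU : x ∈ f ⁻¹ᵁ U := by
    show f x ∈ U
    rw [hx]; exact y.2
  refine ⟨⟨x, hxU⟩, ?_⟩
  apply Subtype.ext
  rw [morphismRestrict_base_coe]
  exact hx

theorem awayMap_bijective {A B : Type*} [CommRing A] [CommRing B] (φ : A →+* B) (w : A)
    (hi : Function.Injective φ) (hs : ∀ b : B, ∃ (n : ℕ) (a : A), φ a = b * φ w ^ n) :
    Function.Bijective (Localization.awayMap φ w) := by
  constructor
  · have : IsLocalization (Submonoid.map φ (Submonoid.powers w)) (Localization.Away (φ w)) := by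
      rw [Submonoid.map_powers]; infer_instance
    exact IsLocalization.map_injective_of_injective _ _ _ hi
  · rw [Localization.awayMap, IsLocalization.Away.map_surjective_iff]
    intro b
    obtain ⟨n, a, ha⟩ := hs b
    exact ⟨a, n, by rw [ha, mul_comm]⟩

/-- General criterion: the restriction over a basic open set is an isomorphism. -/
theorem isIso_restrict_basicOpen {A B : CommRingCat.{u}} {Y : Scheme.{u}} (π : Y ⟶ Spec A)
    (j : Spec B ⟶ Y) [IsOpenImmersion j] (φ : A ⟶ B) (hj : j ≫ π = Spec.map φ) (w : A)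
    (hw : π ⁻¹ᵁ (PrimeSpectrum.basicOpen w) ≤ j.opensRange)
    (hb : Function.Bijective (Localization.awayMap φ.hom w)) :
    IsIso (π ∣_ (PrimeSpectrum.basicOpen w)) := by
  have h1 : IsIso ((j ≫ π) ∣_ (PrimeSpectrum.basicOpen w)) := by
    rw [hj]
    have h2 : IsIso (Spec.map (CommRingCat.ofHom (Localization.awayMap φ.hom w))) := by
      have : IsIso (CommRingCat.ofHom (Localization.awayMap φ.hom w)) :=
        (ConcreteCategory.isIso_iff_bijective _).2 hb
      infer_instance
    exact (MorphismProperty.arrow_mk_iso_iff (MorphismProperty.isomorphisms Scheme)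
      (SpecMapRestrictBasicOpenIso φ w)).2 h2
  have h3 : IsIso (j ∣_ π ⁻¹ᵁ (PrimeSpectrum.basicOpen w)) := isIso_restrict_of_le _ _ hw
  rw [morphismRestrict_comp] at h1
  exact @IsIso.of_isIso_comp_left _ _ _ _ _ (j ∣_ π ⁻¹ᵁ (PrimeSpectrum.basicOpen w)) _ h3 h1

variable (k : Type u) [Field k] (p m : ℕ)

/-- exponent of `v s_c^p` -/
noncomputable def ew (c : Fin 2) : M p m :=
  ⟨(Pi.single c p, Finsupp.single 0 1), by
    rw [mem_M]
    fin_cases c <;> simp⟩

theorem dg_ew (c : Fin 2) : dg p m (ew p m c) = 0 := by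
  rw [dg_apply, ew]
  fin_cases c <;> simp

/-- The element `v s_c^p` of degree `0`. -/
noncomputable def wv (c : Fin 2) : G k p m 0 :=
  ⟨single (ew p m c) 1, by
    have h := single_mem_gradeBy (R := k) (dg p m) (ew p m c) 1
    rwa [dg_ew p m c] at h⟩

theorem succ_ne (c : Fin 2) : c + 1 ≠ c := by
  fin_cases c <;> simp

theorem one_eq_succ {m : ℕ} (j : Fin (m + 1)) : ((1 : Fin (m + 2)) = j.succ) = (0 = j) := by
  rw [show (1 : Fin (m + 2)) = Fin.succ 0 from rfl, Fin.succ_inj]

theorem ex_ew (c : Fin 2) : ex p m c (ew p m c) = Finsupp.single 1 1 := by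
  ext i
  rw [ex_apply]
  refine Fin.cases ?_ (fun j => ?_) i
  · simp [ew, succ_ne c]
  · simp [ew, Finsupp.cons_succ, Finsupp.single_apply, one_eq_succ]

theorem ex_ew' (c : Fin 2) :
    ex p m c (ew p m (c + 1)) = Finsupp.single 0 p + Finsupp.single 1 1 := by
  ext i
  rw [ex_apply]
  refine Fin.cases ?_ (fun j => ?_) i
  · simp [ew]
  · simp [ew, Finsupp.cons_succ, Finsupp.single_apply, one_eq_succ]

theorem ex_es' (c : Fin 2) : ex p m c (es p m (c + 1)) = Finsupp.single 0 1 := by
  ext i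
  rw [ex_apply]
  refine Fin.cases ?_ (fun j => ?_) i
  · simp [es]
  · simp [es, Finsupp.cons_succ]

theorem chi_wv (c : Fin 2) : chi k p m c (wv k p m c).1 = MvPolynomial.X 1 := by
  rw [wv, chi_single, ex_ew]
  rfl

theorem chi_wv' (c : Fin 2) :
    chi k p m c (wv k p m (c + 1)).1 = MvPolynomial.X 0 ^ p * MvPolynomial.X 1 := by
  rw [wv, chi_single, ex_ew', MvPolynomial.X, MvPolynomial.X, MvPolynomial.monomial_pow,
    MvPolynomial.monomial_mul]
  simp

theorem chi_sv' (c : Fin 2) : chi k p m c (sv k p m (c + 1)) = MvPolynomial.X 0 := by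
  rw [sv, chi_single, ex_es']
  rfl

/-- exponents of a lift of degree `0` of the chart monomial `y` times `X_1 ^ (y 0)`. -/
noncomputable def lf0 (hp : 0 < p) (c : Fin 2) (y : Fin (m + 2) →₀ ℕ) : M p m :=
  ⟨(Function.update (fun _ => y 0) c (p * (y 1 + y 0) - y 0),
      Finsupp.tail y + Finsupp.single 0 (y 0)), by
    rw [mem_M]
    simp only [Finsupp.add_apply, Finsupp.tail_apply]
    rw [sum_c _ c]
    have h2 : y 0 ≤ p * (y 1 + y 0) := by nlinarith
    simp [succ_ne c]
    omega⟩

theorem dg_lf0 (hp : 0 < p) (c : Fin 2) (y : Fin (m + 2) →₀ ℕ) : dg p m (lf0 p m hp c y) = 0 := by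
  have h := dg_spec (lf0 p m hp c y)
  have h2 : y 0 ≤ p * (y 1 + y 0) := by nlinarith
  rw [sum_c _ c] at h
  have h3 : (lf0 p m hp c y).1.1 c = p * (y 1 + y 0) - y 0 := by simp [lf0]
  have h4 : (lf0 p m hp c y).1.1 (c + 1) = y 0 := by simp [lf0, succ_ne c]
  have h5 : (lf0 p m hp c y).1.2 0 = y 1 + y 0 := by simp [lf0, Finsupp.tail_apply]
  rw [h3, h4, h5] at h
  omega

theorem ex_lf0 (hp : 0 < p) (c : Fin 2) (y : Fin (m + 2) →₀ ℕ) :
    ex p m c (lf0 p m hp c y) = y + Finsupp.single 1 (y 0) := by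
  ext i
  rw [ex_apply]
  refine Fin.cases ?_ (fun j => ?_) i
  · simp [lf0, succ_ne c]
  · simp [lf0, Finsupp.cons_succ, Finsupp.single_apply, Finsupp.tail_apply, one_eq_succ]

/-- every element of the chart ring is a quotient of an element of degree `0` by a power of
`v s_c^p`. -/
theorem exists_chi (hp : 0 < p) (c : Fin 2) (q : MvPolynomial (Fin (m + 2)) k) :
    ∃ (n : ℕ) (a : G k p m 0), chi k p m c a.1 = q * MvPolynomial.X 1 ^ n := by
  induction q using MvPolynomial.induction_on' with
  | monomial y r =>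
    refine ⟨y 0, ⟨single (lf0 p m hp c y) r, ?_⟩, ?_⟩
    · have h := single_mem_gradeBy (R := k) (dg p m) (lf0 p m hp c y) r
      rwa [dg_lf0] at h
    · rw [chi_single, ex_lf0, MvPolynomial.X, MvPolynomial.monomial_pow,
        MvPolynomial.monomial_mul]
      simp
  | add q r hq hr =>
    obtain ⟨n, a, ha⟩ := hq
    obtain ⟨n', a', ha'⟩ := hr
    refine ⟨n + n', a * wv k p m c ^ n' + a' * wv k p m c ^ n, ?_⟩
    have e : ((a * wv k p m c ^ n' + a' * wv k p m c ^ n : G k p m 0) : S k p m) =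
        (a : S k p m) * (wv k p m c : S k p m) ^ n' + a' * (wv k p m c : S k p m) ^ n := by
      simp [SetLike.GradeZero.coe_mul, SetLike.GradeZero.coe_pow]
    rw [e, map_add, map_mul, map_mul, map_pow, map_pow, ha, ha', chi_wv]
    ring

/-- The structure map of the chart ring, injective. -/
theorem fromZero_injective (c : Fin 2) :
    Function.Injective (fromZeroRingHom (G k p m) (Submonoid.powers (sv k p m c))) := by
  rw [injective_iff_map_eq_zero]
  intro a ha
  have h := Phi_zero k p m c a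
  rw [ha, map_zero] at h
  exact Subtype.ext (chi_injOn k p m a.2 h.symm)

theorem fromZero_awayMap_bijective (hp : 0 < p) (c : Fin 2) :
    Function.Bijective (Localization.awayMap
      (fromZeroRingHom (G k p m) (Submonoid.powers (sv k p m c))) (wv k p m c)) := by
  apply awayMap_bijective _ _ (fromZero_injective k p m c)
  intro b
  obtain ⟨n, a, ha⟩ := exists_chi k p m hp c (Phi k p m c b)
  refine ⟨n, a, Phi_injective k p m c ?_⟩
  rw [map_mul, map_pow, Phi_zero, Phi_zero, ha, chi_wv]

/-- the chart `c` as an open immersion -/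
noncomputable abbrev chart (c : Fin 2) :
    Spec (.of (Away (G k p m) (sv k p m c))) ⟶ Proj (G k p m) :=
  Proj.awayι (G k p m) (sv k p m c) (sv_mem k p m c) one_pos

theorem fromZero_wv (c : Fin 2) :
    fromZeroRingHom (G k p m) (Submonoid.powers (sv k p m c)) (wv k p m (c + 1)) =
      (Away.isLocalizationElem (sv_mem k p m c) (sv_mem k p m (c + 1))) ^ p *
        fromZeroRingHom (G k p m) (Submonoid.powers (sv k p m c)) (wv k p m c) := by
  apply Phi_injective k p m c
  rw [map_mul, map_pow, Phi_zero, Phi_zero, Phi_mk, chi_wv, chi_wv', pow_one, chi_sv']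

/-- the preimage of `D(v s_c^p)` lies in the chart `c`. -/
theorem preimage_le (hp : 0 < p) (c : Fin 2) :
    Proj.toSpecZero (G k p m) ⁻¹ᵁ (PrimeSpectrum.basicOpen (wv k p m c)) ≤
      (chart k p m c).opensRange := by
  intro y hy
  rw [Proj.opensRange_awayι]
  have hc : y ∈ Proj.basicOpen (G k p m) (sv k p m c) ∨
      y ∈ Proj.basicOpen (G k p m) (sv k p m (c + 1)) := by
    have h := iSup_basicOpen k p m
    have hy' : y ∈ ⨆ c, Proj.basicOpen (G k p m) (sv k p m c) := by rw [h]; trivial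
    obtain ⟨i, hi⟩ := TopologicalSpace.Opens.mem_iSup.1 hy'
    have hi2 : i = c ∨ i = c + 1 := by
      fin_cases c <;> fin_cases i <;> simp
    rcases hi2 with rfl | rfl
    · exact Or.inl hi
    · exact Or.inr hi
  rcases hc with h | h
  · exact h
  rw [← Proj.opensRange_awayι (G k p m) (sv k p m (c + 1)) (sv_mem k p m (c + 1)) one_pos] at h
  obtain ⟨z, rfl⟩ := h
  have hcc : c + 1 + 1 = c := by fin_cases c <;> simp
  have h1 : z ∈ PrimeSpectrum.basicOpen
      (fromZeroRingHom (G k p m) (Submonoid.powers (sv k p m (c + 1))) (wv k p m c)) := by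
    have h2 : (Proj.awayι (G k p m) (sv k p m (c + 1)) (sv_mem k p m (c + 1)) one_pos ≫
        Proj.toSpecZero (G k p m)) z ∈ PrimeSpectrum.basicOpen (wv k p m c) := hy
    rw [Proj.awayι_toSpecZero] at h2
    exact h2
  have h3 := fromZero_wv k p m (c + 1)
  rw [hcc] at h3
  rw [h3, PrimeSpectrum.basicOpen_mul, PrimeSpectrum.basicOpen_pow _ _ hp] at h1
  have h4 := Proj.awayι_preimage_basicOpen (G k p m) (sv_mem k p m (c + 1)) one_pos
    (sv_mem k p m c) one_pos
  have h5 : z ∈ Proj.awayι (G k p m) (sv k p m (c + 1)) (sv_mem k p m (c + 1)) one_pos ⁻¹ᵁ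
      Proj.basicOpen (G k p m) (sv k p m c) := by
    rw [h4]
    exact h1.1
  exact h5

/-- (B) the morphism is an isomorphism over `D(v s_c^p)`. -/
theorem isIso_over (hp : 0 < p) (c : Fin 2) :
    IsIso (Proj.toSpecZero (G k p m) ∣_ (PrimeSpectrum.basicOpen (wv k p m c))) :=
  isIso_restrict_basicOpen _ (chart k p m c) _ (Proj.awayι_toSpecZero _ _ _ _) _
    (preimage_le k p m hp c) (fromZero_awayMap_bijective k p m hp c)

end FRCone
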