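import Pool.Agent.Lib.FR.M9
import Pool.Agent.Lib.FR.M10

set_option autoImplicit false

/-!
Room FORMS (MP_0afa72_ag): the general criterion for `LiftsToNoModification`: a valuation ring `O`
of an extension `K'` of the fraction field of `R`, containing `R`, and derivations which preserve
`O` and whose contraction with `σ` is not in `O`.
-/

namespace Pool.Agent.Lib.FR

open AlgebraicGeometry CategoryTheory

universe u

theorem liftsToNoModification_of {k : Type u} [Field k] {R : Type u} [CommRing R] [IsDomain R]
    [Algebra k R] {m : ℕ} {K' : Type u} [Field K'] [Algebra k K'] [Algebra (FractionRing R) K']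
    [IsScalarTower k (FractionRing R) K'] (O : ValuationSubring K')
    (D : Fin m → Derivation k (FractionRing R) K')
    (hR : ∀ r : R, algebraMap (FractionRing R) K' (algebraMap R (FractionRing R) r) ∈ O)
    (hD : ∀ i (x : FractionRing R), algebraMap (FractionRing R) K' x ∈ O → D i x ∈ O)
    (a : FractionRing R) (s : Fin m → FractionRing R)
    (hs : algebraMap (FractionRing R) K' a * Matrix.det (Matrix.of fun i j => D i (s j)) ∉ O) :
    LiftsToNoModification k R m
      (a • exteriorPower.ιMulti (FractionRing R) m (fun i => KaehlerDifferential.D k _ (s i))) := by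
  intro Y _ π _ e he
  obtain ⟨y, hy⟩ := M10 (O.comap (algebraMap (FractionRing R) K')) (fun r => hR r) Y π e he
  refine ⟨y, fun hreg => hs ?_⟩
  obtain ⟨c, hc1, hc2⟩ := M9 D
  have h := hc2 O.toSubring (e.symm.toRingHom.comp
      (algebraMap (Y.presheaf.stalk y) Y.functionField)) (fun x => hy x)
      (fun i x => hD i _ (hy x)) _ hreg
  have h2 : c (a • exteriorPower.ιMulti (FractionRing R) m
      (fun i => KaehlerDifferential.D k _ (s i))) = algebraMap (FractionRing R) K' a *
        Matrix.det (Matrix.of fun i j => D i (s j)) := by
    rw [map_smul, hc1, Algebra.smul_def]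
  rw [← h2]
  exact h

end Pool.Agent.Lib.FR
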