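import Pool.Agent.Lib.FR.Defs
import Pool.Agent.Lib.MP_0afa72_ag.SFR25

set_option autoImplicit false

/-! Room FORMS, modules M1, M2, M2a, M2b and strong F-regularity of `HS p m k`, in the stub form
(helper25). -/

namespace Pool.Agent.Lib.FR.S25

open MvPolynomial

universe u

variable (p m : ℕ) [hp : Fact p.Prime] (k : Type u) [Field k] [CharP k p]

theorem nontriv {m : ℕ} (hm : 1 ≤ m) : Nontrivial (Fin (m + 1)) :=
  Fin.nontrivial_iff_two_le.2 (by omega)

theorem M1 (hm : 1 ≤ m) : ∃ T : MvPolynomial (Fin (m + 1)) k →+ MvPolynomial (Fin (m + 1)) k,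
    (∀ a b, T (MvPolynomial.expand p a * b) = a * T b) ∧
    (∀ i, i < p - 1 → T (fpol p m k ^ i) = 0) ∧ T (fpol p m k ^ (p - 1)) = 1 := by
  have := nontriv hm
  exact ⟨(SFR25.Tr p).toAddMonoidHom, fun a b => SFR25.Tr_expand_mul p hp.out.pos a b,
    fun i hi => SFR25.Tr_G_pow_lt (k := k) (σ := Fin (m + 1)) p (m + 1) i hi,
    SFR25.Tr_G_pow (k := k) (σ := Fin (m + 1)) p (m + 1) hp.out.pos⟩

theorem M2 (hm : 1 ≤ m) : ∃ ι : HS p m k →ₐ[k] MvPolynomial (Fin (m + 1)) k,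
    Function.Injective ι ∧ (∀ i, ι (xx p m k i) = MvPolynomial.X i ^ p) ∧
    ι (yy p m k) = fpol p m k ∧
    ∃ ψ : MvPolynomial (Fin (m + 1)) k →+ HS p m k,
      (∀ r b, ψ (ι r * b) = r * ψ b) ∧ ψ 1 = 1 := by
  have := nontriv hm
  let ι₀ : HS p m k →+* MvPolynomial (Fin (m + 1)) k := SFR25.iota (k := k) (σ := Fin (m + 1)) p (m + 1)
  have h1 : ∀ a, ι₀ (AdjoinRoot.of (hpol p m k) a) = expand p a :=
    fun a => SFR25.iota_of (k := k) (σ := Fin (m + 1)) p (m + 1) a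
  refine ⟨{ ι₀ with commutes' := ?_ }, SFR25.iota_injective (k := k) (σ := Fin (m + 1)) p (m + 1), ?_, ?_,
    SFR25.psi (k := k) (σ := Fin (m + 1)) p (m + 1), ?_, ?_⟩
  · intro r
    show ι₀ (AdjoinRoot.of (hpol p m k) (C r)) = C r
    rw [h1, expand_C]
  · intro i
    show ι₀ (AdjoinRoot.of (hpol p m k) (X i)) = X i ^ p
    rw [h1, expand_X]
  · exact SFR25.iota_root (k := k) (σ := Fin (m + 1)) p (m + 1)
  · intro r b
    exact SFR25.psi_iota_mul (k := k) (σ := Fin (m + 1)) p (m + 1) r b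
  · exact SFR25.psi_one (k := k) (σ := Fin (m + 1)) p (m + 1)

theorem M2a (hm : 1 ≤ m) : IsDomain (HS p m k) := by
  have := nontriv hm
  exact SFR25.instIsDomain (k := k) (σ := Fin (m + 1)) p (m + 1)

theorem M2b (hm : 1 ≤ m) [IsDomain (HS p m k)] : IsIntegrallyClosed (HS p m k) := by
  have := nontriv hm
  exact SFR25.normal (k := k) (σ := Fin (m + 1)) p (m + 1)

theorem sfr (hm : 1 ≤ m) [PerfectField k] : StronglyFRegular p (HS p m k) := by
  have := nontriv hm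
  have : PerfectRing k p := PerfectField.toPerfectRing p
  exact fun c hc => SFR25.sfr (k := k) (σ := Fin (m + 1)) p (m + 1) c hc

end Pool.Agent.Lib.FR.S25
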