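import Pool.Agent.Lib.FR.Defs

set_option autoImplicit false

/-!
Module M8.5 of the room FORMS (MP_0afa72_ag), part (a): the determinant of the chart derivations
and the general form of the last step of M8.
-/

namespace Pool.Agent.Lib.FR

universe u

section det

variable {F : Type*} [CommRing F]

/-- rows `j`: row `0` is `-G`, row `j + 1` is `t g e_j - U_j G`. -/
theorem det_chart_aux (n : ℕ) (t g : F) (G U : Fin (n + 1) → F)
    (A : Matrix (Fin (n + 1)) (Fin (n + 1)) F) (h0 : ∀ i, A i 0 = -G i)
    (h1 : ∀ (i : Fin (n + 1)) (j : Fin n), A i j.succ =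
      t * (if i = j.castSucc then g else 0) + U j.castSucc * (-G i)) :
    A.det = (-1) ^ n * (-G (Fin.last n)) * (t * g) ^ n := by
  let B : Matrix (Fin (n + 1)) (Fin (n + 1)) F := fun j i =>
    Fin.cases (motive := fun _ => F) (-G i) (fun j' : Fin n => t * (if i = j'.castSucc then g else 0)) j
  have hB0 : ∀ i, B 0 i = -G i := fun i => rfl
  have hB1 : ∀ (j : Fin n) (i : Fin (n + 1)), B j.succ i = t * (if i = j.castSucc then g else 0) :=
    fun j i => rfl
  have e1 : A.det = B.det := by
    rw [← Matrix.det_transpose]
    refine Matrix.det_eq_of_forall_row_eq_smul_add_const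
      (Fin.cases (motive := fun _ => F) 0 (fun j' : Fin n => U j'.castSucc)) 0 rfl ?_
    intro j i
    refine Fin.cases ?_ (fun j' => ?_) j
    · simp [Matrix.transpose_apply, h0, hB0]
    · simp only [Matrix.transpose_apply, h1, hB0, hB1, Fin.cases_succ]
  rw [e1, Matrix.det_succ_column B (Fin.last n), Fin.sum_univ_succ]
  have e2 : ∀ j : Fin n, B j.succ (Fin.last n) = 0 := by
    intro j
    rw [hB1, if_neg (by exact fun h => (Fin.castSucc_lt_last j).ne' h), mul_zero]
  have e3 : Matrix.det (B.submatrix (Fin.succAbove 0) (Fin.succAbove (Fin.last n))) =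
      (t * g) ^ n := by
    have : B.submatrix (Fin.succAbove 0) (Fin.succAbove (Fin.last n)) =
        (t * g) • (1 : Matrix (Fin n) (Fin n) F) := by
      ext a b
      rw [Matrix.submatrix_apply, Fin.succAbove_zero, Fin.succAbove_last, hB1, Matrix.smul_apply,
        Matrix.one_apply]
      by_cases hab : a = b
      · subst hab
        simp
      · have : ¬ b.castSucc = a.castSucc := fun h => hab (Fin.castSucc_injective n h).symm
        simp [this, hab]
    rw [this, Matrix.det_smul, Matrix.det_one, mul_one, Fintype.card_fin]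
  simp only [e2, e3, hB0, mul_zero, zero_mul, Finset.sum_const_zero, add_zero, Fin.val_zero,
    Fin.val_last, zero_add]

end det

section final

variable {p n : ℕ} {k : Type u} [Field k] [IsDomain (HS p (n + 1) k)]

/-- The last step of M8, for any domain `C` with a prime `T` and an injective `k`-algebra map
`χ : R → C` of the shape of the chart. -/
theorem M8_of_chart {C : Type u} [CommRing C] [IsDomain C] [Algebra k C]
    (χ : HS p (n + 1) k →ₐ[k] C) (hχ : Function.Injective χ) (T GT : C)
    (U GU : Fin (n + 1) → C) (hT : Prime T) (hGT : ¬ T ∣ GT)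
    (hX0 : χ (xx p (n + 1) k 0) = T)
    (hXj : ∀ j : Fin n, χ (xx p (n + 1) k j.succ.castSucc) = T * U j.castSucc)
    (hff : χ (ff p (n + 1) k (Fin.last (n + 1))) = T ^ (n + 1) * GU (Fin.last n))
    (hGU : GU (Fin.last n) ≠ 0)
    (O : ValuationSubring (FractionRing C))
    (hO : ∀ z : FractionRing C, z ∈ O ↔
      ∃ r s : C, ¬ T ∣ s ∧ z = algebraMap C (FractionRing C) r / algebraMap C (FractionRing C) s)
    (D : Fin (n + 1) → Derivation k (FractionRing C) (FractionRing C))
    (hDT : ∀ i, D i (algebraMap C (FractionRing C) T) = -algebraMap C (FractionRing C) (GU i))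
    (hDU : ∀ i j, D i (algebraMap C (FractionRing C) (U j)) =
      if j = i then algebraMap C (FractionRing C) GT else 0)
    (hDO : ∀ i z, z ∈ O → D i z ∈ O) :
    ∃ (K' : Type u) (_ : Field K') (_ : Algebra k K')
      (_ : Algebra (FractionRing (HS p (n + 1) k)) K')
      (_ : IsScalarTower k (FractionRing (HS p (n + 1) k)) K') (O : ValuationSubring K')
      (D : Fin (n + 1) → Derivation k (FractionRing (HS p (n + 1) k)) K'),
      (∀ r : HS p (n + 1) k, algebraMap (FractionRing (HS p (n + 1) k)) K'
        (algebraMap (HS p (n + 1) k) (FractionRing (HS p (n + 1) k)) r) ∈ O) ∧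
      (∀ i (x : FractionRing (HS p (n + 1) k)),
        algebraMap (FractionRing (HS p (n + 1) k)) K' x ∈ O → D i x ∈ O) ∧
      (algebraMap (FractionRing (HS p (n + 1) k)) K'
          (algebraMap (HS p (n + 1) k) (FractionRing (HS p (n + 1) k))
            (ff p (n + 1) k (Fin.last (n + 1)))))⁻¹ *
        Matrix.det (Matrix.of fun i j => D i
          (algebraMap (HS p (n + 1) k) (FractionRing (HS p (n + 1) k))
            (xx p (n + 1) k (Fin.castSucc j)))) ∉ O := by
  have hinj : Function.Injective ((algebraMap C (FractionRing C)).comp χ.toRingHom) :=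
    (IsFractionRing.injective C (FractionRing C)).comp hχ
  let L : FractionRing (HS p (n + 1) k) →+* FractionRing C := IsFractionRing.lift hinj
  have hL : ∀ r, L (algebraMap (HS p (n + 1) k) (FractionRing (HS p (n + 1) k)) r) =
      algebraMap C (FractionRing C) (χ r) := fun r => IsFractionRing.lift_algebraMap hinj r
  let algL : Algebra (FractionRing (HS p (n + 1) k)) (FractionRing C) := L.toAlgebra
  have hLalg : ∀ x, algebraMap (FractionRing (HS p (n + 1) k)) (FractionRing C) x = L x :=
    fun _ => rfl
  have tow : IsScalarTower k (FractionRing (HS p (n + 1) k)) (FractionRing C) := by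
    refine IsScalarTower.of_algebraMap_eq fun c => ?_
    rw [hLalg, IsScalarTower.algebraMap_apply k (HS p (n + 1) k)
      (FractionRing (HS p (n + 1) k)), hL, AlgHom.commutes,
      ← IsScalarTower.algebraMap_apply k C (FractionRing C)]
  refine ⟨FractionRing C, inferInstance, inferInstance, algL, tow, O,
    fun i => (D i).compAlgebraMap (FractionRing (HS p (n + 1) k)), ?_, ?_, ?_⟩
  · intro r
    rw [hLalg, hL, hO]
    exact ⟨χ r, 1, hT.not_dvd_one, by simp⟩
  · intro i x hx
    exact hDO i _ hx
  · have hDc : ∀ i x, (D i).compAlgebraMap (FractionRing (HS p (n + 1) k)) x = D i (L x) :=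
      fun _ _ => rfl
    have hdet := det_chart_aux n (algebraMap C (FractionRing C) T)
      (algebraMap C (FractionRing C) GT) (fun i => algebraMap C (FractionRing C) (GU i))
      (fun i => algebraMap C (FractionRing C) (U i))
      (Matrix.of fun i j => (D i).compAlgebraMap (FractionRing (HS p (n + 1) k))
          (algebraMap (HS p (n + 1) k) (FractionRing (HS p (n + 1) k))
            (xx p (n + 1) k (Fin.castSucc j))))
      (fun i => by
        rw [Matrix.of_apply, hDc, hL, Fin.castSucc_zero, hX0, hDT])
      (fun i j => by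
        rw [Matrix.of_apply, hDc, hL, hXj, map_mul, Derivation.leibniz, hDT, hDU, smul_eq_mul,
          smul_eq_mul]
        congr 2
        simp only [eq_comm])
    rw [hdet, hLalg, hL, hff, hO]
    rintro ⟨r, s, hs, hrs⟩
    have hTK : algebraMap C (FractionRing C) T ≠ 0 := by
      rw [Ne, IsFractionRing.to_map_eq_zero_iff]
      exact hT.ne_zero
    have hGK : algebraMap C (FractionRing C) (GU (Fin.last n)) ≠ 0 := by
      rw [Ne, IsFractionRing.to_map_eq_zero_iff]
      exact hGU
    have hsK : algebraMap C (FractionRing C) s ≠ 0 := by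
      rw [Ne, IsFractionRing.to_map_eq_zero_iff]
      rintro rfl
      exact hs (dvd_zero T)
    have key : algebraMap C (FractionRing C) ((-1) ^ n * -GT ^ n * s) =
        algebraMap C (FractionRing C) (r * T) := by
      rw [eq_div_iff hsK, map_mul, map_pow] at hrs
      simp only [map_mul, map_pow, map_neg, map_one]
      rw [← hrs]
      field_simp
      ring
    have key2 := IsFractionRing.injective C (FractionRing C) key
    have hdvd : T ∣ (-1) ^ n * -GT ^ n * s := by
      rw [key2]
      exact dvd_mul_left _ _
    rcases hT.dvd_or_dvd hdvd with h | h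
    · rcases hT.dvd_or_dvd h with h | h
      · exact hT.not_isUnit (isUnit_of_dvd_unit h ((isUnit_one.neg).pow n))
      · exact hGT (hT.dvd_of_dvd_pow ((dvd_neg).1 h))
    · exact hs h

end final

end Pool.Agent.Lib.FR
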