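import Pool.Agent.Lib.FR.M85
import Pool.Agent.Lib.FR.Chart
import Pool.Agent.Lib.FR.Der38

set_option autoImplicit false

/-!
Module M8 of the room FORMS (MP_0afa72_ag): assembly of the chart data (M8.1, M8.2, M8.3, M8.4).
-/

namespace Pool.Agent.Lib.FR

universe u

/-- the statement M8 from the chart data. -/
theorem M8_of_data (p n : ℕ) [Fact p.Prime] (k : Type u) [Field k] [CharP k p]
    [IsDomain (HS p (n + 1) k)] [IsDomain (CC p (n + 1) k)]
    (hT : Prime (cc p (n + 1) k 0)) (hGT : ¬ cc p (n + 1) k 0 ∣ gg p (n + 1) k 0)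
    (hG : gg p (n + 1) k (Fin.last (n + 1)) ≠ 0)
    (χ : HS p (n + 1) k →ₐ[k] CC p (n + 1) k) (hχ : Function.Injective χ)
    (h0 : χ (xx p (n + 1) k 0) = cc p (n + 1) k 0)
    (hj : ∀ i : Fin (n + 2), i ≠ 0 → i ≠ Fin.last (n + 1) →
      χ (xx p (n + 1) k i) = cc p (n + 1) k 0 * cc p (n + 1) k i)
    (hff : χ (ff p (n + 1) k (Fin.last (n + 1))) =
      cc p (n + 1) k 0 ^ (n + 1) * gg p (n + 1) k (Fin.last (n + 1)))
    (O : ValuationSubring (FractionRing (CC p (n + 1) k)))
    (hO : ∀ z : FractionRing (CC p (n + 1) k), z ∈ O ↔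
      ∃ r s : CC p (n + 1) k, ¬ cc p (n + 1) k 0 ∣ s ∧
        z = algebraMap (CC p (n + 1) k) (FractionRing (CC p (n + 1) k)) r /
          algebraMap (CC p (n + 1) k) (FractionRing (CC p (n + 1) k)) s) :
    ∃ (K' : Type u) (_ : Field K') (_ : Algebra k K')
      (_ : Algebra (FractionRing (HS p (n + 1) k)) K')
      (_ : IsScalarTower k (FractionRing (HS p (n + 1) k)) K') (O : ValuationSubring K')
      (D : Fin (n + 1) → Derivation k (FractionRing (HS p (n + 1) k)) K'),
      (∀ r : HS p (n + 1) k, algebraMap (FractionRing (HS p (n + 1) k)) K'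
        (algebraMap (HS p (n + 1) k) (FractionRing (HS p (n + 1) k)) r) ∈ O) ∧
      (∀ i (x : FractionRing (HS p (n + 1) k)),
        algebraMap (FractionRing (HS p (n + 1) k)) K' x ∈ O → D i x ∈ O) ∧
      (algebraMap (FractionRing (HS p (n + 1) k)) K'
          (algebraMap (HS p (n + 1) k) (FractionRing (HS p (n + 1) k))
            (ff p (n + 1) k (Fin.last (n + 1)))))⁻¹ *
        Matrix.det (Matrix.of fun i j => D i
          (algebraMap (HS p (n + 1) k) (FractionRing (HS p (n + 1) k))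
            (xx p (n + 1) k (Fin.castSucc j)))) ∉ O := by
  have hp : ((p : ℕ) : FractionRing (CC p (n + 1) k)) = 0 := by
    have h1 : algebraMap k (FractionRing (CC p (n + 1) k)) ((p : ℕ) : k) = 0 := by
      rw [CharP.cast_eq_zero k p, map_zero]
    rwa [map_natCast] at h1
  obtain ⟨D, hD0, hDj, -, hDS⟩ := _root_.FR.exists_hamiltonian
    (K := FractionRing (CC p (n + 1) k)) p (GG p (n + 1) k)
    (Polynomial.X ^ p - Polynomial.C (GG p (n + 1) k)) rfl hp
  let S : Submonoid (CC p (n + 1) k) :=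
    { carrier := {s | ¬ cc p (n + 1) k 0 ∣ s}
      one_mem' := hT.not_dvd_one
      mul_mem' := fun {a b} ha hb hab => (hT.dvd_or_dvd hab).elim ha hb }
  refine M8_of_chart χ hχ (cc p (n + 1) k 0) (gg p (n + 1) k 0)
    (fun j => cc p (n + 1) k j.succ) (fun j => gg p (n + 1) k j.succ) hT hGT h0 ?_ hff hG O hO D
    hD0 hDj ?_
  · intro j
    rw [hj _ (by
      rw [Ne, ← Fin.castSucc_zero]
      exact fun h => Fin.succ_ne_zero j (Fin.castSucc_injective _ h)) (Fin.castSucc_lt_last _).ne]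
    rfl
  · intro i z hz
    rw [hO] at hz ⊢
    exact hDS i S z hz

end Pool.Agent.Lib.FR
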