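import Pool.Agent.Lib.FR.Base99b
import Pool.Agent.Lib.FR.Iso57
import Pool.Agent.Lib.FR.GenRank99

set_option autoImplicit false

/-!
Room FORMS (MP_0afa72_ag), module M11: the base ring `A0 k p m` of the cone in the charts; its
fraction field; it is smooth at the primes which do not contain `v s_0^p` or `v s_1^p`.
-/

namespace FRCone

open AddMonoidAlgebra

universe u

variable (k : Type u) [Field k] (p m : ℕ)

/-- the chart `c` as a map of `k`-algebras -/
noncomputable def chiA (c : Fin 2) : A0 k p m →ₐ[k] MvPolynomial (Fin (m + 2)) k where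
  toRingHom := (chi k p m c).toRingHom.comp (algebraMap (A0 k p m) (S k p m))
  commutes' r := by
    show chi k p m c (algebraMap k (S k p m) r) = _
    rw [AlgHom.commutes]

theorem chiA_apply (c : Fin 2) (a : A0 k p m) : chiA k p m c a = chi k p m c a.1 := rfl

theorem chiA_injective (c : Fin 2) : Function.Injective (chiA k p m c) := by
  rw [injective_iff_map_eq_zero]
  intro a ha
  exact Subtype.ext (chi_injOn k p m a.2 ha)

theorem chiA_wv (c : Fin 2) : chiA k p m c (wv k p m c) = MvPolynomial.X 1 := chi_wv k p m c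

theorem chiA_wv' (c : Fin 2) :
    chiA k p m c (wv k p m (c + 1)) = MvPolynomial.X 0 ^ p * MvPolynomial.X 1 := chi_wv' k p m c

theorem chiA_mon (c : Fin 2) (x : M p m) (hx : dg p m x = 0) :
    chiA k p m c (mon k p m x hx) = MvPolynomial.monomial (ex p m c x) 1 := by
  rw [chiA_apply, mon, chi_single]

theorem ex_ze (c : Fin 2) (j : Fin m) :
    ex p m c (ze p j) = Finsupp.single j.succ.succ 1 := by
  ext i
  rw [ex_apply]
  refine Fin.cases ?_ (fun i => ?_) i
  · rw [Finsupp.cons_zero, Finsupp.single_eq_of_ne (Fin.succ_ne_zero _).symm]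
    rfl
  · rw [Finsupp.cons_succ]
    show (Finsupp.single (j.succ : Fin (m + 1)) 1) i = _
    rw [Finsupp.single_apply, Finsupp.single_apply]
    simp only [Fin.succ_inj]

theorem chiA_zmon (c : Fin 2) (j : Fin m) :
    chiA k p m c (zmon k p m j) = MvPolynomial.X j.succ.succ := by
  rw [zmon, chiA_mon, ex_ze]
  rfl

theorem exists_chiA {p : ℕ} (hp : 0 < p) (c : Fin 2) (q : MvPolynomial (Fin (m + 2)) k) :
    ∃ (n : ℕ) (a : A0 k p m), chiA k p m c a = q * MvPolynomial.X 1 ^ n :=
  exists_chi k p m hp c q

/-- the fraction field of the chart is the fraction field of the base ring -/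
theorem isFractionRing_chart {p : ℕ} (hp : 0 < p) (c : Fin 2) (K : Type*) [Field K]
    [Algebra (MvPolynomial (Fin (m + 2)) k) K] [IsFractionRing (MvPolynomial (Fin (m + 2)) k) K]
    [Algebra (A0 k p m) K]
    (h : ∀ a : A0 k p m, algebraMap (A0 k p m) K a = algebraMap _ K (chiA k p m c a)) :
    IsFractionRing (A0 k p m) K := by
  have hC := IsFractionRing.injective (MvPolynomial (Fin (m + 2)) k) K
  have hinj : Function.Injective (algebraMap (A0 k p m) K) := by
    intro a b hab
    rw [h, h] at hab
    exact chiA_injective k p m c (hC hab)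
  have hF : FaithfulSMul (A0 k p m) K := (faithfulSMul_iff_algebraMap_injective _ _).2 hinj
  refine IsFractionRing.of_field (A0 k p m) K fun z => ?_
  obtain ⟨q, r, hr, rfl⟩ := IsFractionRing.div_surjective (A := MvPolynomial (Fin (m + 2)) k) z
  obtain ⟨n, a, ha⟩ := exists_chiA k m hp c q
  obtain ⟨n', b, hb⟩ := exists_chiA k m hp c r
  refine ⟨a * wv k p m c ^ n', b * wv k p m c ^ n, ?_⟩
  have hr0 : algebraMap (MvPolynomial (Fin (m + 2)) k) K r ≠ 0 := by
    intro h0
    exact nonZeroDivisors.ne_zero hr (hC (h0.trans (map_zero _).symm))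
  have hX : algebraMap (MvPolynomial (Fin (m + 2)) k) K (MvPolynomial.X 1) ≠ 0 := by
    intro h0
    exact MvPolynomial.X_ne_zero (R := k) (1 : Fin (m + 2)) (hC (h0.trans (map_zero _).symm))
  have e1 : chiA k p m c (a * wv k p m c ^ n') =
      q * MvPolynomial.X 1 ^ n * MvPolynomial.X 1 ^ n' := by
    rw [map_mul, map_pow, ha, chiA_wv]
  have e2 : chiA k p m c (b * wv k p m c ^ n) =
      r * MvPolynomial.X 1 ^ n' * MvPolynomial.X 1 ^ n := by
    rw [map_mul, map_pow, hb, chiA_wv]
  rw [h, h, e1, e2]
  simp only [map_mul, map_pow]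
  field_simp

theorem finitePresentation_A0 {p : ℕ} (hp : 0 < p) : Algebra.FinitePresentation k (A0 k p m) :=
  have := finiteType_A0 k m hp
  Algebra.FinitePresentation.of_finiteType.1 this

/-- the localization at `v s_c^p` is smooth -/
theorem formallySmooth_away {p : ℕ} (hp : 0 < p) (c : Fin 2) :
    Algebra.FormallySmooth k (Localization.Away (wv k p m c)) := by
  have hb : Function.Bijective (Localization.awayMap (chiA k p m c).toRingHom (wv k p m c)) := by
    refine awayMap_bijective _ _ (chiA_injective k p m c) fun b => ?_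
    obtain ⟨n, a, ha⟩ := exists_chiA k m hp c b
    refine ⟨n, a, ?_⟩
    have h1 : (chiA k p m c).toRingHom (wv k p m c) = MvPolynomial.X 1 := chiA_wv k p m c
    rw [h1]
    exact ha
  let e : Localization.Away (wv k p m c) ≃ₐ[k] Localization.Away (chiA k p m c (wv k p m c)) :=
    AlgEquiv.ofBijective (Localization.awayMapₐ (chiA k p m c) (wv k p m c)) hb
  have h1 : Algebra.FormallySmooth (MvPolynomial (Fin (m + 2)) k)
      (Localization.Away (chiA k p m c (wv k p m c))) :=
    Algebra.FormallySmooth.of_isLocalization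
      (Submonoid.powers (chiA k p m c (wv k p m c)))
  have h2 : Algebra.FormallySmooth k (Localization.Away (chiA k p m c (wv k p m c))) :=
    Algebra.FormallySmooth.comp k (MvPolynomial (Fin (m + 2)) k) _
  exact Algebra.FormallySmooth.of_equiv e.symm

/-- the base ring is smooth at the primes which do not contain `v s_c^p` -/
theorem mem_smoothLocus_of {p : ℕ} (hp : 0 < p) (P : PrimeSpectrum (A0 k p m)) (c : Fin 2)
    (h : wv k p m c ∉ P.asIdeal) : P ∈ Algebra.smoothLocus k (A0 k p m) := by
  have := finitePresentation_A0 k m hp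
  have h1 : ((PrimeSpectrum.basicOpen (wv k p m c) : TopologicalSpace.Opens _) : Set _) ⊆
      Algebra.smoothLocus k (A0 k p m) :=
    Algebra.basicOpen_subset_smoothLocus_iff.2 (formallySmooth_away k m hp c)
  exact h1 h

end FRCone
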